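import Pool.Agent.Run7.h881.SE.Wgt

/-!
Rounding a relaxation with small total variance, and the dichotomy.
-/

set_option autoImplicit false
set_option linter.unusedSectionVars false

namespace Run7.h881.SE

open Finset Run7.h881.SA

section
variable {V : Type} [Fintype V] [DecidableEq V]

section
variable (P : V → V → ℝ) (hP : ∀ u v, 0 ≤ P u v) (hsym : ∀ u v, P u v = P v u)
    (hrow : ∀ u, ∑ v, P u v = 1)

include hP in
theorem ins_mono {S S' : Finset V} (h : S ⊆ S') : ins P S ≤ ins P S' := by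
  unfold ins
  refine (sum_le_sum fun u _ => sum_le_sum_of_subset_of_nonneg h fun v _ _ => hP u v).trans ?_
  exact sum_le_sum_of_subset_of_nonneg h fun u _ _ => sum_nonneg fun v _ => hP u v

include hP hsym hrow in
theorem ins_erase (S : Finset V) (w : V) (hw : w ∈ S) : ins P S - 2 ≤ ins P (S.erase w) := by
  have hle : ∀ (W : Finset V) (u : V), ∑ v ∈ W, P u v ≤ 1 := fun W u => by
    rw [← hrow u]
    exact sum_le_sum_of_subset_of_nonneg (subset_univ W) fun v _ _ => hP u v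
  unfold ins
  rw [← add_sum_erase S _ hw]
  have h1 : ∀ u, ∑ v ∈ S, P u v = P w u + ∑ v ∈ S.erase w, P u v := fun u => by
    rw [← add_sum_erase S _ hw, hsym u w]
  rw [sum_congr rfl fun u _ => h1 u, sum_add_distrib]
  have h2 := hle S w
  have h3 := hle (S.erase w) w
  linarith

include hP hsym hrow in
theorem trim (s : ℕ) : ∀ (m : ℕ) (R : Finset V), R.card = s + m →
    ∃ S : Finset V, S.card = s ∧ ins P R - 2 * m ≤ ins P S := by
  intro m
  induction m with
  | zero => intro R hR; exact ⟨R, by simpa using hR, by simp⟩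
  | succ m ih =>
    intro R hR
    have hne : R.Nonempty := by rw [← card_pos]; omega
    obtain ⟨w, hw⟩ := hne
    obtain ⟨S, hS, h⟩ := ih (R.erase w) (by rw [card_erase_of_mem hw]; omega)
    refine ⟨S, hS, ?_⟩
    have := ins_erase P hP hsym hrow R w hw
    push_cast
    linarith

include hP in
theorem extend (s : ℕ) (hs : s ≤ Fintype.card V) (R : Finset V) (hR : R.card ≤ s) :
    ∃ S : Finset V, S.card = s ∧ ins P R ≤ ins P S := by
  obtain ⟨S, h1, _, h2⟩ := exists_subsuperset_card_eq (subset_univ R) hR (by simpa using hs)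
  exact ⟨S, h2, ins_mono P hP h1⟩

include hP in
theorem greedy (β : ℝ) (s : ℕ) : ∃ B : Finset V, B.card ≤ s ∧ β * B.card ≤ ins P B ∧
    ∀ S : Finset V, Disjoint B S → S.Nonempty → B.card + S.card ≤ s →
      ins P S ≤ β * S.card := by
  classical
  have hne : ((univ : Finset (Finset V)).filter fun B => B.card ≤ s ∧ β * B.card ≤ ins P B).Nonempty :=
    ⟨∅, by rw [mem_filter]; exact ⟨mem_univ _, by simp, by simp [ins]⟩⟩
  obtain ⟨B, hB, hmax⟩ := exists_max_image _ (fun B => B.card) hne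
  rw [mem_filter] at hB
  refine ⟨B, hB.2.1, hB.2.2, fun S hd hS hc => ?_⟩
  by_contra hcon
  push Not at hcon
  have h1 : ins P B + ins P S ≤ ins P (B ∪ S) := by
    unfold ins
    rw [sum_union hd]
    refine add_le_add (sum_le_sum fun u _ => ?_) (sum_le_sum fun u _ => ?_)
    · exact sum_le_sum_of_subset_of_nonneg subset_union_left fun v _ _ => hP u v
    · exact sum_le_sum_of_subset_of_nonneg subset_union_right fun v _ _ => hP u v
  have h2 := hmax (B ∪ S) (by
    rw [mem_filter]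
    refine ⟨mem_univ _, ?_, ?_⟩
    · rw [card_union_of_disjoint hd]; exact hc
    · rw [card_union_of_disjoint hd]
      push_cast
      linarith [hB.2.2])
  rw [card_union_of_disjoint hd] at h2
  have h3 := card_pos.2 hS
  omega

end

theorem sum_mu {k : ℕ} (hk : 1 ≤ k) {s : ℝ} {L : (Finset V → ℝ) →ₗ[ℝ] ℝ}
    (h1 : L (fun _ => 1) = 1) (hL : HasSize k s L) : ∑ u, mu L u = s := by
  have h := hL ∅ (by rw [card_empty]; omega) (fun _ => 1) (dep_const _ 1)
  rw [h1, mul_one] at h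
  rw [← h]
  have h2 : (fun S : Finset V => (S.card : ℝ) * 1) = ∑ u, xi u := by
    funext S
    rw [Finset.sum_apply]
    unfold xi
    rw [sum_boole, mul_one]
    congr 2
    ext u; simp
  rw [h2, map_sum]
  rfl

/-- **rounding** -/
theorem rounding (P : V → V → ℝ) (hP : ∀ u v, 0 ≤ P u v) (hsym : ∀ u v, P u v = P v u)
    (hrow : ∀ u, ∑ v, P u v = 1) {L : (Finset V → ℝ) →ₗ[ℝ] ℝ} (hL : IsSheraliAdams 2 L)
    (s : ℕ) (hs : s ≤ Fintype.card V) (hmu : ∑ u, mu L u = s) (B : Finset V) (ε : ℝ)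
    (hB : (B.card : ℝ) ≤ ε * s) (hε : 0 ≤ ε) (hΓ : trA Bᶜ (cv L) < s / 16)
    (he : L (bd P) ≤ 2 * ε * s) :
    ∃ S : Finset V, S.card = s ∧ (3 / 4 - 4 * ε) * s ≤ ins P S := by
  set R := (Bᶜ).filter fun u => 1 / 2 < mu L u with hR
  set R' := (Bᶜ).filter fun u => ¬ (1 / 2 < mu L u) with hR'
  set a := ∑ u ∈ R, (1 - mu L u) with ha
  set c := ∑ u ∈ R', mu L u with hc
  set m := ∑ u ∈ B, mu L u with hm
  set e := L (bd P) with hee
  have ha0 : 0 ≤ a := sum_nonneg fun u _ => by linarith [mu_le_one hL u]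
  have hc0 : 0 ≤ c := sum_nonneg fun u _ => mu_nonneg hL u
  have hm0 : 0 ≤ m := sum_nonneg fun u _ => mu_nonneg hL u
  have hmB : m ≤ B.card := by
    have : m ≤ ∑ u ∈ B, (1 : ℝ) := sum_le_sum fun u _ => mu_le_one hL u
    simpa using this
  have hac : a + c ≤ 2 * trA Bᶜ (cv L) := by
    unfold trA
    rw [← sum_filter_add_sum_filter_not Bᶜ (fun u => 1 / 2 < mu L u) (fun u => cv L u u), mul_add,
      mul_sum, mul_sum]
    refine add_le_add (sum_le_sum fun u hu => ?_) (sum_le_sum fun u hu => ?_)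
    · rw [mem_filter] at hu
      rw [cv_self]
      nlinarith [mu_le_one hL u, hu.2]
    · rw [mem_filter] at hu
      rw [cv_self]
      nlinarith [mu_nonneg hL u, not_lt.1 hu.2]
  have hRm : ∑ u ∈ R, mu L u = R.card - a := by
    rw [ha, sum_sub_distrib]
    simp
  have hcard : (R.card : ℝ) = s - m - c + a := by
    have h1 := sum_add_sum_compl B (fun u => mu L u)
    have h2 := sum_filter_add_sum_filter_not Bᶜ (fun u => 1 / 2 < mu L u) (fun u => mu L u)
    rw [hmu] at h1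
    have h3 : ∑ u ∈ Bᶜ, mu L u = (R.card - a) + c := by rw [← hRm]; exact h2.symm
    have h4 : m + ((R.card - a) + c) = s := by rw [← h3]; exact h1
    linarith
  -- the mass which leaves R
  have hout : (R.card : ℝ) - ins P R = ∑ u ∈ R, ∑ v ∈ Rᶜ, P u v := by
    unfold ins
    have h1 : ∀ u, ∑ v ∈ Rᶜ, P u v = 1 - ∑ v ∈ R, P u v := fun u => by
      have := sum_add_sum_compl R (fun v => P u v)
      rw [hrow u] at this
      linarith
    simp only [h1]
    rw [sum_sub_distrib]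
    simp
  have hout2 : ∑ u ∈ R, ∑ v ∈ Rᶜ, P u v ≤ a + e + (s - (R.card - a)) := by
    have h1 : ∀ u v, P u v ≤ P u v * (1 - mu L u) + P u v * (mu L u - mm L u v) + P u v * mu L v := by
      intro u v
      have h2 := mm_le hL v u
      rw [mm_symm] at h2
      have h3 := mul_le_mul_of_nonneg_left h2 (hP u v)
      nlinarith
    have h2 : ∑ u ∈ R, ∑ v ∈ Rᶜ, P u v ≤ (∑ u ∈ R, ∑ v ∈ Rᶜ, P u v * (1 - mu L u)) +
        (∑ u ∈ R, ∑ v ∈ Rᶜ, P u v * (mu L u - mm L u v)) +
        ∑ u ∈ R, ∑ v ∈ Rᶜ, P u v * mu L v := by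
      simp only [← sum_add_distrib]
      exact sum_le_sum fun u _ => sum_le_sum fun v _ => h1 u v
    have h3 : ∑ u ∈ R, ∑ v ∈ Rᶜ, P u v * (1 - mu L u) ≤ a := by
      refine sum_le_sum fun u _ => ?_
      rw [← sum_mul]
      have h4 : ∑ v ∈ Rᶜ, P u v ≤ 1 := by
        rw [← hrow u]
        exact sum_le_sum_of_subset_of_nonneg (subset_univ _) fun v _ _ => hP u v
      have h5 : 0 ≤ 1 - mu L u := by linarith [mu_le_one hL u]
      nlinarith
    have h4 : ∑ u ∈ R, ∑ v ∈ Rᶜ, P u v * (mu L u - mm L u v) ≤ e := by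
      rw [hee, bd_val P hL]
      have h5 : ∀ u v, 0 ≤ P u v * (mu L u - mm L u v) := fun u v =>
        mul_nonneg (hP u v) (by linarith [mm_le hL u v])
      refine (sum_le_sum fun u _ => sum_le_sum_of_subset_of_nonneg (subset_univ _)
        fun v _ _ => h5 u v).trans ?_
      exact sum_le_sum_of_subset_of_nonneg (subset_univ _) fun u _ _ => sum_nonneg fun v _ => h5 u v
    have h5 : ∑ u ∈ R, ∑ v ∈ Rᶜ, P u v * mu L v ≤ s - (R.card - a) := by
      rw [sum_comm]
      have h6 : ∑ v ∈ Rᶜ, mu L v = s - (R.card - a) := by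
        have := sum_add_sum_compl R (fun v => mu L v)
        rw [hmu, hRm] at this
        linarith
      rw [← h6]
      refine sum_le_sum fun v _ => ?_
      rw [← sum_mul]
      have h7 : ∑ u ∈ R, P u v ≤ 1 := by
        rw [← hrow v]
        calc ∑ u ∈ R, P u v = ∑ u ∈ R, P v u := sum_congr rfl fun u _ => hsym u v
          _ ≤ ∑ u, P v u := sum_le_sum_of_subset_of_nonneg (subset_univ _) fun u _ _ => hP v u
      have h8 := mu_nonneg hL v
      nlinarith
    linarith
  have hins : (s : ℝ) - 2 * m - 2 * c - e ≤ ins P R := by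
    rw [hcard] at hout hout2
    linarith
  rcases le_or_gt R.card s with hle | hgt
  · obtain ⟨S, h1, h2⟩ := extend P hP s hs R hle
    refine ⟨S, h1, ?_⟩
    linarith
  · obtain ⟨m', hm'⟩ := Nat.exists_eq_add_of_lt hgt
    obtain ⟨S, h1, h2⟩ := trim P hP hsym hrow s (m' + 1) R (by omega)
    refine ⟨S, h1, ?_⟩
    have h3 : (R.card : ℝ) = s + (m' + 1) := by rw [hm']; push_cast; ring
    push_cast at h2
    have h4 : ε * s ≥ 0 := mul_nonneg hε (Nat.cast_nonneg s)
    linarith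

set_option maxHeartbeats 2000000 in
/-- **the dichotomy** -/
theorem dicho (P : V → V → ℝ) (hP : ∀ u v, 0 ≤ P u v) (hsym : ∀ u v, P u v = P v u)
    (hrow : ∀ u, ∑ v, P u v = 1) (s : ℕ) (hs1 : 1 ≤ s) (hs : s ≤ Fintype.card V)
    (ε q : ℝ) (hε : 0 < ε) (hε1 : ε ≤ 1 / 100) (hq : 0 < q) (hq1 : q ≤ 1 / 2)
    (T : ℕ) (hT : 1 ≤ T) (hTs : q ^ (2 * T) * s ≤ 1)
    (M : ℕ) (hM : 3 ≤ M) (hMT : 32 * (T : ℝ) ^ 2 ≤ (M - 1) * (1 - 36 * ε) ^ (2 * T))
    (j : ℕ) (hj : 332800 / (1 - 36 * ε) ^ (4 * T) < (j : ℝ) + 1)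
    (L : (Finset V → ℝ) →ₗ[ℝ] ℝ) (hL : IsSheraliAdams (M + j) L) (hLs : HasSize (M + j) s L)
    (he : L (bd P) ≤ ε * s) :
    ∃ S : Finset V, S.card = s ∧ ε * q ^ 2 / 8 * s ≤ ins P S := by
  have hs0 : (0 : ℝ) < s := by exact_mod_cast hs1
  have hb : 0 < 1 - 36 * ε := by linarith
  set D := (1 - 36 * ε) ^ (4 * T) with hD
  have hD0 : 0 < D := pow_pos hb _
  have hD1 : D ≤ 1 := pow_le_one₀ hb.le (by linarith)
  obtain ⟨B, hBs, hBi, hBmax⟩ := greedy P hP (q ^ 2 / 8) s
  rcases le_or_gt (ε * s) B.card with hcase | hcase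
  · obtain ⟨S, h1, h2⟩ := extend P hP s hs B hBs
    refine ⟨S, h1, ?_⟩
    have h3 : 0 ≤ q ^ 2 / 8 := by positivity
    have h4 := mul_le_mul_of_nonneg_left hcase h3
    calc ε * q ^ 2 / 8 * s = q ^ 2 / 8 * (ε * s) := by ring
      _ ≤ q ^ 2 / 8 * B.card := h4
      _ ≤ ins P B := hBi
      _ ≤ ins P S := h2
  · -- small sets outside B keep little mass
    have hA : ∀ S : Finset V, S ⊆ Bᶜ → S.Nonempty → (S.card : ℝ) ≤ 7 * s / 8 →
        ins P S ≤ (q / 2) ^ 2 / 2 * S.card := by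
      intro S hS hne hcS
      have h1 : B.card + S.card ≤ s := by
        have h2 : (B.card : ℝ) + S.card ≤ s := by nlinarith
        exact_mod_cast h2
      have h3 := hBmax S (disjoint_left.2 fun x hxB hxS => by
        have := hS hxS
        rw [mem_compl] at this
        exact this hxB) hne h1
      refine h3.trans (le_of_eq (by ring))
    have hstep : ∀ L : (Finset V → ℝ) →ₗ[ℝ] ℝ, IsSheraliAdams M L → HasSize M s L →
        (s : ℝ) / 16 ≤ trA Bᶜ (cv L) → L (bd P) ≤ 2 * ε * s →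
        D * s / 166400 * s ≤ ∑ u, ∑ v ∈ Bᶜ, cv L u v ^ 2 / mu L u := by
      intro L hL hLs h1 h2
      have hL2 : IsSheraliAdams 2 L := sa_mono (by omega) hL
      have htr := trA_nonneg hL2 Bᶜ
      have hen := energy P hP hsym hrow hL2 B
      have h3 : (1 - 36 * ε) * trA Bᶜ (cv L) ≤ ∑ u ∈ Bᶜ, ∑ v ∈ Bᶜ, P u v * cv L u v := by
        refine le_trans ?_ hen
        have h4 : 36 * ε * (s / 16) ≤ 36 * ε * trA Bᶜ (cv L) :=
          mul_le_mul_of_nonneg_left h1 (by linarith)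
        nlinarith
      have hg := globw P hP hsym (fun u => (hrow u).le) Bᶜ (cv L) (7 * s / 8) (q / 2)
        (by linarith) (by linarith) (by linarith) hA M (by omega) (cv_psd hL le_rfl)
        (fun u => cv_self_nonneg hL2 u) (fun u v => cv_symm L u v) (36 * ε) (by linarith)
        (by linarith) h3 T hT hMT (mu L) (mu_nonneg hL2) (fun u v h => cv_zero hL2 u v (by
          rw [cv_self, h, zero_mul]))
      set Y := ∑ u ∈ Bᶜ, ∑ v ∈ Bᶜ, cv L u v ^ 2 / mu L u with hY
      have hY0 : 0 ≤ Y :=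
        sum_nonneg fun u _ => sum_nonneg fun v _ => div_nonneg (sq_nonneg _) (mu_nonneg hL2 u)
      have h5 : (2 * (q / 2)) ^ (2 * T) ≤ 1 / s := by
        rw [mul_div_cancel₀ _ (two_ne_zero), le_div_iff₀ hs0]
        exact hTs
      have h6 : ∑ u ∈ Bᶜ, mu L u ≤ s := by
        rw [← sum_mu (k := M) (by omega) hL.one hLs]
        exact sum_le_sum_of_subset_of_nonneg (subset_univ _) fun u _ _ => mu_nonneg hL2 u
      have h7 : (2 * (q / 2)) ^ (2 * T) + 8 / (7 * s / 8) ≤ 650 / 64 / s := by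
        have h8 : 8 / (7 * (s : ℝ) / 8) = 64 / 7 / s := by
          field_simp
          norm_num
        rw [h8]
        have h9 : 1 / (s : ℝ) + 64 / 7 / s = 71 / 7 / s := by ring
        have h10 : 71 / 7 / (s : ℝ) ≤ 650 / 64 / s := div_le_div_of_nonneg_right (by norm_num) hs0.le
        linarith
      have h8 : ((∑ u ∈ Bᶜ, mu L u) * ((2 * (q / 2)) ^ (2 * T) + 8 / (7 * s / 8))) * Y ≤
          s * (650 / 64 / s) * Y := by
        refine mul_le_mul_of_nonneg_right ?_ hY0
        refine mul_le_mul h6 h7 ?_ hs0.le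
        have : 0 ≤ (2 * (q / 2)) ^ (2 * T) := pow_nonneg (by linarith) _
        positivity
      have h9 : trA Bᶜ (cv L) ^ 2 * D / 64 ≤ s * (650 / 64 / s) * Y := hg.trans h8
      have h10 : (s / 16 : ℝ) ^ 2 ≤ trA Bᶜ (cv L) ^ 2 := pow_le_pow_left₀ (by positivity) h1 2
      have h11 : s * (650 / 64 / s) * Y = 650 / 64 * Y := by
        field_simp
      rw [h11] at h9
      have h12 := mul_le_mul_of_nonneg_right h10 hD0.le
      have h13 : Y ≤ ∑ u, ∑ v ∈ Bᶜ, cv L u v ^ 2 / mu L u :=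
        sum_le_sum_of_subset_of_nonneg (subset_univ _) fun u _ _ =>
          sum_nonneg fun v _ => div_nonneg (sq_nonneg _) (mu_nonneg hL2 u)
      nlinarith
    have hκ : 0 < D * (s : ℝ) / 166400 := by positivity
    have hκc : D * (s : ℝ) / 166400 ≤ s / 16 := by
      nlinarith
    have hE : 0 < 2 * ε * (s : ℝ) := by positivity
    have hL2 : IsSheraliAdams 2 L := sa_mono (by omega) hL
    have hmu : ∑ u, mu L u = s := sum_mu (k := M + j) (by omega) hL.one hLs
    have hstart : trA Bᶜ (cv L) / (D * (s : ℝ) / 166400) +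
        (j + 1) * (L (bd P) / (2 * ε * s)) < j + 1 := by
      have h1 : trA Bᶜ (cv L) ≤ s := (trA_le hL2 Bᶜ).trans hmu.le
      have h2 : L (bd P) / (2 * ε * s) ≤ 1 / 2 := by
        rw [div_le_iff₀ hE]
        linarith
      have h3 : trA Bᶜ (cv L) / (D * (s : ℝ) / 166400) ≤
          s / (D * (s : ℝ) / 166400) := div_le_div_of_nonneg_right h1 hκ.le
      have h4 : s / (D * (s : ℝ) / 166400) = (332800 / D) / 2 := by
        field_simp
        norm_num
      rw [h4] at h3
      have h5 : (0 : ℝ) ≤ j := Nat.cast_nonneg j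
      nlinarith
    obtain ⟨L', hL', hLs', htr', he'⟩ := wdescend P hP Bᶜ s (D * (s : ℝ) / 166400)
      (2 * ε * s) (s / 16) M hM hs0 hκ hκc hE hstep j L hL hLs hstart
    have hL2' : IsSheraliAdams 2 L' := sa_mono (by omega) hL'
    have hmu' : ∑ u, mu L' u = s := sum_mu (k := M) (by omega) hL'.one hLs'
    obtain ⟨S, h1, h2⟩ := rounding P hP hsym hrow hL2' s hs hmu' B ε hcase.le hε.le htr' he'
    refine ⟨S, h1, ?_⟩
    refine le_trans ?_ h2
    refine mul_le_mul_of_nonneg_right ?_ hs0.le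
    nlinarith

end

end Run7.h881.SE
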