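import Pool.Agent.Run7.h881.SE.Chg
import Pool.Agent.Run7.h881.SE.Rnd

/-!
The dichotomy for sets of small expansion.
-/

set_option autoImplicit false
set_option linter.unusedSectionVars false

namespace Run7.h881.SE

open Finset Run7.h881.SA

section
variable {V : Type} [Fintype V] [DecidableEq V]

/-- **global correlation**, for a kernel with a bound for the rows of its powers -/
theorem globr (P : V → V → ℝ) (hP : ∀ u v, 0 ≤ P u v) (hsym : ∀ u v, P u v = P v u)
    (hrow : ∀ u, ∑ v, P u v ≤ 1) (A : Finset V) (G : V → V → ℝ)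
    (M : ℕ) (hM : 2 ≤ M) (hG : PsdM M G) (hG0 : ∀ u, 0 ≤ G u u)
    (hGs : ∀ u v, G u v = G v u) (b : ℝ) (hb0 : 0 ≤ b) (hb1 : b < 1)
    (h1 : (1 - b) * trA A G ≤ ∑ u ∈ A, ∑ v ∈ A, P u v * G u v)
    (T : ℕ) (hT : 1 ≤ T) (hMT : 32 * (T : ℝ) ^ 2 ≤ (M - 1) * (1 - b) ^ (2 * T))
    (m : V → ℝ) (hm0 : ∀ u, 0 ≤ m u) (hmz : ∀ u v, m u = 0 → G u v = 0)
    (ρ : ℝ) (hρ0 : 0 ≤ ρ) (hρ : ∀ u ∈ A, rsq P A (2 * T) u ≤ ρ) :
    trA A G ^ 2 * (1 - b) ^ (4 * T) / 64 ≤
      ((∑ u ∈ A, m u) * ρ) * ∑ u ∈ A, ∑ v ∈ A, G u v ^ 2 / m u := by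
  have htr : 0 ≤ trA A G := sum_nonneg fun u _ => hG0 u
  have hY0 : 0 ≤ ∑ u ∈ A, ∑ v ∈ A, G u v ^ 2 / m u :=
    sum_nonneg fun u _ => sum_nonneg fun v _ => div_nonneg (sq_nonneg _) (hm0 u)
  have hfr : ∑ u ∈ A, ∑ v ∈ A, ((rst P A ^ (2 * T)) u v * √(m u)) ^ 2 ≤ (∑ u ∈ A, m u) * ρ := by
    rw [sum_mul]
    refine sum_le_sum fun u hu => ?_
    have h2 : ∀ v, ((rst P A ^ (2 * T)) u v * √(m u)) ^ 2 = m u * (rst P A ^ (2 * T)) u v ^ 2 := by
      intro v
      rw [mul_pow, Real.sq_sqrt (hm0 u)]; ring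
    simp only [h2]
    rw [← mul_sum]
    refine mul_le_mul_of_nonneg_left ?_ (hm0 u)
    refine le_trans ?_ (hρ u hu)
    exact sum_le_sum_of_subset_of_nonneg (subset_univ A) fun v _ _ => sq_nonneg _
  rcases htr.eq_or_lt with h0 | h0
  · rw [← h0]
    have h2 : 0 ≤ ((∑ u ∈ A, m u) * ρ) * ∑ u ∈ A, ∑ v ∈ A, G u v ^ 2 / m u :=
      mul_nonneg (mul_nonneg (sum_nonneg fun u _ => hm0 u) hρ0) hY0
    simpa using h2
  · have hM1 : (0 : ℝ) < (M : ℝ) - 1 := by
      have : (2 : ℝ) ≤ M := by exact_mod_cast hM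
      linarith
    have h2 := seq_lower (cor P A G) (trA A G) b ((M : ℝ) - 1) T h0 hb0 hb1 hM1 (cor_zero P A G)
      (by rw [cor_one]; exact h1)
      (fun i j α β hα hβ => conv P hP hsym hrow A G M hM hG hG0 hGs i j α β hα hβ) hT hMT
    rw [← two_mul] at h2
    have h3 : cor P A G (2 * T) ^ 2 ≤
        (∑ u ∈ A, ∑ v ∈ A, ((rst P A ^ (2 * T)) u v * √(m u)) ^ 2) *
          ∑ u ∈ A, ∑ v ∈ A, (G u v / √(m u)) ^ 2 := by
      have h4 : cor P A G (2 * T) = ∑ u ∈ A, ∑ v ∈ A,
          ((rst P A ^ (2 * T)) u v * √(m u)) * (G u v / √(m u)) := by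
        unfold cor
        refine sum_congr rfl fun u _ => sum_congr rfl fun v _ => ?_
        rcases (hm0 u).eq_or_lt with h | h
        · rw [hmz u v h.symm]; simp
        · have h5 : √(m u) ≠ 0 := (Real.sqrt_pos.2 h).ne'
          field_simp
      rw [h4, ← sum_product', ← sum_product', ← sum_product']
      exact sum_mul_sq_le_sq_mul_sq _ _ _
    have h3' : ∑ u ∈ A, ∑ v ∈ A, (G u v / √(m u)) ^ 2 = ∑ u ∈ A, ∑ v ∈ A, G u v ^ 2 / m u := by
      refine sum_congr rfl fun u _ => sum_congr rfl fun v _ => ?_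
      rw [div_pow, Real.sq_sqrt (hm0 u)]
    rw [h3'] at h3
    have h4 : 0 ≤ trA A G * (1 - b) ^ (2 * T) / 8 := by
      have : 0 < 1 - b := by linarith
      positivity
    have h5 := pow_le_pow_left₀ h4 h2 2
    have h6 : (trA A G * (1 - b) ^ (2 * T) / 8) ^ 2 = trA A G ^ 2 * (1 - b) ^ (4 * T) / 64 := by
      rw [div_pow, mul_pow, ← pow_mul, show 2 * T * 2 = 4 * T by ring,
        show (8 : ℝ) ^ 2 = 64 by norm_num]
    rw [h6] at h5
    refine h5.trans (h3.trans ?_)
    exact mul_le_mul_of_nonneg_right hfr hY0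

/-- the variance of a difference -/
theorem diff_sq {L : (Finset V → ℝ) →ₗ[ℝ] ℝ} (hL : IsSheraliAdams 2 L) (u v : V) :
    (mu L u - mu L v) ^ 2 ≤ mu L u + mu L v - 2 * mm L u v := by
  have h := cv_psd hL le_rfl ![u, v] ![1, -1]
  simp only [Fin.sum_univ_two, Matrix.cons_val_zero, Matrix.cons_val_one] at h
  rw [cv_symm L v u, cv_self, cv_self] at h
  unfold cv at h
  linarith

/-- **rounding** by a level set -/
theorem rounding2 (P : V → V → ℝ) (hP : ∀ u v, 0 ≤ P u v) (hsym : ∀ u v, P u v = P v u)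
    (hrow : ∀ u, ∑ v, P u v = 1) {L : (Finset V → ℝ) →ₗ[ℝ] ℝ} (hL : IsSheraliAdams 2 L)
    (s : ℝ) (hs0 : 0 < s) (hmu : ∑ u, mu L u = s) (B : Finset V) (ε : ℝ) (hε : 0 < ε)
    (hε1 : ε ≤ 1 / 100) (hB : (B.card : ℝ) ≤ ε * s) (hΓ : trA Bᶜ (cv L) < s / 16)
    (he : L (bd P) ≤ 2 * ε * s) :
    ∃ S : Finset V, s / 2 ≤ S.card ∧ (S.card : ℝ) ≤ 2 * s ∧ (1 - 17 * √ε) * S.card ≤ ins P S := by
  by_contra hcon
  push Not at hcon
  set c := √ε with hc
  have hc0 : 0 < c := Real.sqrt_pos.2 hε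
  have hc2 : c ^ 2 = ε := Real.sq_sqrt hε.le
  set g : V → ℝ := fun u => max (min (mu L u) (3 / 4) - 1 / 2) 0 with hg
  have hg0 : ∀ u, 0 ≤ g u := fun u => le_max_right _ _
  have hg4 : ∀ u, g u ≤ 1 / 4 := by
    intro u
    refine max_le ?_ (by norm_num)
    linarith [min_le_right (mu L u) (3 / 4)]
  have hgbig : ∀ u, 3 / 4 < mu L u → g u = 1 / 4 := by
    intro u hu
    simp only [hg]
    rw [min_eq_right hu.le, max_eq_left (by norm_num)]
    norm_num
  have hgpos : ∀ u, 0 < g u → 1 / 2 < mu L u := by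
    intro u hu
    simp only [hg] at hu
    rcases lt_max_iff.1 hu with h | h
    · have := min_le_left (mu L u) (3 / 4)
      linarith
    · exact absurd h (lt_irrefl _)
  -- large values
  set R := univ.filter fun u => 3 / 4 < mu L u with hR
  have hRcard : s / 2 ≤ R.card := by
    have h1 : ∑ u ∈ Bᶜ, mu L u ≤ R.card + 4 * trA Bᶜ (cv L) := by
      have h2 : ∀ u ∈ Bᶜ, mu L u ≤ (if 3 / 4 < mu L u then 1 else 0) + 4 * cv L u u := by
        intro u _
        rw [cv_self]
        have h3 := mu_nonneg hL u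
        have h4 := mu_le_one hL u
        split_ifs with h
        · nlinarith
        · nlinarith [not_lt.1 h]
      refine (sum_le_sum h2).trans ?_
      rw [sum_add_distrib, ← mul_sum]
      refine add_le_add ?_ le_rfl
      calc ∑ u ∈ Bᶜ, (if 3 / 4 < mu L u then (1 : ℝ) else 0)
          ≤ ∑ u, (if 3 / 4 < mu L u then (1 : ℝ) else 0) :=
            sum_le_sum_of_subset_of_nonneg (subset_univ _) fun u _ _ => by split_ifs <;> norm_num
        _ = R.card := by rw [sum_boole]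
    have h2 := sum_add_sum_compl B (fun u => mu L u)
    have h3 : ∑ u ∈ B, mu L u ≤ B.card := by
      have : ∑ u ∈ B, mu L u ≤ ∑ u ∈ B, (1 : ℝ) := sum_le_sum fun u _ => mu_le_one hL u
      simpa using this
    rw [hmu] at h2
    nlinarith
  -- level sets
  have hlev : ∀ t : ℝ, 0 ≤ t → ins P (univ.filter fun u => t < g u) ≤
      (1 - 17 * c) * (univ.filter fun u => t < g u).card := by
    intro t ht
    rcases lt_or_ge t (1 / 4) with h | h
    · have h1 : s / 2 ≤ (univ.filter fun u => t < g u).card := by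
        refine hRcard.trans (Nat.cast_le.2 (card_le_card ?_))
        intro u hu
        rw [hR, mem_filter] at hu
        rw [mem_filter]
        refine ⟨mem_univ u, ?_⟩
        rw [hgbig u hu.2]; exact h
      have h2 : ((univ.filter fun u => t < g u).card : ℝ) ≤ 2 * s := by
        rw [← hmu, mul_sum]
        have h3 : ((univ.filter fun u => t < g u).card : ℝ) =
            ∑ u, (if t < g u then (1 : ℝ) else 0) := by rw [sum_boole]
        rw [h3]
        refine sum_le_sum fun u _ => ?_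
        have h4 := mu_nonneg hL u
        split_ifs with h5
        · have := hgpos u (lt_of_le_of_lt ht h5)
          linarith
        · linarith
      exact (hcon _ h1 h2).le
    · have h1 : (univ.filter fun u => t < g u) = ∅ := by
        rw [filter_eq_empty_iff]
        intro u _
        exact not_lt.2 ((hg4 u).trans h)
      rw [h1]; simp [ins]
  have hlay := layer P (1 - 17 * c) _ g hg0 rfl hlev
  -- total variation
  have htv : ∑ u, g u - ∑ u, ∑ v, P u v * min (g u) (g v) =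
      ∑ u, ∑ v, P u v * |g u - g v| / 2 := by
    have h1 : ∑ u, g u = ∑ u, ∑ v, P u v * ((g u + g v) / 2) := by
      have h2 : ∑ u, ∑ v, P u v * ((g u + g v) / 2) =
          (∑ u, ∑ v, P u v * g u) / 2 + (∑ u, ∑ v, P u v * g v) / 2 := by
        rw [← add_div, ← sum_add_distrib, sum_div]
        refine sum_congr rfl fun u _ => ?_
        rw [← sum_add_distrib, sum_div]
        exact sum_congr rfl fun v _ => by ring
      have h3 : ∑ u, ∑ v, P u v * g u = ∑ u, g u := by
        refine sum_congr rfl fun u _ => ?_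
        rw [← sum_mul, hrow u, one_mul]
      have h4 : ∑ u, ∑ v, P u v * g v = ∑ u, g u := by
        rw [sum_comm, ← h3]
        exact sum_congr rfl fun u _ => sum_congr rfl fun v _ => by rw [hsym]
      rw [h2, h3, h4]; ring
    rw [h1, ← sum_sub_distrib]
    refine sum_congr rfl fun u _ => ?_
    rw [← sum_sub_distrib]
    refine sum_congr rfl fun v _ => ?_
    rcases le_total (g u) (g v) with h | h
    · rw [min_eq_left h, abs_of_nonpos (by linarith)]; ring
    · rw [min_eq_right h, abs_of_nonneg (by linarith)]; ring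
  have hlip : ∀ u v, |g u - g v| ≤ |mu L u - mu L v| := by
    intro u v
    simp only [hg]
    refine (abs_max_sub_max_le_abs _ _ _).trans ?_
    have h1 : min (mu L u) (3 / 4) - 1 / 2 - (min (mu L v) (3 / 4) - 1 / 2) =
        min (mu L u) (3 / 4) - min (mu L v) (3 / 4) := by ring
    rw [h1]
    exact abs_min_sub_min_le_max _ _ _ _ |>.trans (by simp)
  have hpt : ∀ u v, P u v * |g u - g v| / 2 ≤ P u v * (mu L u - mu L v) ^ 2 / (4 * c) +
      (c / 4) * (P u v * (if 0 < g u then 1 else 0)) + (c / 4) * (P u v * (if 0 < g v then 1 else 0)) := by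
    intro u v
    have h1 : |g u - g v| / 2 ≤ (mu L u - mu L v) ^ 2 / (4 * c) +
        (c / 4) * (if 0 < g u then 1 else 0) + (c / 4) * (if 0 < g v then 1 else 0) := by
      by_cases h : 0 < g u ∨ 0 < g v
      · have h2 : |g u - g v| / 2 ≤ (mu L u - mu L v) ^ 2 / (4 * c) + c / 4 := by
          have h3 := hlip u v
          have h4 : |mu L u - mu L v| / 2 ≤ (mu L u - mu L v) ^ 2 / (4 * c) + c / 4 := by
            rw [← sub_nonneg]
            have h5 : (mu L u - mu L v) ^ 2 / (4 * c) + c / 4 - |mu L u - mu L v| / 2 =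
                (|mu L u - mu L v| - c) ^ 2 / (4 * c) := by
              rw [← sq_abs (mu L u - mu L v)]
              field_simp
              ring
            rw [h5]; positivity
          linarith
        have h6 : c / 4 ≤ (c / 4) * (if 0 < g u then 1 else 0) +
            (c / 4) * (if 0 < g v then 1 else 0) := by
          have h7 : (0 : ℝ) ≤ (c / 4) * (if 0 < g u then 1 else 0) := by
            split_ifs <;> positivity
          have h8 : (0 : ℝ) ≤ (c / 4) * (if 0 < g v then 1 else 0) := by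
            split_ifs <;> positivity
          rcases h with h | h
          · rw [if_pos h] at h7 ⊢; linarith
          · rw [if_pos h] at h8 ⊢; linarith
        linarith
      · push Not at h
        have h2 : g u = 0 := le_antisymm h.1 (hg0 u)
        have h3 : g v = 0 := le_antisymm h.2 (hg0 v)
        rw [h2, h3]
        simp only [lt_irrefl, if_false, mul_zero, add_zero, sub_self, abs_zero, zero_div]
        positivity
    have h2 := mul_le_mul_of_nonneg_left h1 (hP u v)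
    calc P u v * |g u - g v| / 2 = P u v * (|g u - g v| / 2) := by ring
      _ ≤ _ := h2
      _ = _ := by ring
  have hsum : ∑ u, ∑ v, P u v * |g u - g v| / 2 ≤ 2 * c * s := by
    have h1 : ∑ u, ∑ v, P u v * |g u - g v| / 2 ≤
        (∑ u, ∑ v, P u v * (mu L u - mu L v) ^ 2) / (4 * c) +
        (c / 4) * (∑ u, ∑ v, P u v * (if 0 < g u then 1 else 0)) +
        (c / 4) * (∑ u, ∑ v, P u v * (if 0 < g v then 1 else 0)) := by
      refine (sum_le_sum fun u _ => sum_le_sum fun v _ => hpt u v).trans (le_of_eq ?_)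
      rw [mul_sum, mul_sum, sum_div, ← sum_add_distrib, ← sum_add_distrib]
      refine sum_congr rfl fun u _ => ?_
      rw [mul_sum, mul_sum, sum_div, ← sum_add_distrib, ← sum_add_distrib]
    have h2 : ∑ u, ∑ v, P u v * (mu L u - mu L v) ^ 2 ≤ 2 * (2 * ε * s) := by
      have h3 : ∑ u, ∑ v, P u v * (mu L u - mu L v) ^ 2 ≤
          ∑ u, ∑ v, P u v * (mu L u + mu L v - 2 * mm L u v) :=
        sum_le_sum fun u _ => sum_le_sum fun v _ =>
          mul_le_mul_of_nonneg_left (diff_sq hL u v) (hP u v)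
      have h4 : ∑ u, ∑ v, P u v * (mu L u + mu L v - 2 * mm L u v) = 2 * L (bd P) := by
        rw [bd_val P hL]
        have h7 : ∑ u, ∑ v, P u v * (mu L u + mu L v - 2 * mm L u v) =
            (∑ u, ∑ v, P u v * (mu L u - mm L u v)) + ∑ u, ∑ v, P u v * (mu L v - mm L u v) := by
          simp only [← sum_add_distrib]
          exact sum_congr rfl fun u _ => sum_congr rfl fun v _ => by ring
        have h8 : ∑ u, ∑ v, P u v * (mu L v - mm L u v) =
            ∑ u, ∑ v, P u v * (mu L u - mm L u v) := by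
          rw [sum_comm]
          exact sum_congr rfl fun u _ => sum_congr rfl fun v _ => by rw [hsym, mm_symm]
        rw [h7, h8]; ring
      rw [h4] at h3
      linarith
    have hcnt : ∑ u, (if 0 < g u then (1 : ℝ) else 0) ≤ 2 * s := by
      rw [← hmu, mul_sum]
      refine sum_le_sum fun u _ => ?_
      have h4 := mu_nonneg hL u
      split_ifs with h5
      · linarith [hgpos u h5]
      · linarith
    have h3 : ∑ u, ∑ v, P u v * (if 0 < g u then (1 : ℝ) else 0) ≤ 2 * s := by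
      refine le_trans (le_of_eq ?_) hcnt
      refine sum_congr rfl fun u _ => ?_
      rw [← sum_mul, hrow u, one_mul]
    have h4 : ∑ u, ∑ v, P u v * (if 0 < g v then (1 : ℝ) else 0) ≤ 2 * s := by
      refine le_trans (le_of_eq ?_) h3
      rw [sum_comm]
      exact sum_congr rfl fun u _ => sum_congr rfl fun v _ => by rw [hsym]
    have h5 : (∑ u, ∑ v, P u v * (mu L u - mu L v) ^ 2) / (4 * c) ≤ c * s := by
      rw [div_le_iff₀ (by positivity)]
      calc _ ≤ 2 * (2 * ε * s) := h2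
        _ = c * s * (4 * c) := by rw [← hc2]; ring
    have h6 := mul_le_mul_of_nonneg_left h3 (by positivity : 0 ≤ c / 4)
    have h7 := mul_le_mul_of_nonneg_left h4 (by positivity : 0 ≤ c / 4)
    linarith
  have hgs : s / 8 ≤ ∑ u, g u := by
    calc s / 8 ≤ R.card * (1 / 4) := by linarith
      _ = ∑ u ∈ R, (1 / 4 : ℝ) := by rw [sum_const, nsmul_eq_mul]
      _ ≤ ∑ u ∈ R, g u := by
          refine sum_le_sum fun u hu => ?_
          rw [hR, mem_filter] at hu
          rw [hgbig u hu.2]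
      _ ≤ ∑ u, g u := sum_le_sum_of_subset_of_nonneg (subset_univ _) fun u _ _ => hg0 u
  rw [← htv] at hsum
  have h1 : 17 * c * (s / 8) ≤ 17 * c * ∑ u, g u := mul_le_mul_of_nonneg_left hgs (by positivity)
  nlinarith [mul_pos hc0 hs0]

set_option maxHeartbeats 2000000 in
/-- **the dichotomy** for sets of small expansion -/
theorem dicho2 (P : V → V → ℝ) (hP : ∀ u v, 0 ≤ P u v) (hsym : ∀ u v, P u v = P v u)
    (hrow : ∀ u, ∑ v, P u v = 1) (s : ℕ) (hs1 : 1 ≤ s)
    (ε φ : ℝ) (hε : 0 < ε) (hε1 : ε ≤ 1 / 100) (hφ : 0 < φ) (hφ1 : φ ≤ 1) (hφε : 17 * √ε ≤ φ)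
    (T : ℕ) (hT : 1 ≤ T) (hTs : (1 - φ ^ 2 / 4) ^ (2 * T) * s ≤ 1)
    (M : ℕ) (hM : 3 ≤ M) (hMT : 32 * (T : ℝ) ^ 2 ≤ (M - 1) * (1 - 18 * ε) ^ (2 * T))
    (j : ℕ) (hj : 196608 / (φ ^ 2 * (1 - 18 * ε) ^ (4 * T)) < (j : ℝ) + 1)
    (L : (Finset V → ℝ) →ₗ[ℝ] ℝ) (hL : IsSheraliAdams (M + j) L) (hLs : HasSize (M + j) s L)
    (he : L (bd P) ≤ ε * s) :
    ∃ S : Finset V, ε * s ≤ S.card ∧ (S.card : ℝ) ≤ 2 * s ∧ (1 - φ) * S.card ≤ ins P S := by
  have hs0 : (0 : ℝ) < s := by exact_mod_cast hs1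
  have hb : 0 < 1 - 18 * ε := by linarith
  set D := (1 - 18 * ε) ^ (4 * T) with hD
  have hD0 : 0 < D := pow_pos hb _
  have hD1 : D ≤ 1 := pow_le_one₀ hb.le (by linarith)
  have hφ2 : 0 < φ ^ 2 := by positivity
  have hφ21 : φ ^ 2 ≤ 1 := pow_le_one₀ hφ.le hφ1
  obtain ⟨B, hBs, hBi, hBmax⟩ := greedy P hP (1 - φ) s
  rcases le_or_gt (ε * s) B.card with hcase | hcase
  · exact ⟨B, hcase, by
      have : (B.card : ℝ) ≤ s := by exact_mod_cast hBs
      linarith, hBi⟩
  · -- small sets outside B lose mass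
    have hA : ∀ S : Finset V, S ⊆ Bᶜ → S.Nonempty → (S.card : ℝ) ≤ 7 * s / 8 →
        ins P S ≤ (1 - φ) * S.card := by
      intro S hS hne hcS
      have h1 : B.card + S.card ≤ s := by
        have h2 : (B.card : ℝ) + S.card ≤ s := by nlinarith
        exact_mod_cast h2
      exact hBmax S (disjoint_left.2 fun x hxB hxS => by
        have := hS hxS
        rw [mem_compl] at this
        exact this hxB) hne h1
    have hstep : ∀ L : (Finset V → ℝ) →ₗ[ℝ] ℝ, IsSheraliAdams M L → HasSize M s L →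
        (s : ℝ) / 16 ≤ trA Bᶜ (cv L) → L (bd P) ≤ 2 * ε * s →
        D * φ ^ 2 * s / 98304 * s ≤ ∑ u, ∑ v ∈ Bᶜ, cv L u v ^ 2 / mu L u := by
      intro L hL hLs h1 h2
      have hL2 : IsSheraliAdams 2 L := sa_mono (by omega) hL
      have htr := trA_nonneg hL2 Bᶜ
      have hen := energy P hP hsym hrow hL2 B
      have h3 : (1 - 36 * ε) * trA Bᶜ (cv L) ≤ ∑ u ∈ Bᶜ, ∑ v ∈ Bᶜ, P u v * cv L u v := by
        refine le_trans ?_ hen
        have h4 : 36 * ε * (s / 16) ≤ 36 * ε * trA Bᶜ (cv L) :=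
          mul_le_mul_of_nonneg_left h1 (by linarith)
        nlinarith
      have h3' : (1 - 18 * ε) * trA Bᶜ (cv L) ≤ ∑ u ∈ Bᶜ, ∑ v ∈ Bᶜ, lz P u v * cv L u v := by
        have h4 : ∑ u ∈ Bᶜ, ∑ v ∈ Bᶜ, lz P u v * cv L u v =
            trA Bᶜ (cv L) / 2 + (∑ u ∈ Bᶜ, ∑ v ∈ Bᶜ, P u v * cv L u v) / 2 := by
          unfold trA lz
          rw [sum_div, sum_div, ← sum_add_distrib]
          refine sum_congr rfl fun u hu => ?_
          rw [sum_div]
          have h5 : ∀ v, ((if u = v then (1 / 2 : ℝ) else 0) + P u v / 2) * cv L u v =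
              (if u = v then cv L u v / 2 else 0) + P u v * cv L u v / 2 := by
            intro v
            split_ifs <;> ring
          rw [sum_congr rfl fun v _ => h5 v, sum_add_distrib]
          congr 1
          rw [sum_ite_eq]
          rw [if_pos hu]
        rw [h4]
        linarith
      have hdec : ∀ u ∈ Bᶜ, rsq (lz P) Bᶜ (2 * T) u ≤ 6 / (φ ^ 2 * s) := by
        intro u hu
        have h5 := lz_decay P hP hsym (fun u => (hrow u).le) Bᶜ (7 * s / 8) φ hφ hφ1
          (by linarith) hA (2 * T) u hu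
        have h6 : (1 - φ ^ 2 / 4) ^ (2 * T) ≤ 1 / s := by
          rw [le_div_iff₀ hs0]; exact hTs
        have h7 : 4 / (φ ^ 2 * (7 * (s : ℝ) / 8)) = 32 / 7 / (φ ^ 2 * s) := by
          field_simp
          norm_num
        have h8 : 1 / (s : ℝ) ≤ 1 / (φ ^ 2 * s) := by
          apply one_div_le_one_div_of_le (by positivity)
          nlinarith
        have h9 : 1 / (φ ^ 2 * (s : ℝ)) + 32 / 7 / (φ ^ 2 * s) = 39 / 7 / (φ ^ 2 * s) := by ring
        have h10 : 39 / 7 / (φ ^ 2 * (s : ℝ)) ≤ 6 / (φ ^ 2 * s) :=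
          div_le_div_of_nonneg_right (by norm_num) (by positivity)
        rw [h7] at h5
        linarith
      have hg := globr (lz P) (lz_nonneg P hP) (lz_symm P hsym) (lz_row P fun u => (hrow u).le)
        Bᶜ (cv L) M (by omega) (cv_psd hL le_rfl)
        (fun u => cv_self_nonneg hL2 u) (fun u v => cv_symm L u v) (18 * ε) (by linarith)
        (by linarith) h3' T hT hMT (mu L) (mu_nonneg hL2) (fun u v h => cv_zero hL2 u v (by
          rw [cv_self, h, zero_mul])) (6 / (φ ^ 2 * s)) (by positivity) hdec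
      set Y := ∑ u ∈ Bᶜ, ∑ v ∈ Bᶜ, cv L u v ^ 2 / mu L u with hY
      have hY0 : 0 ≤ Y :=
        sum_nonneg fun u _ => sum_nonneg fun v _ => div_nonneg (sq_nonneg _) (mu_nonneg hL2 u)
      have h6 : ∑ u ∈ Bᶜ, mu L u ≤ s := by
        rw [← sum_mu (k := M) (by omega) hL.one hLs]
        exact sum_le_sum_of_subset_of_nonneg (subset_univ _) fun u _ _ => mu_nonneg hL2 u
      have h8 : ((∑ u ∈ Bᶜ, mu L u) * (6 / (φ ^ 2 * s))) * Y ≤ s * (6 / (φ ^ 2 * s)) * Y := by
        refine mul_le_mul_of_nonneg_right ?_ hY0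
        exact mul_le_mul_of_nonneg_right h6 (by positivity)
      have h9 : trA Bᶜ (cv L) ^ 2 * D / 64 ≤ s * (6 / (φ ^ 2 * s)) * Y := hg.trans h8
      have h10 : (s / 16 : ℝ) ^ 2 ≤ trA Bᶜ (cv L) ^ 2 := pow_le_pow_left₀ (by positivity) h1 2
      have h11 : s * (6 / (φ ^ 2 * s)) * Y = 6 * Y / φ ^ 2 := by
        field_simp
      rw [h11, div_le_div_iff₀ (by norm_num) hφ2] at h9
      have h12 := mul_le_mul_of_nonneg_right h10 (mul_nonneg hD0.le hφ2.le)
      have h13 : Y ≤ ∑ u, ∑ v ∈ Bᶜ, cv L u v ^ 2 / mu L u :=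
        sum_le_sum_of_subset_of_nonneg (subset_univ _) fun u _ _ =>
          sum_nonneg fun v _ => div_nonneg (sq_nonneg _) (mu_nonneg hL2 u)
      nlinarith
    have hκ : 0 < D * φ ^ 2 * (s : ℝ) / 98304 := by positivity
    have hκc : D * φ ^ 2 * (s : ℝ) / 98304 ≤ s / 16 := by
      have : D * φ ^ 2 ≤ 1 := by nlinarith
      have h2 := mul_le_mul_of_nonneg_right this hs0.le
      linarith
    have hE : 0 < 2 * ε * (s : ℝ) := by positivity
    have hL2 : IsSheraliAdams 2 L := sa_mono (by omega) hL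
    have hmu : ∑ u, mu L u = s := sum_mu (k := M + j) (by omega) hL.one hLs
    have hstart : trA Bᶜ (cv L) / (D * φ ^ 2 * (s : ℝ) / 98304) +
        (j + 1) * (L (bd P) / (2 * ε * s)) < j + 1 := by
      have h1 : trA Bᶜ (cv L) ≤ s := (trA_le hL2 Bᶜ).trans hmu.le
      have h2 : L (bd P) / (2 * ε * s) ≤ 1 / 2 := by
        rw [div_le_iff₀ hE]
        linarith
      have h3 : trA Bᶜ (cv L) / (D * φ ^ 2 * (s : ℝ) / 98304) ≤
          s / (D * φ ^ 2 * (s : ℝ) / 98304) := div_le_div_of_nonneg_right h1 hκ.le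
      have h4 : s / (D * φ ^ 2 * (s : ℝ) / 98304) = (196608 / (φ ^ 2 * D)) / 2 := by
        field_simp
        norm_num
      rw [h4] at h3
      have h5 : (0 : ℝ) ≤ j := Nat.cast_nonneg j
      nlinarith
    obtain ⟨L', hL', hLs', htr', he'⟩ := wdescend P hP Bᶜ s (D * φ ^ 2 * (s : ℝ) / 98304)
      (2 * ε * s) (s / 16) M hM hs0 hκ hκc hE hstep j L hL hLs hstart
    have hL2' : IsSheraliAdams 2 L' := sa_mono (by omega) hL'
    have hmu' : ∑ u, mu L' u = s := sum_mu (k := M) (by omega) hL'.one hLs'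
    obtain ⟨S, h1, h2, h3⟩ := rounding2 P hP hsym hrow hL2' s hs0 hmu' B ε hε hε1 hcase.le
      htr' he'
    refine ⟨S, by nlinarith, h2, le_trans ?_ h3⟩
    exact mul_le_mul_of_nonneg_right (by linarith) (Nat.cast_nonneg _)

end

end Run7.h881.SE
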