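import Mathlib

/-!
The choice of the parameters.
-/

set_option autoImplicit false

namespace Run7.h881.SE

theorem exp3 : Real.exp 3 ≤ 21 := by
  have h : Real.exp 3 = Real.exp 1 ^ 3 := by
    rw [← Real.exp_nat_mul]; norm_num
  rw [h]
  have h1 := Real.exp_one_lt_d9
  have h2 : (0 : ℝ) ≤ Real.exp 1 := (Real.exp_pos 1).le
  calc Real.exp 1 ^ 3 ≤ (2.7182818286 : ℝ) ^ 3 := pow_le_pow_left₀ h2 h1.le 3
    _ ≤ 21 := by norm_num

theorem one_le_exp (ε : ℝ) (h0 : 0 ≤ ε) (h1 : ε ≤ 1 / 100) :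
    1 ≤ (1 - 36 * ε) * Real.exp (60 * ε) := by
  have h2 := Real.quadratic_le_exp_of_nonneg (by linarith : (0 : ℝ) ≤ 60 * ε)
  have h3 : 0 ≤ 1 - 36 * ε := by linarith
  have h4 := mul_le_mul_of_nonneg_left h2 h3
  refine le_trans ?_ h4
  nlinarith [mul_nonneg h0 h0, mul_nonneg h0 (by linarith : 0 ≤ 1 / 100 - ε),
    mul_nonneg (mul_nonneg h0 h0) (by linarith : 0 ≤ 1 / 100 - ε)]

theorem inv_pow_le (ε : ℝ) (h0 : 0 ≤ ε) (h1 : ε ≤ 1 / 100) (m : ℕ) :
    1 ≤ (1 - 36 * ε) ^ m * Real.exp (60 * ε * m) := by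
  have h2 := one_le_exp ε h0 h1
  have h3 : Real.exp (60 * ε * m) = Real.exp (60 * ε) ^ m := by
    rw [← Real.exp_nat_mul]; ring_nf
  rw [h3, ← mul_pow]
  exact one_le_pow₀ h2

set_option maxHeartbeats 1000000 in
/-- the choice of the parameters -/
theorem choice (s : ℕ) (hs : 1 ≤ s) (ε q : ℝ) (hε : 0 < ε) (hε1 : ε ≤ 1 / 100) (hq : 0 < q)
    (hq1 : q ≤ 1 / 2) (C : ℝ) (hC : 20000000 ≤ C) (k : ℕ)
    (hk : C * Real.log (2 * s) ^ 2 * (s : ℝ) ^ (C * ε / Real.log (1 / q)) ≤ k) :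
    ∃ T M j : ℕ, 1 ≤ T ∧ q ^ (2 * T) * s ≤ 1 ∧ 3 ≤ M ∧
      32 * (T : ℝ) ^ 2 ≤ (M - 1) * (1 - 36 * ε) ^ (2 * T) ∧
      332800 / (1 - 36 * ε) ^ (4 * T) < (j : ℝ) + 1 ∧ M + j ≤ k := by
  have hs0 : (0 : ℝ) < s := by exact_mod_cast hs
  have hs1 : (1 : ℝ) ≤ s := by exact_mod_cast hs
  have hb : 0 < 1 - 36 * ε := by linarith
  have hl2 := Real.log_two_gt_d9
  have hl2' := Real.log_two_lt_d9
  set l := Real.log (1 / q) with hl
  have hlq : Real.log 2 ≤ l := by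
    rw [hl]
    refine Real.log_le_log (by norm_num) ?_
    rw [le_div_iff₀ hq]; linarith
  have hl0 : 0 < l := by linarith
  set a := Real.log s with ha
  have ha0 : 0 ≤ a := Real.log_nonneg hs1
  have hΛ : Real.log (2 * s) = Real.log 2 + a := by
    rw [Real.log_mul (by norm_num) hs0.ne']
  set Λ := Real.log (2 * s) with hΛdef
  have hΛ2 : Real.log 2 ≤ Λ := by rw [hΛ]; linarith
  set T := ⌊a / (2 * l)⌋₊ + 1 with hT
  have hT1 : a / (2 * l) < T := by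
    rw [hT]; push_cast; exact Nat.lt_floor_add_one _
  have hT2 : (T : ℝ) ≤ a / (2 * l) + 1 := by
    rw [hT]; push_cast
    have := Nat.floor_le (div_nonneg ha0 (by linarith : 0 ≤ 2 * l))
    linarith
  set X := Real.exp (120 * ε * a / l) with hX
  have hX1 : 1 ≤ X := Real.one_le_exp (by positivity)
  have hX0 : 0 < X := by linarith
  have hsX : X ≤ (s : ℝ) ^ (C * ε / l) := by
    rw [Real.rpow_def_of_pos hs0, hX, ← ha]
    refine Real.exp_le_exp.2 ?_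
    rw [div_eq_mul_inv, div_eq_mul_inv]
    have h1 : 0 ≤ ε * a * l⁻¹ := by positivity
    nlinarith
  -- powers
  have hp4 : (1 - 36 * ε) ^ (4 * T) * (21 * X) ≥ 1 := by
    have h1 := inv_pow_le ε hε.le hε1 (4 * T)
    have h2 : Real.exp (60 * ε * ((4 * T : ℕ) : ℝ)) ≤ 21 * X := by
      have h3 : 60 * ε * ((4 * T : ℕ) : ℝ) ≤ 3 + 120 * ε * a / l := by
        push_cast
        have h4 : 240 * ε * T ≤ 240 * ε * (a / (2 * l) + 1) :=
          mul_le_mul_of_nonneg_left hT2 (by linarith)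
        have h5 : 240 * ε * (a / (2 * l) + 1) = 120 * ε * a / l + 240 * ε := by
          field_simp
          ring
        nlinarith
      calc Real.exp (60 * ε * ((4 * T : ℕ) : ℝ)) ≤ Real.exp (3 + 120 * ε * a / l) :=
            Real.exp_le_exp.2 h3
        _ = Real.exp 3 * X := by rw [Real.exp_add]
        _ ≤ 21 * X := mul_le_mul_of_nonneg_right exp3 hX0.le
    have h3 : 0 ≤ (1 - 36 * ε) ^ (4 * T) := pow_nonneg hb.le _
    exact h1.trans (mul_le_mul_of_nonneg_left h2 h3)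
  have hp2 : (1 - 36 * ε) ^ (2 * T) * (21 * X) ≥ 1 := by
    have h1 : (1 - 36 * ε) ^ (4 * T) ≤ (1 - 36 * ε) ^ (2 * T) :=
      pow_le_pow_of_le_one hb.le (by linarith) (by omega)
    exact le_trans hp4 (mul_le_mul_of_nonneg_right h1 (by positivity))
  refine ⟨T, ⌈1400 * Λ ^ 2 * X⌉₊ + 2, ⌈6988800 * X⌉₊, by omega, ?_, ?_, ?_, ?_, ?_⟩
  · -- q ^ (2 T) s ≤ 1
    have h1 : q = Real.exp (-l) := by
      rw [hl, Real.log_div one_ne_zero hq.ne', Real.log_one, zero_sub, neg_neg, Real.exp_log hq]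
    have h2 : q ^ (2 * T) = Real.exp (-(2 * T * l)) := by
      rw [h1, ← Real.exp_nat_mul]
      congr 1
      push_cast; ring
    have h3 : (s : ℝ) = Real.exp a := by rw [ha, Real.exp_log hs0]
    rw [h2, h3, ← Real.exp_add]
    refine Real.exp_le_one_iff.2 ?_
    rw [div_lt_iff₀ (by linarith)] at hT1
    linarith
  · have h1 : 0 < ⌈1400 * Λ ^ 2 * X⌉₊ := by
      rw [Nat.ceil_pos]
      have : 0 < Λ := by linarith
      positivity
    omega
  · -- sampling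
    have h1 : (T : ℝ) ≤ Λ / Real.log 2 := by
      refine hT2.trans ?_
      rw [le_div_iff₀ (by linarith), hΛ]
      have h2 : a / (2 * l) * Real.log 2 ≤ a / 2 := by
        rw [div_mul_eq_mul_div, div_le_div_iff₀ (by linarith) (by norm_num)]
        nlinarith
      linarith
    have h2 : (T : ℝ) ^ 2 ≤ (Λ / Real.log 2) ^ 2 := pow_le_pow_left₀ (Nat.cast_nonneg _) h1 2
    have h3 : (Λ / Real.log 2) ^ 2 ≤ 2.0825 * Λ ^ 2 := by
      rw [div_pow, div_le_iff₀ (by positivity)]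
      have h4 : 1 ≤ 2.0825 * Real.log 2 ^ 2 := by nlinarith
      nlinarith [sq_nonneg Λ]
    have h4 : 1400 * Λ ^ 2 * X ≤ ((⌈1400 * Λ ^ 2 * X⌉₊ + 2 : ℕ) : ℝ) - 1 := by
      push_cast
      have := Nat.le_ceil (1400 * Λ ^ 2 * X)
      linarith
    have h5 : 0 ≤ (1 - 36 * ε) ^ (2 * T) := pow_nonneg hb.le _
    have h6 := mul_le_mul_of_nonneg_right h4 h5
    refine le_trans ?_ h6
    have h7 : 1400 * Λ ^ 2 * X * (1 - 36 * ε) ^ (2 * T) =
        1400 / 21 * Λ ^ 2 * ((1 - 36 * ε) ^ (2 * T) * (21 * X)) := by ring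
    rw [h7]
    have h8 : 0 ≤ 1400 / 21 * Λ ^ 2 := by positivity
    have h9 := mul_le_mul_of_nonneg_left hp2 h8
    nlinarith [sq_nonneg Λ]
  · have h1 : 332800 / (1 - 36 * ε) ^ (4 * T) ≤ 6988800 * X := by
      rw [div_le_iff₀ (pow_pos hb _)]
      nlinarith
    have h2 := Nat.le_ceil (6988800 * X)
    linarith
  · have h0 : (0 : ℝ) ≤ 1400 * Λ ^ 2 * X := by positivity
    have h1 := (Nat.ceil_lt_add_one h0).le
    have h2 := (Nat.ceil_lt_add_one (by positivity : (0 : ℝ) ≤ 6988800 * X)).le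
    have h3 : ((⌈1400 * Λ ^ 2 * X⌉₊ + 2 + ⌈6988800 * X⌉₊ : ℕ) : ℝ) ≤ k := by
      refine le_trans ?_ hk
      push_cast
      have h4 : 0.48 ≤ Λ ^ 2 := by nlinarith
      have h5 : 1400 * Λ ^ 2 * X + 1 + 2 + (6988800 * X + 1) ≤ 20000000 * Λ ^ 2 * X := by
        have h6 : 0.48 * X ≤ Λ ^ 2 * X := mul_le_mul_of_nonneg_right h4 hX0.le
        nlinarith
      have h7 : 20000000 * Λ ^ 2 * X ≤ C * Λ ^ 2 * (s : ℝ) ^ (C * ε / l) := by
        refine mul_le_mul ?_ hsX hX0.le ?_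
        · exact mul_le_mul_of_nonneg_right hC (sq_nonneg _)
        · have : 0 ≤ C := by linarith
          positivity
      linarith
    exact_mod_cast h3

end Run7.h881.SE
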