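import Pool.Agent.Run7.h881.SE.Rnd
import Pool.Agent.Run7.h881.SE.Num

/-!
Translation to regular graphs.
-/

set_option autoImplicit false
set_option linter.unusedSectionVars false

namespace Run7.h881.SE

open Finset Run7.h881.SA

section
variable {V : Type} [Fintype V] [DecidableEq V] (G : SimpleGraph V) [DecidableRel G.Adj] (d : ℕ)

/-- ordered pairs of adjacent vertices leaving `S` -/
def bdr (S : Finset V) : ℕ :=
  (univ.filter fun e : V × V => e.1 ∈ S ∧ e.2 ∉ S ∧ G.Adj e.1 e.2).card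

/-- transition probabilities of the random walk -/
noncomputable def wk (u v : V) : ℝ := if G.Adj u v then 1 / (d : ℝ) else 0

theorem wk_nonneg (u v : V) : 0 ≤ wk G d u v := by
  unfold wk; split_ifs <;> positivity

theorem wk_symm (u v : V) : wk G d u v = wk G d v u := by
  unfold wk; simp only [G.adj_comm]

theorem wk_row (hd : 1 ≤ d) (hG : G.IsRegularOfDegree d) (u : V) : ∑ v, wk G d u v = 1 := by
  unfold wk
  rw [← sum_filter, sum_const, nsmul_eq_mul]
  have h1 : (univ.filter fun v => G.Adj u v).card = d := by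
    have h2 := hG u
    rw [← G.card_neighborFinset_eq_degree] at h2
    rw [← h2]
    congr 1
    ext v; simp
  rw [h1]
  have : (d : ℝ) ≠ 0 := by positivity
  field_simp

theorem bd_bdr (S : Finset V) : bd (wk G d) S = (bdr G S : ℝ) / d := by
  have h1 : ∀ u v, wk G d u v * (xi u S * (1 - xi v S)) =
      if (u ∈ S ∧ v ∉ S ∧ G.Adj u v) then 1 / (d : ℝ) else 0 := by
    intro u v
    unfold wk xi
    by_cases h1 : u ∈ S <;> by_cases h2 : v ∈ S <;> by_cases h3 : G.Adj u v <;> simp [h1, h2, h3]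
  unfold bd bdr
  simp only [h1]
  rw [← sum_product', ← sum_filter, sum_const, nsmul_eq_mul]
  rw [mul_one_div]
  rfl

theorem ins_bdr (hd : 1 ≤ d) (hG : G.IsRegularOfDegree d) (S : Finset V) :
    ins (wk G d) S = S.card - (bdr G S : ℝ) / d := by
  rw [← bd_bdr]
  unfold ins bd
  have h1 : ∑ u, ∑ v, wk G d u v * (xi u S * (1 - xi v S)) =
      ∑ u ∈ S, ∑ v ∈ Sᶜ, wk G d u v := by
    have h2 : ∀ u, ∑ v, wk G d u v * (xi u S * (1 - xi v S)) =
        if u ∈ S then ∑ v ∈ Sᶜ, wk G d u v else 0 := by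
      intro u
      unfold xi
      split_ifs with h
      · rw [← sum_subset (subset_univ Sᶜ)]
        · refine sum_congr rfl fun v hv => ?_
          rw [mem_compl] at hv
          simp [hv]
        · intro v _ hv
          rw [mem_compl, not_not] at hv
          simp [hv]
      · simp
    simp only [h2]
    rw [← sum_filter]
    congr 1
    ext u; simp
  rw [h1]
  have h2 : ∀ u, ∑ v ∈ S, wk G d u v = 1 - ∑ v ∈ Sᶜ, wk G d u v := by
    intro u
    have := sum_add_sum_compl S (fun v => wk G d u v)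
    rw [wk_row G d hd hG u] at this
    linarith
  simp only [h2]
  rw [sum_sub_distrib]
  simp

/-- the main theorem for regular graphs -/
theorem main (hd : 1 ≤ d) (hG : G.IsRegularOfDegree d) (s : ℕ) (hs1 : 1 ≤ s)
    (hs : s ≤ Fintype.card V) (ε q : ℝ) (hε : 0 < ε) (hε1 : ε ≤ 1 / 100) (hq : 0 < q)
    (hq1 : q ≤ 1 / 2) (C : ℝ) (hC : 20000000 ≤ C) (k : ℕ)
    (hk : C * Real.log (2 * s) ^ 2 * (s : ℝ) ^ (C * ε / Real.log (1 / q)) ≤ k)
    (L : (Finset V → ℝ) →ₗ[ℝ] ℝ) (hL : IsSheraliAdams k L) (hLs : HasSize k s L)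
    (he : L (fun S => (bdr G S : ℝ)) ≤ ε * (d * s)) :
    ∃ S : Finset V, S.card = s ∧ (bdr G S : ℝ) / (d * S.card) ≤ 1 - ε * q ^ 2 / 8 := by
  obtain ⟨T, M, j, hT, hTs, hM, hMT, hj, hMj⟩ := choice s hs1 ε q hε hε1 hq hq1 C hC k hk
  have hd0 : (0 : ℝ) < d := by exact_mod_cast hd
  have he' : L (bd (wk G d)) ≤ ε * s := by
    have h1 : bd (wk G d) = (1 / (d : ℝ)) • fun S : Finset V => (bdr G S : ℝ) := by
      funext S
      rw [bd_bdr, Pi.smul_apply, smul_eq_mul]; ring
    rw [h1, map_smul, smul_eq_mul, one_div, inv_mul_le_iff₀ hd0]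
    linarith
  obtain ⟨S, h1, h2⟩ := dicho (wk G d) (wk_nonneg G d) (wk_symm G d) (wk_row G d hd hG) s hs1 hs
    ε q hε hε1 hq hq1 T hT hTs M hM hMT j hj L (sa_mono hMj hL) (size_mono hMj hLs) he'
  refine ⟨S, h1, ?_⟩
  rw [ins_bdr G d hd hG, h1] at h2
  have hs0 : (0 : ℝ) < s := by exact_mod_cast hs1
  rw [h1, div_le_iff₀ (by positivity)]
  have h3 : (bdr G S : ℝ) / d ≤ s - ε * q ^ 2 / 8 * s := by linarith
  rw [div_le_iff₀ hd0] at h3
  linarith

end

end Run7.h881.SE
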