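import Pool.Agent.Run7.h881.SE.Num

/-!
The choice of the parameters for sets of small expansion.
-/

set_option autoImplicit false

namespace Run7.h881.SE

set_option maxHeartbeats 1000000 in
/-- the choice of the parameters -/
theorem choice2 (s : ℕ) (hs : 1 ≤ s) (ε τ : ℝ) (hτ : 0 < τ) (hτ1 : τ ≤ 1) (hε : 0 < ε)
    (hετ : 300 * ε ≤ τ) (k : ℕ)
    (hk : 200 * (τ * Real.log (2 * s) / ε) ^ 2 * (s : ℝ) ^ τ ≤ k) (φ : ℝ) (hφ : 0 < φ)
    (hφ2 : φ ^ 2 = 300 * ε / τ) :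
    ∃ T M j : ℕ, 1 ≤ T ∧ (1 - φ ^ 2 / 4) ^ (2 * T) * s ≤ 1 ∧ 3 ≤ M ∧
      32 * (T : ℝ) ^ 2 ≤ (M - 1) * (1 - 18 * ε) ^ (2 * T) ∧
      196608 / (φ ^ 2 * (1 - 18 * ε) ^ (4 * T)) < (j : ℝ) + 1 ∧ M + j ≤ k := by
  have hs0 : (0 : ℝ) < s := by exact_mod_cast hs
  have hs1 : (1 : ℝ) ≤ s := by exact_mod_cast hs
  have hε1 : ε ≤ 1 / 300 := by linarith
  have hb : 0 < 1 - 18 * ε := by linarith
  have hl2 := Real.log_two_gt_d9
  set a := Real.log s with ha
  have ha0 : 0 ≤ a := Real.log_nonneg hs1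
  have hΛ : Real.log (2 * s) = Real.log 2 + a := by
    rw [Real.log_mul (by norm_num) hs0.ne']
  set Λ := Real.log (2 * s) with hΛdef
  set r := τ / ε with hr
  have hr300 : 300 ≤ r := by rw [hr, le_div_iff₀ hε]; exact hετ
  have hr0 : 0 < r := by linarith
  have hεr : ε * r = τ := by rw [hr]; field_simp
  have hφr : φ ^ 2 * r = 300 := by rw [hφ2, hr]; field_simp
  have hφ20 : 0 < φ ^ 2 := by positivity
  have hφ21 : φ ^ 2 ≤ 1 := by nlinarith
  set T := ⌊a * r / 150⌋₊ + 1 with hT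
  have hT1 : a * r / 150 < T := by
    rw [hT]; push_cast; exact Nat.lt_floor_add_one _
  have hT2 : (T : ℝ) ≤ a * r / 150 + 1 := by
    rw [hT]; push_cast
    have := Nat.floor_le (by positivity : 0 ≤ a * r / 150)
    linarith
  set X := (s : ℝ) ^ τ with hX
  have hXe : X = Real.exp (a * τ) := by rw [hX, Real.rpow_def_of_pos hs0]
  have hX1 : 1 ≤ X := by rw [hXe]; exact Real.one_le_exp (by positivity)
  have hX0 : 0 < X := by linarith
  have hp4 : (1 - 18 * ε) ^ (4 * T) * (21 * X) ≥ 1 := by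
    have h1 := inv_pow_le (ε / 2) (by linarith) (by linarith) (4 * T)
    have h0 : (1 - 36 * (ε / 2)) = 1 - 18 * ε := by ring
    rw [h0] at h1
    have h2 : Real.exp (60 * (ε / 2) * ((4 * T : ℕ) : ℝ)) ≤ 21 * X := by
      have h3 : 60 * (ε / 2) * ((4 * T : ℕ) : ℝ) ≤ 3 + a * τ := by
        push_cast
        have h4 : 120 * ε * T ≤ 120 * ε * (a * r / 150 + 1) :=
          mul_le_mul_of_nonneg_left hT2 (by linarith)
        have h5 : 120 * ε * (a * r / 150 + 1) = 120 / 150 * (a * (ε * r)) + 120 * ε := by ring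
        rw [h5, hεr] at h4
        have h6 : 0 ≤ a * τ := by positivity
        nlinarith
      calc Real.exp (60 * (ε / 2) * ((4 * T : ℕ) : ℝ)) ≤ Real.exp (3 + a * τ) :=
            Real.exp_le_exp.2 h3
        _ = Real.exp 3 * X := by rw [Real.exp_add, hXe]
        _ ≤ 21 * X := mul_le_mul_of_nonneg_right exp3 hX0.le
    have h3 : 0 ≤ (1 - 18 * ε) ^ (4 * T) := pow_nonneg hb.le _
    exact h1.trans (mul_le_mul_of_nonneg_left h2 h3)
  have hp2 : (1 - 18 * ε) ^ (2 * T) * (21 * X) ≥ 1 := by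
    have h1 : (1 - 18 * ε) ^ (4 * T) ≤ (1 - 18 * ε) ^ (2 * T) :=
      pow_le_pow_of_le_one hb.le (by linarith) (by omega)
    exact le_trans hp4 (mul_le_mul_of_nonneg_right h1 (by positivity))
  have hTΛ : (T : ℝ) ≤ r * Λ / 150 := by
    rw [hΛ]
    nlinarith
  have hΛ0 : 0 < Λ := by rw [hΛ]; linarith
  have hΛ48 : 0.48 ≤ Λ ^ 2 := by nlinarith
  have hrw : τ * Λ / ε = r * Λ := by rw [hr]; ring
  rw [hrw] at hk
  refine ⟨T, ⌈3 / 100 * (r * Λ) ^ 2 * X⌉₊ + 2, ⌈13763 * r * X⌉₊, by omega, ?_, ?_, ?_, ?_, ?_⟩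
  · -- decay
    have h1 : (1 - φ ^ 2 / 4) ≤ Real.exp (-(φ ^ 2 / 4)) := by
      have := Real.add_one_le_exp (-(φ ^ 2 / 4))
      linarith
    have h2 : (1 - φ ^ 2 / 4) ^ (2 * T) ≤ Real.exp (-(φ ^ 2 / 4)) ^ (2 * T) :=
      pow_le_pow_left₀ (by linarith) h1 _
    have h3 : Real.exp (-(φ ^ 2 / 4)) ^ (2 * T) = Real.exp (-(φ ^ 2 * T / 2)) := by
      rw [← Real.exp_nat_mul]
      congr 1
      push_cast; ring
    have h4 : (s : ℝ) = Real.exp a := by rw [ha, Real.exp_log hs0]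
    calc (1 - φ ^ 2 / 4) ^ (2 * T) * s ≤ Real.exp (-(φ ^ 2 * T / 2)) * s := by
          rw [← h3]; exact mul_le_mul_of_nonneg_right h2 hs0.le
      _ = Real.exp (-(φ ^ 2 * T / 2) + a) := by rw [Real.exp_add, ← h4]
      _ ≤ 1 := by
          refine Real.exp_le_one_iff.2 ?_
          have h5 : φ ^ 2 * (a * r / 150) ≤ φ ^ 2 * T := mul_le_mul_of_nonneg_left hT1.le hφ20.le
          have h6 : φ ^ 2 * (a * r / 150) = a * (φ ^ 2 * r) / 150 := by ring
          rw [h6, hφr] at h5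
          linarith
  · have h1 : 0 < ⌈3 / 100 * (r * Λ) ^ 2 * X⌉₊ := by
      rw [Nat.ceil_pos]
      positivity
    omega
  · -- sampling
    have h2 : (T : ℝ) ^ 2 ≤ (r * Λ / 150) ^ 2 := pow_le_pow_left₀ (Nat.cast_nonneg _) hTΛ 2
    have h4 : 3 / 100 * (r * Λ) ^ 2 * X ≤ ((⌈3 / 100 * (r * Λ) ^ 2 * X⌉₊ + 2 : ℕ) : ℝ) - 1 := by
      push_cast
      have := Nat.le_ceil (3 / 100 * (r * Λ) ^ 2 * X)
      linarith
    have h5 : 0 ≤ (1 - 18 * ε) ^ (2 * T) := pow_nonneg hb.le _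
    have h6 := mul_le_mul_of_nonneg_right h4 h5
    refine le_trans ?_ h6
    have h7 : 3 / 100 * (r * Λ) ^ 2 * X * (1 - 18 * ε) ^ (2 * T) =
        3 / 2100 * (r * Λ) ^ 2 * ((1 - 18 * ε) ^ (2 * T) * (21 * X)) := by ring
    rw [h7]
    have h8 : 0 ≤ 3 / 2100 * (r * Λ) ^ 2 := by positivity
    have h9 := mul_le_mul_of_nonneg_left hp2 h8
    nlinarith [sq_nonneg (r * Λ)]
  · have h1 : 196608 / (φ ^ 2 * (1 - 18 * ε) ^ (4 * T)) ≤ 13763 * r * X := by
      rw [div_le_iff₀ (mul_pos hφ20 (pow_pos hb _))]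
      have h2 : 13763 * r * X * (φ ^ 2 * (1 - 18 * ε) ^ (4 * T)) =
          13763 / 21 * (φ ^ 2 * r) * ((1 - 18 * ε) ^ (4 * T) * (21 * X)) := by ring
      rw [h2, hφr]
      linarith
    have h2 := Nat.le_ceil (13763 * r * X)
    linarith
  · have h0 : (0 : ℝ) ≤ 3 / 100 * (r * Λ) ^ 2 * X := by positivity
    have h1 := (Nat.ceil_lt_add_one h0).le
    have h2 := (Nat.ceil_lt_add_one (by positivity : (0 : ℝ) ≤ 13763 * r * X)).le
    have h3 : ((⌈3 / 100 * (r * Λ) ^ 2 * X⌉₊ + 2 + ⌈13763 * r * X⌉₊ : ℕ) : ℝ) ≤ k := by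
      refine le_trans ?_ hk
      push_cast
      set Z := (r * Λ) ^ 2 * X with hZ
      have h4 : 144 * (r * X) ≤ Z := by
        have h5 : Z = r * X * (r * Λ ^ 2) := by rw [hZ]; ring
        have h6 : 144 ≤ r * Λ ^ 2 := by nlinarith
        rw [h5]
        have h7 : 0 ≤ r * X := by positivity
        nlinarith
      have h5 : 300 ≤ r * X := by nlinarith
      have h6 : 3 / 100 * (r * Λ) ^ 2 * X = 3 / 100 * Z := by rw [hZ]; ring
      have h7 : 200 * (r * Λ) ^ 2 * X = 200 * Z := by rw [hZ]; ring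
      have h8 : 13763 * r * X = 13763 * (r * X) := by ring
      rw [h6] at h1
      rw [h8] at h2
      rw [h6, h7, h8]
      linarith
    exact_mod_cast h3

end Run7.h881.SE
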