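import Pool.Agent.Run7.h881.SE.Sdp
import Pool.Agent.Run7.h881.SE.Gr

/-!
The integrality gap of the basic semidefinite program of small-set expansion.
-/

set_option autoImplicit false
set_option linter.unusedSectionVars false

namespace Run7.h881.SE

open Finset Run7.h881.SA

section
variable {V : Type} [Fintype V] [DecidableEq V]

set_option maxHeartbeats 2000000 in
/-- sets of exactly `s` vertices from solutions of the basic semidefinite program -/
theorem sdpden (P : V → V → ℝ) (hP : ∀ u v, 0 ≤ P u v) (hsym : ∀ u v, P u v = P v u)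
    (hrow : ∀ u, ∑ v, P u v = 1) (s : ℕ) (hs2 : 2 ≤ s) (hs : s ≤ Fintype.card V)
    (X : V → V → ℝ) (hX : ∀ M, PsdM M X) (hX0 : ∀ u v, 0 ≤ X u v) (hXs : ∀ u v, X u v = X v u)
    (hXd : ∀ u v, X u v ≤ X u u) (hX1 : ∀ u, X u u ≤ 1) (hXrow : ∀ u, ∑ v, X u v ≤ s * X u u)
    (hXt : ∑ u, X u u ≤ s) (κ : ℝ) (hκ : 0 < κ) (hκ1 : κ ≤ 1)
    (he : κ * s ≤ ∑ u, ∑ v, P u v * X u v) (T : ℕ) (hT : 1 ≤ T) :
    ∃ S : Finset V, S.card = s ∧
      (κ / 4) ^ (4 * T + 2) / (18432 * (16 * (s : ℝ)) ^ (1 / (2 * T : ℝ))) * s ≤ ins P S := by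
  have hs2' : (2 : ℝ) ≤ s := by exact_mod_cast hs2
  have hs0 : (0 : ℝ) < s := by linarith
  have hκ4 : 0 < κ / 4 := by linarith
  have hκ4' : κ / 4 ≤ 1 := by linarith
  have hT0 : (0 : ℝ) < T := by exact_mod_cast hT
  set e := (16 * (s : ℝ)) ^ (1 / (2 * T : ℝ)) with he'
  have he1 : 1 ≤ e := Real.one_le_rpow (by linarith) (by positivity)
  have he0 : 0 < e := by linarith
  have hepow : e ^ (2 * T) = 16 * s := by
    rw [he', ← Real.rpow_natCast, ← Real.rpow_mul (by positivity)]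
    have : 1 / (2 * T : ℝ) * ((2 * T : ℕ) : ℝ) = 1 := by
      push_cast
      field_simp
    rw [this, Real.rpow_one]
  set β := (κ / 4) ^ (4 * T + 1) / (1152 * e) with hβ
  have hβ0 : 0 < β := by positivity
  obtain ⟨B, hBs, hBi, hBmax⟩ := greedy P hP β s
  rcases le_or_gt (κ / 64 * s) B.card with hcase | hcase
  · obtain ⟨S, h1, h2⟩ := extend P hP s hs B hBs
    refine ⟨S, h1, ?_⟩
    have h4 := mul_le_mul_of_nonneg_left hcase hβ0.le
    calc (κ / 4) ^ (4 * T + 2) / (18432 * e) * s = β * (κ / 64 * s) := by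
          rw [hβ, pow_succ _ (4 * T + 1)]
          field_simp
          ring
      _ ≤ β * B.card := h4
      _ ≤ ins P B := hBi
      _ ≤ ins P S := h2
  · exfalso
    set N := s - B.card with hN
    have hNr : (N : ℝ) = s - B.card := by rw [hN, Nat.cast_sub hBs]
    have hκs : κ / 64 * s ≤ 1 / 64 * s := mul_le_mul_of_nonneg_right (by linarith) hs0.le
    have hN2 : 2 ≤ N := by
      by_contra hcon
      have h1 : N ≤ 1 := by omega
      have h2 : (N : ℝ) ≤ 1 := by exact_mod_cast h1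
      linarith
    have hN1 : (s : ℝ) / 4 ≤ (N : ℝ) - 1 := by
      rw [hNr]
      linarith
    have hA : ∀ S : Finset V, S ⊆ Bᶜ → S.Nonempty → S.card ≤ N → ins P S ≤ β * S.card := by
      intro S hS hne hcS
      exact hBmax S (disjoint_left.2 fun x hxB hxS => by
        have := hS hxS
        rw [mem_compl] at this
        exact this hxB) hne (by omega)
    -- energy
    have htr1 : trA Bᶜ X ≤ s := by
      refine le_trans ?_ hXt
      exact sum_le_sum_of_subset_of_nonneg (subset_univ _) fun u _ _ => hX0 u u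
    have hp0 : ∀ u v, 0 ≤ P u v * X u v := fun u v => mul_nonneg (hP u v) (hX0 u v)
    have hrs : ∀ u, ∑ v, P u v * X u v ≤ 1 := fun u => by
      rw [← hrow u]
      refine sum_le_sum fun v _ => ?_
      have h1 := (hXd u v).trans (hX1 u)
      have := mul_le_mul_of_nonneg_left h1 (hP u v)
      linarith
    have hen : κ * s - 2 * B.card ≤ ∑ u ∈ Bᶜ, ∑ v ∈ Bᶜ, P u v * X u v := by
      have h4 := sum_add_sum_compl B (fun u => ∑ v, P u v * X u v)
      have h5 : ∑ u ∈ B, ∑ v, P u v * X u v ≤ B.card := by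
        calc _ ≤ ∑ u ∈ B, (1 : ℝ) := sum_le_sum fun u _ => hrs u
          _ = B.card := by simp
      have h6 : ∀ u, ∑ v, P u v * X u v = ∑ v ∈ B, P u v * X u v +
          ∑ v ∈ Bᶜ, P u v * X u v := fun u => (sum_add_sum_compl B _).symm
      have h7 : ∑ u ∈ Bᶜ, ∑ v, P u v * X u v = ∑ u ∈ Bᶜ, ∑ v ∈ B, P u v * X u v +
          ∑ u ∈ Bᶜ, ∑ v ∈ Bᶜ, P u v * X u v := by
        rw [← sum_add_distrib]
        exact sum_congr rfl fun u _ => h6 u
      have h8 : ∑ u ∈ Bᶜ, ∑ v ∈ B, P u v * X u v ≤ B.card := by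
        rw [sum_comm]
        calc _ ≤ ∑ v ∈ B, (1 : ℝ) := by
              refine sum_le_sum fun v _ => ?_
              refine le_trans ?_ (hrs v)
              calc ∑ u ∈ Bᶜ, P u v * X u v ≤ ∑ u, P u v * X u v :=
                    sum_le_sum_of_subset_of_nonneg (subset_univ _) fun u _ _ => hp0 u v
                _ = ∑ u, P v u * X v u := sum_congr rfl fun u _ => by rw [hsym, hXs]
          _ = B.card := by simp
      linarith
    have hen2 : κ / 2 * s ≤ ∑ u ∈ Bᶜ, ∑ v ∈ Bᶜ, P u v * X u v := by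
      refine le_trans ?_ hen
      have h0 : 0 ≤ κ * (s : ℝ) := by positivity
      linarith
    have htr0 : 0 < trA Bᶜ X := by
      have h0 : 0 ≤ trA Bᶜ X := sum_nonneg fun u _ => hX0 u u
      rcases h0.eq_or_lt with h | h
      · exfalso
        have h1 : ∀ u ∈ Bᶜ, X u u = 0 := fun u hu =>
          (sum_eq_zero_iff_of_nonneg (fun u _ => hX0 u u)).1 h.symm u hu
        have h2 : ∑ u ∈ Bᶜ, ∑ v ∈ Bᶜ, P u v * X u v = 0 := by
          refine sum_eq_zero fun u hu => sum_eq_zero fun v _ => ?_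
          have h3 : X u v = 0 := le_antisymm (by rw [← h1 u hu]; exact hXd u v) (hX0 u v)
          rw [h3, mul_zero]
        rw [h2] at hen2
        have : 0 < κ / 2 * s := by positivity
        linarith
      · exact h
    set θ := (κ / 4) ^ (2 * T) / 8 with hθ
    have hp1 : (κ / 4) ^ (2 * T) ≤ 1 := pow_le_one₀ hκ4.le hκ4'
    have hp0' : 0 < (κ / 4) ^ (2 * T) := pow_pos hκ4 _
    have hθ0 : 0 < θ := by positivity
    have hθ1 : θ ≤ 1 := by rw [hθ]; linarith
    set R := e * (4 / κ) with hR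
    have hκi : 4 ≤ 4 / κ := by rw [le_div_iff₀ hκ]; linarith
    have hR4 : 4 ≤ R := by
      rw [hR]
      nlinarith
    refine grow P hP hsym (fun u => (hrow u).le) Bᶜ X hX hX0 hXs hXd s hs0.le hXrow (κ / 2)
      (by linarith) (by linarith) ?_ htr0 T hT N hN2 β hβ0.le hA R (by linarith) θ
      (by rw [hθ]; congr 2; ring) ?_ ?_
    · refine le_trans ?_ hen2
      exact mul_le_mul_of_nonneg_left htr1 (by linarith)
    · have h1 : 1 + 2 * (s : ℝ) / (θ * (N - 1)) ≤ 9 / θ := by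
        have h2 : 2 * (s : ℝ) / (θ * (N - 1)) ≤ 8 / θ := by
          rw [div_le_div_iff₀ (by nlinarith) hθ0]
          nlinarith
        have h3 : 1 ≤ 1 / θ := by rw [le_div_iff₀ hθ0]; linarith
        have h4 : 9 / θ = 1 / θ + 8 / θ := by ring
        linarith
      have h2 : R + 1 ≤ 5 / 4 * R := by linarith
      have h3 : β * (1 + 2 * (s : ℝ) / (θ * (N - 1))) * (R + 1) ≤ β * (9 / θ) * (5 / 4 * R) :=
        mul_le_mul (mul_le_mul_of_nonneg_left h1 hβ0.le) h2 (by linarith) (by positivity)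
      refine lt_of_le_of_lt h3 ?_
      have h4 : β * (9 / θ) * (5 / 4 * R) = 45 / 4608 * (κ / 4) ^ (4 * T) / θ := by
        rw [hβ, hR, pow_succ]
        field_simp
        norm_num
      rw [h4, div_lt_iff₀ hθ0]
      have h5 : θ * θ = (κ / 4) ^ (4 * T) / 64 := by
        rw [hθ, show 4 * T = 2 * T + 2 * T by ring, pow_add]
        ring
      rw [h5]
      have h6 : 0 < (κ / 4) ^ (4 * T) := pow_pos hκ4 _
      linarith
    · have h1 : R ^ (2 * T) = 16 * s * (4 / κ) ^ (2 * T) := by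
        rw [hR, mul_pow, hepow]
      rw [h1, div_lt_iff₀ hθ0]
      have h2 : (4 / κ) ^ (2 * T) * (κ / 4) ^ (2 * T) = 1 := by
        rw [← mul_pow]
        have : 4 / κ * (κ / 4) = 1 := by field_simp
        rw [this, one_pow]
      have h3 : 16 * (s : ℝ) * (4 / κ) ^ (2 * T) * θ =
          2 * s * ((4 / κ) ^ (2 * T) * (κ / 4) ^ (2 * T)) := by
        rw [hθ]; ring
      rw [h3, h2]
      linarith

end

set_option maxHeartbeats 1000000 in
/-- the choice of the number of steps -/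
theorem choiceT (s : ℕ) (hs2 : 2 ≤ s) (κ : ℝ) (hκ : 0 < κ) (hκ1 : κ ≤ 1) : ∃ T : ℕ, 1 ≤ T ∧
    Real.exp (-(3 * √(Real.log (16 * s) * Real.log (4 / κ)) + 14 * Real.log (4 / κ))) ≤
      (κ / 4) ^ (4 * T + 2) / (18432 * (16 * (s : ℝ)) ^ (1 / (2 * T : ℝ))) := by
  have hs2' : (2 : ℝ) ≤ s := by exact_mod_cast hs2
  have hs0 : (0 : ℝ) < 16 * s := by linarith
  set a := Real.log (16 * s) with ha
  set l := Real.log (4 / κ) with hl
  have hE4 : 4 ≤ 4 / κ := by rw [le_div_iff₀ hκ]; linarith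
  have hl2 := Real.log_two_gt_d9
  have h4 : Real.log 4 = 2 * Real.log 2 := by
    rw [show (4 : ℝ) = 2 ^ 2 by norm_num, Real.log_pow]; norm_num
  have hl4 : 2 * Real.log 2 ≤ l := by
    rw [← h4]; exact Real.log_le_log (by norm_num) hE4
  have hl0 : 1.386 < l := by linarith
  have ha0 : 0 < a := Real.log_pos (by linarith)
  have hal : 0 < a * l := by positivity
  set w := √(2 * (a * l)) with hw
  have hw0 : 0 < w := Real.sqrt_pos.2 (by linarith)
  have hw2 : w ^ 2 = 2 * (a * l) := Real.sq_sqrt (by linarith)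
  set T := ⌈w / (4 * l)⌉₊ with hT
  have hTpos : 0 < T := Nat.ceil_pos.2 (by positivity)
  have hT0 : (0 : ℝ) < T := by exact_mod_cast hTpos
  have hT1 : w / (4 * l) ≤ T := Nat.le_ceil _
  have hT2 : (T : ℝ) ≤ w / (4 * l) + 1 := (Nat.ceil_lt_add_one (by positivity)).le
  refine ⟨T, hTpos, ?_⟩
  have e1 : κ / 4 = Real.exp (-l) := by
    rw [hl, Real.exp_neg, Real.exp_log (by positivity), inv_div]
  have e2 : (16 * (s : ℝ)) ^ (1 / (2 * T : ℝ)) = Real.exp (a * (1 / (2 * T))) := by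
    rw [Real.rpow_def_of_pos hs0]
  have e3 : (18432 : ℝ) ≤ Real.exp (8 * l) := by
    have h1 : (2 : ℝ) ^ 16 = Real.exp (8 * (2 * Real.log 2)) := by
      rw [show 8 * (2 * Real.log 2) = ((16 : ℕ) : ℝ) * Real.log 2 by push_cast; ring,
        Real.exp_nat_mul, Real.exp_log (by norm_num)]
    have h2 : Real.exp (8 * (2 * Real.log 2)) ≤ Real.exp (8 * l) :=
      Real.exp_le_exp.2 (by linarith)
    rw [← h1] at h2
    norm_num at h2
    linarith
  rw [e1, e2, ← Real.exp_nat_mul, le_div_iff₀ (by positivity)]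
  have h5 : 18432 * Real.exp (a * (1 / (2 * T))) ≤ Real.exp (8 * l + a * (1 / (2 * T))) := by
    rw [Real.exp_add]
    exact mul_le_mul_of_nonneg_right e3 (Real.exp_pos _).le
  refine (mul_le_mul_of_nonneg_left h5 (Real.exp_pos _).le).trans ?_
  rw [← Real.exp_add]
  refine Real.exp_le_exp.2 ?_
  have h6 : a * (1 / (2 * T)) ≤ w := by
    rw [mul_one_div, div_le_iff₀ (by positivity)]
    rw [div_le_iff₀ (by positivity)] at hT1
    have h7 : w * w ≤ T * (4 * l) * w := mul_le_mul_of_nonneg_right hT1 hw0.le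
    have h8 : w * w = 2 * (a * l) := by rw [← hw2]; ring
    rw [h8] at h7
    have h9 : a * l ≤ (w * (2 * T)) * l := by linarith
    exact le_of_mul_le_mul_right h9 (by linarith)
  have h7 : 4 * (T : ℝ) * l ≤ w + 4 * l := by
    have h8 := mul_le_mul_of_nonneg_right hT2 (by linarith : 0 ≤ 4 * l)
    have h9 : (w / (4 * l) + 1) * (4 * l) = w + 4 * l := by field_simp
    linarith
  have h8 : 2 * w ≤ 3 * √(a * l) := by
    rw [hw, Real.sqrt_mul (by norm_num)]
    have h9 : √2 ≤ 3 / 2 := by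
      rw [Real.sqrt_le_left (by norm_num)]; norm_num
    have h10 := mul_le_mul_of_nonneg_right h9 (Real.sqrt_nonneg (a * l))
    linarith
  push_cast
  nlinarith

section
variable {V : Type} [Fintype V] [DecidableEq V] (G : SimpleGraph V) [DecidableRel G.Adj] (d : ℕ)

theorem psd_dot {D : Type} [Fintype D] (x : V → D → ℝ) (M : ℕ) :
    PsdM M fun u v => x u ⬝ᵥ x v := by
  intro σ a
  have h : ∑ i, ∑ j, a i * a j * (x (σ i) ⬝ᵥ x (σ j)) = ∑ k, (∑ i, a i * x (σ i) k) ^ 2 := by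
    have h1 : ∀ k, (∑ i, a i * x (σ i) k) ^ 2 =
        ∑ i, ∑ j, a i * a j * (x (σ i) k * x (σ j) k) := by
      intro k
      rw [sq, sum_mul_sum]
      exact sum_congr rfl fun i _ => sum_congr rfl fun j _ => by ring
    simp only [h1, dotProduct, mul_sum]
    symm
    rw [sum_comm]
    refine sum_congr rfl fun i _ => ?_
    rw [sum_comm]
  rw [h]
  exact sum_nonneg fun k _ => sq_nonneg _

/-- the basic semidefinite program in regular graphs -/
theorem mainSdp (hd : 1 ≤ d) (hG : G.IsRegularOfDegree d) (s : ℕ) (hs2 : 2 ≤ s)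
    (hs : s ≤ Fintype.card V) (κ : ℝ) (hκ : 0 < κ) (hκ1 : κ ≤ 1) {D : Type} [Fintype D]
    (x : V → D → ℝ) (h0 : ∀ u v, 0 ≤ x u ⬝ᵥ x v) (h1 : ∀ u v, x u ⬝ᵥ x v ≤ x u ⬝ᵥ x u)
    (h2 : ∀ u, x u ⬝ᵥ x u ≤ 1) (h3 : ∀ u, ∑ v, x u ⬝ᵥ x v ≤ s * (x u ⬝ᵥ x u))
    (h4 : ∑ u, x u ⬝ᵥ x u ≤ s)
    (h5 : κ * (d * s) ≤ ∑ u, ∑ v with G.Adj u v, x u ⬝ᵥ x v) :
    ∃ S : Finset V, S.card = s ∧ (bdr G S : ℝ) / (d * S.card) ≤
      1 - Real.exp (-(3 * √(Real.log (16 * s) * Real.log (4 / κ)) + 14 * Real.log (4 / κ))) := by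
  obtain ⟨T, hT, hT'⟩ := choiceT s hs2 κ hκ hκ1
  have hd0 : (0 : ℝ) < d := by exact_mod_cast hd
  have hs0 : (0 : ℝ) < s := by
    have : 0 < s := by omega
    exact_mod_cast this
  obtain ⟨S, hS, hS2⟩ := sdpden (wk G d) (wk_nonneg G d) (wk_symm G d) (wk_row G d hd hG) s hs2 hs
    (fun u v => x u ⬝ᵥ x v) (psd_dot x) h0 (fun u v => dotProduct_comm _ _) h1 h2 h3 h4 κ hκ hκ1
    (by
      have e1 : ∑ u, ∑ v, wk G d u v * (x u ⬝ᵥ x v) =
          (∑ u, ∑ v with G.Adj u v, x u ⬝ᵥ x v) / d := by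
        rw [sum_div]
        refine sum_congr rfl fun u _ => ?_
        rw [sum_filter, sum_div]
        refine sum_congr rfl fun v _ => ?_
        unfold wk
        split_ifs <;> ring
      rw [e1, le_div_iff₀ hd0]
      linarith) T hT
  refine ⟨S, hS, ?_⟩
  rw [ins_bdr G d hd hG, hS] at hS2
  rw [hS, div_le_iff₀ (by positivity)]
  have h6 := mul_le_mul_of_nonneg_right hT' hs0.le
  have h7 : (bdr G S : ℝ) / d ≤ s - Real.exp (-(3 * √(Real.log (16 * s) * Real.log (4 / κ)) +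
      14 * Real.log (4 / κ))) * s := by linarith
  rw [div_le_iff₀ hd0] at h7
  linarith

end

end Run7.h881.SE
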