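import Pool.Agent.Run7.h881.SE.Cor

/-!
The Sherali-Adams relaxation for sets of prescribed size: conditioning.
-/

set_option autoImplicit false
set_option linter.unusedSectionVars false

namespace Run7.h881.SE

open Finset Run7.h881.SA

section
variable {V : Type} [Fintype V] [DecidableEq V]

/-- the function `f` of a set `S` depends only on `S ∩ W` -/
def DependsOn (W : Finset V) (f : Finset V → ℝ) : Prop :=
  ∀ S S' : Finset V, S ∩ W = S' ∩ W → f S = f S'

/-- level `k` of the Sherali-Adams relaxation: a linear functional on the functions of a set with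
`L 1 = 1`, nonnegative on the nonnegative functions which depend on at most `k` vertices -/
structure IsSheraliAdams (k : ℕ) (L : (Finset V → ℝ) →ₗ[ℝ] ℝ) : Prop where
  one : L (fun _ => 1) = 1
  nonneg : ∀ W : Finset V, W.card ≤ k → ∀ f : Finset V → ℝ, DependsOn W f → (∀ S, 0 ≤ f S) → 0 ≤ L f

/-- the constraint that the set has `s` elements, multiplied by the functions of fewer than `k`
vertices -/
def HasSize (k : ℕ) (s : ℝ) (L : (Finset V → ℝ) →ₗ[ℝ] ℝ) : Prop :=
  ∀ W : Finset V, W.card < k → ∀ f : Finset V → ℝ, DependsOn W f →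
    L (fun S => (S.card : ℝ) * f S) = s * L f

/-- the indicator of `u ∈ S` -/
def xi (u : V) (S : Finset V) : ℝ := if u ∈ S then 1 else 0

theorem xi_nonneg (u : V) (S : Finset V) : 0 ≤ xi u S := by unfold xi; split_ifs <;> norm_num
theorem xi_le_one (u : V) (S : Finset V) : xi u S ≤ 1 := by unfold xi; split_ifs <;> norm_num
theorem xi_sq (u : V) (S : Finset V) : xi u S * xi u S = xi u S := by
  unfold xi; split_ifs <;> norm_num

theorem dep_mono {W W' : Finset V} (h : W ⊆ W') {f : Finset V → ℝ} (hf : DependsOn W f) :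
    DependsOn W' f := by
  intro S S' hS
  apply hf
  have h1 := congrArg (fun X => X ∩ W) hS
  simp only [inter_assoc, inter_eq_right.2 h] at h1
  exact h1

theorem dep_xi (u : V) : DependsOn {u} (xi u) := by
  intro S S' h
  have h1 : u ∈ S ↔ u ∈ S' := by
    have h2 : u ∈ S ∩ {u} ↔ u ∈ S' ∩ {u} := by rw [h]
    simpa using h2
  unfold xi
  simp only [h1]

theorem dep_const (W : Finset V) (c : ℝ) : DependsOn W (fun _ => c) := fun _ _ _ => rfl

theorem dep_mul {W : Finset V} {f g : Finset V → ℝ} (hf : DependsOn W f) (hg : DependsOn W g) :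
    DependsOn W (fun S => f S * g S) := fun S S' h => by
  show f S * g S = f S' * g S'
  rw [hf S S' h, hg S S' h]

theorem dep_sub {W : Finset V} {f g : Finset V → ℝ} (hf : DependsOn W f) (hg : DependsOn W g) :
    DependsOn W (fun S => f S - g S) := fun S S' h => by
  show f S - g S = f S' - g S'
  rw [hf S S' h, hg S S' h]

theorem sa_mono {k k' : ℕ} (h : k' ≤ k) {L : (Finset V → ℝ) →ₗ[ℝ] ℝ} (hL : IsSheraliAdams k L) :
    IsSheraliAdams k' L :=
  ⟨hL.one, fun W hW f hf h0 => hL.nonneg W (hW.trans h) f hf h0⟩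

/-- probability of `u ∈ S` -/
noncomputable def mu (L : (Finset V → ℝ) →ₗ[ℝ] ℝ) (u : V) : ℝ := L (xi u)

/-- probability of `u, v ∈ S` -/
noncomputable def mm (L : (Finset V → ℝ) →ₗ[ℝ] ℝ) (u v : V) : ℝ := L (fun S => xi u S * xi v S)

/-- covariance -/
noncomputable def cv (L : (Finset V → ℝ) →ₗ[ℝ] ℝ) (u v : V) : ℝ := mm L u v - mu L u * mu L v

theorem mm_symm (L : (Finset V → ℝ) →ₗ[ℝ] ℝ) (u v : V) : mm L u v = mm L v u := by
  unfold mm
  congr 1
  funext S
  ring

theorem cv_symm (L : (Finset V → ℝ) →ₗ[ℝ] ℝ) (u v : V) : cv L u v = cv L v u := by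
  unfold cv
  rw [mm_symm]; ring

theorem mm_self (L : (Finset V → ℝ) →ₗ[ℝ] ℝ) (u : V) : mm L u u = mu L u := by
  unfold mm mu
  congr 1
  funext S
  exact xi_sq u S

theorem cv_self (L : (Finset V → ℝ) →ₗ[ℝ] ℝ) (u : V) : cv L u u = mu L u * (1 - mu L u) := by
  unfold cv
  rw [mm_self]; ring

section
variable {L : (Finset V → ℝ) →ₗ[ℝ] ℝ} (hL : IsSheraliAdams 2 L)
include hL

theorem mu_nonneg (u : V) : 0 ≤ mu L u :=
  hL.nonneg {u} (by simp) _ (dep_xi u) (xi_nonneg u)

theorem mu_le_one (u : V) : mu L u ≤ 1 := by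
  have h := hL.nonneg {u} (by simp) (fun S => 1 - xi u S) (dep_sub (dep_const _ 1) (dep_xi u))
    (fun S => by linarith [xi_le_one u S])
  have h2 : (fun S => 1 - xi u S) = (fun _ => (1 : ℝ)) - xi u := rfl
  rw [h2, map_sub, hL.one] at h
  unfold mu
  linarith

theorem cv_self_nonneg (u : V) : 0 ≤ cv L u u := by
  rw [cv_self]
  exact mul_nonneg (mu_nonneg hL u) (by linarith [mu_le_one hL u])

theorem cv_self_le (u : V) : cv L u u ≤ 1 / 4 := by
  rw [cv_self]
  nlinarith [sq_nonneg (mu L u - 1 / 2)]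

theorem cv_self_le_mu (u : V) : cv L u u ≤ mu L u := by
  rw [cv_self]
  nlinarith [mu_nonneg hL u]

theorem mm_nonneg (u v : V) : 0 ≤ mm L u v :=
  hL.nonneg {u, v} card_le_two _ (dep_mul (dep_mono (by simp) (dep_xi u))
    (dep_mono (by simp) (dep_xi v))) fun S => mul_nonneg (xi_nonneg u S) (xi_nonneg v S)

theorem mm_le (u v : V) : mm L u v ≤ mu L u := by
  have h := hL.nonneg {u, v} card_le_two (fun S => xi u S * (1 - xi v S))
    (dep_mul (dep_mono (by simp) (dep_xi u))
      (dep_sub (dep_const _ 1) (dep_mono (by simp) (dep_xi v))))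
    fun S => mul_nonneg (xi_nonneg u S) (by linarith [xi_le_one v S])
  have h2 : (fun S => xi u S * (1 - xi v S)) = xi u - fun S => xi u S * xi v S := by
    funext S
    simp only [Pi.sub_apply]; ring
  rw [h2, map_sub] at h
  unfold mm mu
  linarith

/-- the probability that exactly one of the two vertices belongs to the set -/
theorem one_of (u v : V) : L (fun S => xi u S * (1 - xi v S)) = mu L u - mm L u v := by
  have h2 : (fun S => xi u S * (1 - xi v S)) = xi u - fun S => xi u S * xi v S := by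
    funext S
    simp only [Pi.sub_apply]; ring
  rw [h2, map_sub]
  rfl

theorem cv_zero (u v : V) (h : cv L u u = 0) : cv L u v = 0 := by
  rw [cv_self] at h
  rcases mul_eq_zero.1 h with h0 | h0
  · have h1 := mm_nonneg hL u v
    have h2 := mm_le hL u v
    unfold cv
    rw [h0] at h2 ⊢
    linarith
  · have h1 : mu L u = 1 := by linarith
    have h2 := mm_le hL v u
    rw [mm_symm] at h2
    have h3 : 0 ≤ L (fun S => (1 - xi u S) * (1 - xi v S)) :=
      hL.nonneg {u, v} card_le_two _ (dep_mul (dep_sub (dep_const _ 1)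
        (dep_mono (by simp) (dep_xi u))) (dep_sub (dep_const _ 1)
        (dep_mono (by simp) (dep_xi v)))) fun S =>
        mul_nonneg (by linarith [xi_le_one u S]) (by linarith [xi_le_one v S])
    have h4 : (fun S => (1 - xi u S) * (1 - xi v S)) =
        (fun _ => (1 : ℝ)) - xi u - xi v + fun S => xi u S * xi v S := by
      funext S
      simp only [Pi.add_apply, Pi.sub_apply]; ring
    rw [h4, map_add, map_sub, map_sub, hL.one] at h3
    have h5 : 0 ≤ 1 - mu L u - mu L v + mm L u v := h3
    unfold cv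
    rw [h1] at h5 ⊢
    linarith

end

/-- the covariances are positive semidefinite on samples -/
theorem cv_psd {k M : ℕ} {L : (Finset V → ℝ) →ₗ[ℝ] ℝ} (hL : IsSheraliAdams k L) (hM : M ≤ k) :
    PsdM M (cv L) := by
  intro σ a
  have key : ∀ u v : V, cv L u v = L (fun S => (xi u S - mu L u) * (xi v S - mu L v)) := by
    intro u v
    have h1 : (fun S => (xi u S - mu L u) * (xi v S - mu L v)) =
        (fun S => xi u S * xi v S) - (mu L v) • (xi u) - (mu L u) • (xi v)
          + (mu L u * mu L v) • (fun _ => (1 : ℝ)) := by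
      funext S
      simp only [Pi.add_apply, Pi.sub_apply, Pi.smul_apply, smul_eq_mul]
      ring
    rw [h1, map_add, map_sub, map_sub, map_smul, map_smul, map_smul, hL.one]
    simp only [smul_eq_mul]
    change mm L u v - _ = mm L u v - mu L v * mu L u - mu L u * mu L v + _
    ring
  have h2 : ∑ i, ∑ j, a i * a j * cv L (σ i) (σ j) =
      L (fun S => (∑ i, a i * (xi (σ i) S - mu L (σ i))) ^ 2) := by
    have h3 : (fun S : Finset V => (∑ i, a i * (xi (σ i) S - mu L (σ i))) ^ 2) =
        ∑ i, ∑ j, (a i * a j) • (fun S => (xi (σ i) S - mu L (σ i)) * (xi (σ j) S - mu L (σ j))) := by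
      funext S
      simp only [Finset.sum_apply, Pi.smul_apply, smul_eq_mul]
      rw [sq, sum_mul_sum]
      exact sum_congr rfl fun i _ => sum_congr rfl fun j _ => by ring
    rw [h3, map_sum]
    refine sum_congr rfl fun i _ => ?_
    rw [map_sum]
    refine sum_congr rfl fun j _ => ?_
    rw [map_smul, smul_eq_mul, key]
  rw [h2]
  refine hL.nonneg (univ.image σ) ?_ _ ?_ fun S => sq_nonneg _
  · refine (card_image_le).trans ?_
    rw [card_univ, Fintype.card_fin]; exact hM
  · intro S S' h
    have h3 : ∀ i, xi (σ i) S = xi (σ i) S' := fun i =>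
      dep_mono (W := {σ i}) (by simp) (dep_xi (σ i)) S S' h
    show (∑ i, a i * (xi (σ i) S - mu L (σ i))) ^ 2 = (∑ i, a i * (xi (σ i) S' - mu L (σ i))) ^ 2
    simp only [h3]

/-- conditioning on an event with indicator `g` -/
noncomputable def cd (L : (Finset V → ℝ) →ₗ[ℝ] ℝ) (g : Finset V → ℝ) :
    (Finset V → ℝ) →ₗ[ℝ] ℝ where
  toFun f := L (fun S => g S * f S) / L g
  map_add' f f' := by
    have h : (fun S => g S * (f + f') S) = (fun S => g S * f S) + fun S => g S * f' S := by
      funext S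
      simp only [Pi.add_apply]; ring
    rw [h, map_add, add_div]
  map_smul' c f := by
    have h : (fun S => g S * (c • f) S) = c • fun S => g S * f S := by
      funext S
      simp only [Pi.smul_apply, smul_eq_mul]; ring
    rw [h, map_smul, smul_eq_mul, RingHom.id_apply, smul_eq_mul, mul_div_assoc]

theorem cd_apply (L : (Finset V → ℝ) →ₗ[ℝ] ℝ) (g f : Finset V → ℝ) :
    cd L g f = L (fun S => g S * f S) / L g := rfl

theorem cd_sa {k : ℕ} {L : (Finset V → ℝ) →ₗ[ℝ] ℝ} (hL : IsSheraliAdams (k + 1) L) (u : V)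
    (g : Finset V → ℝ) (hg : DependsOn {u} g) (hg0 : ∀ S, 0 ≤ g S) (h : 0 < L g) :
    IsSheraliAdams k (cd L g) := by
  refine ⟨?_, fun W hW f hf h0 => ?_⟩
  · rw [cd_apply]
    simp only [mul_one]
    exact div_self h.ne'
  · rw [cd_apply]
    refine div_nonneg (hL.nonneg (insert u W) ((card_insert_le _ _).trans (by omega)) _
      (dep_mul (dep_mono (by simp) hg) (dep_mono (subset_insert _ _) hf))
      fun S => mul_nonneg (hg0 S) (h0 S)) h.le

theorem cd_size {k : ℕ} {s : ℝ} {L : (Finset V → ℝ) →ₗ[ℝ] ℝ} (hL : HasSize (k + 1) s L) (u : V)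
    (g : Finset V → ℝ) (hg : DependsOn {u} g) : HasSize k s (cd L g) := by
  intro W hW f hf
  rw [cd_apply, cd_apply]
  have h1 := hL (insert u W) (lt_of_le_of_lt (card_insert_le _ _) (by omega)) _
    (dep_mul (dep_mono (by simp) hg) (dep_mono (subset_insert _ _) hf))
  have h2 : (fun S : Finset V => g S * ((S.card : ℝ) * f S)) =
      fun S => (S.card : ℝ) * (g S * f S) := by funext S; ring
  rw [h2, h1, mul_div_assoc]

/-- the law of total probability -/
theorem total {L : (Finset V → ℝ) →ₗ[ℝ] ℝ} (h1 : L (fun _ => 1) = 1) (u : V)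
    (hu0 : 0 < mu L u) (hu1 : mu L u < 1) (f : Finset V → ℝ) :
    mu L u * cd L (xi u) f + (1 - mu L u) * cd L (fun S => 1 - xi u S) f = L f := by
  have h2 : L (fun S => 1 - xi u S) = 1 - mu L u := by
    have h3 : (fun S => 1 - xi u S) = (fun _ => (1 : ℝ)) - xi u := rfl
    rw [h3, map_sub, h1]; rfl
  rw [cd_apply, cd_apply, h2]
  change mu L u * (_ / mu L u) + _ = _
  rw [mul_div_cancel₀ _ hu0.ne', mul_div_cancel₀ _ (by linarith : (1 - mu L u) ≠ 0), ← map_add]
  congr 1
  funext S
  simp only [Pi.add_apply]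
  ring

/-- decrease of the variance -/
theorem var_dec {L : (Finset V → ℝ) →ₗ[ℝ] ℝ} (h1 : L (fun _ => 1) = 1) (u v : V)
    (hu0 : 0 < mu L u) (hu1 : mu L u < 1) :
    mu L u * cv (cd L (xi u)) v v + (1 - mu L u) * cv (cd L (fun S => 1 - xi u S)) v v =
      cv L v v - cv L u v ^ 2 / cv L u u := by
  have h2 : L (fun S => 1 - xi u S) = 1 - mu L u := by
    have h3 : (fun S => 1 - xi u S) = (fun _ => (1 : ℝ)) - xi u := rfl
    rw [h3, map_sub, h1]; rfl
  have h4 : mu (cd L (xi u)) v = mm L u v / mu L u := rfl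
  have h5 : mu (cd L (fun S => 1 - xi u S)) v = (mu L v - mm L u v) / (1 - mu L u) := by
    unfold mu
    rw [cd_apply, h2]
    congr 1
    have h3 : (fun S => (1 - xi u S) * xi v S) = xi v - fun S => xi u S * xi v S := by
      funext S
      simp only [Pi.sub_apply]; ring
    rw [h3, map_sub]
    rfl
  rw [cv_self, cv_self, cv_self, cv_self, h4, h5]
  unfold cv
  have h6 : mu L u ≠ 0 := hu0.ne'
  have h7 : (1 - mu L u) ≠ 0 := by linarith
  field_simp
  ring

end

end Run7.h881.SE
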