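import Pool.Agent.Run7.h881.SE.Cor

/-!
Kernels whose small sets lose a part of their mass: quadratic forms (Cheeger) and the decay of the
rows of the powers of the lazy kernel.
-/

set_option autoImplicit false
set_option linter.unusedSectionVars false

namespace Run7.h881.SE

open Finset Run7.h881.SA

section
variable {V : Type} [Fintype V] [DecidableEq V]

set_option maxHeartbeats 1000000 in
/-- Cheeger's inequality for functions with small level sets -/
theorem ray2 (P : V → V → ℝ) (hP : ∀ u v, 0 ≤ P u v) (hsym : ∀ u v, P u v = P v u)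
    (hrow : ∀ u, ∑ v, P u v ≤ 1) (A : Finset V) (s1 φ : ℝ) (hφ : 0 ≤ φ) (hφ1 : φ ≤ 1)
    (hA : ∀ S : Finset V, S ⊆ A → S.Nonempty → (S.card : ℝ) ≤ s1 →
      ins P S ≤ (1 - φ) * S.card)
    (f : V → ℝ) (hf : ∀ u, 0 ≤ f u) (hfA : ∀ u, u ∉ A → f u = 0)
    (hcard : ((univ.filter fun u => 0 < f u).card : ℝ) ≤ s1) :
    ∑ u, ∑ v, P u v * (f u * f v) ≤ (1 - φ ^ 2 / 2) * ∑ u, f u ^ 2 := by
  have h1 : ∑ u, ∑ v, P u v * min (f u ^ 2) (f v ^ 2) ≤ (1 - φ) * ∑ u, f u ^ 2 := by
    refine layer P _ _ (fun u => f u ^ 2) (fun u => sq_nonneg _) rfl ?_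
    intro t ht
    rcases (univ.filter fun u => t < f u ^ 2).eq_empty_or_nonempty with h | h
    · rw [h]; simp [ins]
    · refine hA _ ?_ h ?_
      · intro u hu
        rw [mem_filter] at hu
        by_contra hcon
        rw [hfA u hcon] at hu
        have := hu.2
        norm_num at this
        linarith
      · refine le_trans ?_ hcard
        refine Nat.cast_le.2 (card_le_card ?_)
        intro u hu
        rw [mem_filter] at hu ⊢
        refine ⟨mem_univ u, ?_⟩
        rcases (hf u).eq_or_lt with h0 | h0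
        · rw [← h0] at hu
          have := hu.2
          norm_num at this
          linarith
        · exact h0
  set N := ∑ u, f u ^ 2 with hN
  set X := ∑ u, ∑ v, P u v * f u ^ 2 with hX
  set W := ∑ u, ∑ v, P u v * (f u * f v) with hW
  set K := ∑ u, ∑ v, P u v * min (f u ^ 2) (f v ^ 2) with hK
  have hN0 : 0 ≤ N := sum_nonneg fun u _ => sq_nonneg _
  have hXN : X ≤ N := by
    refine sum_le_sum fun u _ => ?_
    rw [← sum_mul]
    calc (∑ v, P u v) * f u ^ 2 ≤ 1 * f u ^ 2 :=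
          mul_le_mul_of_nonneg_right (hrow u) (sq_nonneg _)
      _ = f u ^ 2 := one_mul _
  have hX' : ∑ u, ∑ v, P u v * f v ^ 2 = X := by
    rw [sum_comm]
    exact sum_congr rfl fun u _ => sum_congr rfl fun v _ => by rw [hsym]
  have hm : ∑ u, ∑ v, P u v * (f u - f v) ^ 2 = 2 * X - 2 * W := by
    have h2 : ∑ u, ∑ v, P u v * (f u - f v) ^ 2 = ∑ u, ∑ v, P u v * f u ^ 2 +
        ∑ u, ∑ v, P u v * f v ^ 2 - 2 * ∑ u, ∑ v, P u v * (f u * f v) := by
      simp only [mul_sum, ← sum_add_distrib, ← sum_sub_distrib]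
      exact sum_congr rfl fun u _ => sum_congr rfl fun v _ => by ring
    rw [h2, hX']; ring
  have hp : ∑ u, ∑ v, P u v * (f u + f v) ^ 2 = 2 * X + 2 * W := by
    have h2 : ∑ u, ∑ v, P u v * (f u + f v) ^ 2 = ∑ u, ∑ v, P u v * f u ^ 2 +
        ∑ u, ∑ v, P u v * f v ^ 2 + 2 * ∑ u, ∑ v, P u v * (f u * f v) := by
      simp only [mul_sum, ← sum_add_distrib]
      exact sum_congr rfl fun u _ => sum_congr rfl fun v _ => by ring
    rw [h2, hX']; ring
  have hd : ∑ u, ∑ v, P u v * (|f u - f v| * (f u + f v)) = 2 * X - 2 * K := by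
    have h2 : ∀ u v, P u v * (|f u - f v| * (f u + f v)) =
        P u v * f u ^ 2 + P u v * f v ^ 2 - 2 * (P u v * min (f u ^ 2) (f v ^ 2)) := by
      intro u v
      rcases le_total (f u) (f v) with h | h
      · have h7 : f u ^ 2 ≤ f v ^ 2 := pow_le_pow_left₀ (hf u) h 2
        rw [min_eq_left h7, abs_of_nonpos (by linarith)]
        ring
      · have h7 : f v ^ 2 ≤ f u ^ 2 := pow_le_pow_left₀ (hf v) h 2
        rw [min_eq_right h7, abs_of_nonneg (by linarith)]
        ring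
    have h3 : ∑ u, ∑ v, P u v * (|f u - f v| * (f u + f v)) =
        ∑ u, ∑ v, P u v * f u ^ 2 + ∑ u, ∑ v, P u v * f v ^ 2
          - 2 * ∑ u, ∑ v, P u v * min (f u ^ 2) (f v ^ 2) := by
      simp only [mul_sum, ← sum_add_distrib, ← sum_sub_distrib]
      exact sum_congr rfl fun u _ => sum_congr rfl fun v _ => h2 u v
    rw [h3, hX']
    ring
  have hCS : (2 * X - 2 * K) ^ 2 ≤ (2 * X - 2 * W) * (2 * X + 2 * W) := by
    rw [← hm, ← hp, ← hd]
    simp only [← sum_product']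
    have h2 := sum_mul_sq_le_sq_mul_sq ((univ : Finset V) ×ˢ (univ : Finset V))
      (fun x => √(P x.1 x.2) * |f x.1 - f x.2|) (fun x => √(P x.1 x.2) * (f x.1 + f x.2))
    have h3 : ∀ x : V × V, (√(P x.1 x.2) * |f x.1 - f x.2|) * (√(P x.1 x.2) * (f x.1 + f x.2)) =
        P x.1 x.2 * (|f x.1 - f x.2| * (f x.1 + f x.2)) := by
      intro x
      have h4 := Real.mul_self_sqrt (hP x.1 x.2)
      calc _ = (√(P x.1 x.2) * √(P x.1 x.2)) * (|f x.1 - f x.2| * (f x.1 + f x.2)) := by ring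
        _ = _ := by rw [h4]
    have h4 : ∀ x : V × V, (√(P x.1 x.2) * |f x.1 - f x.2|) ^ 2 =
        P x.1 x.2 * (f x.1 - f x.2) ^ 2 := by
      intro x
      rw [mul_pow, Real.sq_sqrt (hP _ _), sq_abs]
    have h5 : ∀ x : V × V, (√(P x.1 x.2) * (f x.1 + f x.2)) ^ 2 =
        P x.1 x.2 * (f x.1 + f x.2) ^ 2 := by
      intro x
      rw [mul_pow, Real.sq_sqrt (hP _ _)]
    simp only [h3, h4, h5] at h2
    exact h2
  have hW0 : 0 ≤ W := sum_nonneg fun u _ => sum_nonneg fun v _ =>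
    mul_nonneg (hP u v) (mul_nonneg (hf u) (hf v))
  have hX0 : 0 ≤ X := sum_nonneg fun u _ => sum_nonneg fun v _ =>
    mul_nonneg (hP u v) (sq_nonneg _)
  have hWX : W ≤ X := by
    have : 0 ≤ ∑ u, ∑ v, P u v * (f u - f v) ^ 2 := sum_nonneg fun u _ => sum_nonneg fun v _ =>
      mul_nonneg (hP u v) (sq_nonneg _)
    linarith
  rcases le_or_gt X ((1 - φ) * N) with hc | hc
  · refine hWX.trans (hc.trans ?_)
    refine mul_le_mul_of_nonneg_right ?_ hN0
    nlinarith
  · have h2 : (X - (1 - φ) * N) ^ 2 ≤ X ^ 2 - W ^ 2 := by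
      have h3 : (X - (1 - φ) * N) ^ 2 ≤ (X - K) ^ 2 :=
        pow_le_pow_left₀ (by linarith) (by linarith) 2
      nlinarith
    have h3 : W ^ 2 ≤ (1 - φ ^ 2) * N ^ 2 := by
      have h4 : X ^ 2 - (X - (1 - φ) * N) ^ 2 = (1 - φ) * N * (2 * X - (1 - φ) * N) := by ring
      have h5 : (1 - φ) * N * (2 * X - (1 - φ) * N) ≤ (1 - φ) * N * (2 * N - (1 - φ) * N) :=
        mul_le_mul_of_nonneg_left (by linarith) (mul_nonneg (by linarith) hN0)
      nlinarith
    have h4 : (1 - φ ^ 2) * N ^ 2 ≤ ((1 - φ ^ 2 / 2) * N) ^ 2 := by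
      have : 0 ≤ (φ ^ 2 / 2 * N) ^ 2 := sq_nonneg _
      nlinarith
    have h5 : 0 ≤ (1 - φ ^ 2 / 2) * N := mul_nonneg (by nlinarith) hN0
    exact abs_le_of_sq_le_sq' (h3.trans h4) h5 |>.2

/-- all functions, with an error -/
theorem trunc2 (P : V → V → ℝ) (hP : ∀ u v, 0 ≤ P u v) (hsym : ∀ u v, P u v = P v u)
    (hrow : ∀ u, ∑ v, P u v ≤ 1) (A : Finset V) (s1 r : ℝ) (hr : 0 ≤ r) (hs1 : 0 < s1)
    (hray : ∀ f : V → ℝ, (∀ u, 0 ≤ f u) → (∀ u, u ∉ A → f u = 0) →
      ((univ.filter fun u => 0 < f u).card : ℝ) ≤ s1 →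
      ∑ u, ∑ v, P u v * (f u * f v) ≤ r * ∑ u, f u ^ 2)
    (f : V → ℝ) (hf : ∀ u, 0 ≤ f u) (hfA : ∀ u, u ∉ A → f u = 0) :
    ∑ u, ∑ v, P u v * (f u * f v) ≤ r * ∑ u, f u ^ 2 + 2 * (∑ u, f u) ^ 2 / s1 := by
  set F := ∑ u, f u with hF
  have hF0 : 0 ≤ F := sum_nonneg fun u _ => hf u
  set τ := F / s1 with hτ
  have hτ0 : 0 ≤ τ := by positivity
  set g : V → ℝ := fun u => max (f u - τ) 0 with hg
  set h : V → ℝ := fun u => min (f u) τ with hh
  have hg0 : ∀ u, 0 ≤ g u := fun u => le_max_right _ _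
  have hh0 : ∀ u, 0 ≤ h u := fun u => le_min (hf u) hτ0
  have hhτ : ∀ u, h u ≤ τ := fun u => min_le_right _ _
  have hsum : ∀ u, f u = g u + h u := by
    intro u
    simp only [hg, hh]
    rcases le_total (f u) τ with h1 | h1
    · rw [max_eq_right (by linarith), min_eq_left h1]; ring
    · rw [max_eq_left (by linarith), min_eq_right h1]; ring
  have hgf : ∀ u, g u ≤ f u := fun u => by have := hsum u; linarith [hh0 u]
  have hgA : ∀ u, u ∉ A → g u = 0 := by
    intro u hu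
    have := hgf u
    rw [hfA u hu] at this
    exact le_antisymm this (hg0 u)
  have hcard : ((univ.filter fun u => 0 < g u).card : ℝ) ≤ s1 := by
    by_contra hcon
    push Not at hcon
    have hpos : 0 < F := by
      by_contra hF1
      have hF2 : F = 0 := le_antisymm (not_lt.1 hF1) hF0
      have hz : ∀ u, f u = 0 := fun u =>
        (sum_eq_zero_iff_of_nonneg (fun u _ => hf u)).1 hF2 u (mem_univ u)
      have hz2 : (univ.filter fun u => 0 < g u) = ∅ := by
        rw [filter_eq_empty_iff]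
        intro u _
        have := hgf u
        rw [hz u] at this
        exact not_lt.2 this
      rw [hz2] at hcon
      simp at hcon
      linarith
    have hτ1 : 0 < τ := by positivity
    have h1 : τ * (univ.filter fun u => 0 < g u).card ≤ F := by
      rw [hF]
      calc τ * (univ.filter fun u => 0 < g u).card
          = ∑ u ∈ univ.filter (fun u => 0 < g u), τ := by rw [sum_const, nsmul_eq_mul]; ring
        _ ≤ ∑ u ∈ univ.filter (fun u => 0 < g u), f u := by
            refine sum_le_sum fun u hu => ?_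
            rw [mem_filter] at hu
            have := hu.2
            simp only [hg] at this
            rcases lt_max_iff.1 this with h2 | h2
            · linarith
            · exact absurd h2 (lt_irrefl _)
        _ ≤ ∑ u, f u := sum_le_sum_of_subset_of_nonneg (subset_univ _) fun u _ _ => hf u
    have h2 : τ * s1 < τ * (univ.filter fun u => 0 < g u).card :=
      mul_lt_mul_of_pos_left hcon hτ1
    have h3 : τ * s1 = F := by rw [hτ]; field_simp
    linarith
  have h1 := hray g hg0 hgA hcard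
  have h2 : ∑ u, ∑ v, P u v * (g u * h v) ≤ τ * ∑ u, g u := by
    rw [mul_sum]
    refine sum_le_sum fun u _ => ?_
    calc ∑ v, P u v * (g u * h v) ≤ ∑ v, P u v * (g u * τ) :=
          sum_le_sum fun v _ => mul_le_mul_of_nonneg_left
            (mul_le_mul_of_nonneg_left (hhτ v) (hg0 u)) (hP u v)
      _ = (∑ v, P u v) * (g u * τ) := by rw [sum_mul]
      _ ≤ 1 * (g u * τ) := mul_le_mul_of_nonneg_right (hrow u) (mul_nonneg (hg0 u) hτ0)
      _ = τ * g u := by ring
  have h3 : ∑ u, ∑ v, P u v * (h u * g v) ≤ τ * ∑ u, g u := by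
    rw [sum_comm]
    refine le_trans (le_of_eq ?_) h2
    refine sum_congr rfl fun u _ => sum_congr rfl fun v _ => ?_
    rw [hsym v u]; ring
  have h4 : ∑ u, ∑ v, P u v * (h u * h v) ≤ τ * ∑ u, h u := by
    rw [mul_sum]
    refine sum_le_sum fun u _ => ?_
    calc ∑ v, P u v * (h u * h v) ≤ ∑ v, P u v * (h u * τ) :=
          sum_le_sum fun v _ => mul_le_mul_of_nonneg_left
            (mul_le_mul_of_nonneg_left (hhτ v) (hh0 u)) (hP u v)
      _ = (∑ v, P u v) * (h u * τ) := by rw [sum_mul]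
      _ ≤ 1 * (h u * τ) := mul_le_mul_of_nonneg_right (hrow u) (mul_nonneg (hh0 u) hτ0)
      _ = τ * h u := by ring
  have h5 : ∑ u, ∑ v, P u v * (f u * f v) = ∑ u, ∑ v, P u v * (g u * g v)
      + ∑ u, ∑ v, P u v * (g u * h v) + ∑ u, ∑ v, P u v * (h u * g v)
      + ∑ u, ∑ v, P u v * (h u * h v) := by
    simp only [← sum_add_distrib]
    refine sum_congr rfl fun u _ => sum_congr rfl fun v _ => ?_
    rw [hsum u, hsum v]; ring
  have h6 : ∑ u, g u ^ 2 ≤ ∑ u, f u ^ 2 :=
    sum_le_sum fun u _ => pow_le_pow_left₀ (hg0 u) (hgf u) 2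
  have h7 : F = ∑ u, g u + ∑ u, h u := by
    rw [hF, ← sum_add_distrib]
    exact sum_congr rfl fun u _ => hsum u
  have h8 : 0 ≤ ∑ u, h u := sum_nonneg fun u _ => hh0 u
  have h9 : 2 * F ^ 2 / s1 = 2 * (τ * F) := by rw [hτ]; ring
  rw [h5, h9]
  have h10 : τ * F = τ * ∑ u, g u + τ * ∑ u, h u := by rw [h7]; ring
  have h11 := mul_le_mul_of_nonneg_left h6 hr
  have h12 : 0 ≤ τ * ∑ u, h u := mul_nonneg hτ0 h8
  linarith

/-- the lazy kernel -/
noncomputable def lz (P : V → V → ℝ) (u v : V) : ℝ := (if u = v then 1 / 2 else 0) + P u v / 2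

section
variable (P : V → V → ℝ) (hP : ∀ u v, 0 ≤ P u v) (hsym : ∀ u v, P u v = P v u)
    (hrow : ∀ u, ∑ v, P u v ≤ 1) (A : Finset V)

include hP in
theorem lz_nonneg (u v : V) : 0 ≤ lz P u v := by
  unfold lz
  have := hP u v
  split_ifs <;> linarith

include hsym in
theorem lz_symm (u v : V) : lz P u v = lz P v u := by
  unfold lz
  rw [hsym u v]
  simp only [eq_comm]

include hrow in
theorem lz_row (u : V) : ∑ v, lz P u v ≤ 1 := by
  unfold lz
  rw [sum_add_distrib, ← sum_div]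
  have h := hrow u
  simp only [sum_ite_eq, mem_univ, if_true]
  linarith

include hP hsym hrow in
/-- one step of the lazy walk -/
theorem lz_step (s1 φ : ℝ) (hφ : 0 ≤ φ) (hφ1 : φ ≤ 1) (hs1 : 0 < s1)
    (hA : ∀ S : Finset V, S ⊆ A → S.Nonempty → (S.card : ℝ) ≤ s1 → ins P S ≤ (1 - φ) * S.card)
    (t : ℕ) (u : V) (hu : u ∈ A) :
    rsq (lz P) A (t + 1) u ≤ (1 - φ ^ 2 / 4) * rsq (lz P) A t u + 1 / s1 := by
  set f : V → ℝ := fun v => (rst (lz P) A ^ t) u v with hf
  have hl0 := lz_nonneg P hP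
  have hls := lz_symm P hsym
  have hlr := lz_row P hrow
  have hf0 : ∀ v, 0 ≤ f v := fun v => pw_nonneg (lz P) hl0 A t u v
  have hfA : ∀ v, v ∉ A → f v = 0 := fun v hv => pw_zero (lz P) A t u v hu hv
  have hf1 : ∑ v, f v ≤ 1 := pw_row (lz P) hl0 hlr A t u
  set g : V → ℝ := fun v => ∑ x, f x * rst P A x v with hg
  have hstep : ∀ v, (rst (lz P) A ^ (t + 1)) u v = f v / 2 + g v / 2 := by
    intro v
    rw [pw_succ]
    have h1 : ∀ x, (rst (lz P) A ^ t) u x * rst (lz P) A x v =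
        (if x = v then f x / 2 else 0) + f x * rst P A x v / 2 := by
      intro x
      change f x * rst (lz P) A x v = _
      rw [rst_apply, rst_apply]
      unfold lz
      by_cases hxA : x ∈ A
      · by_cases hvA : v ∈ A
        · rw [if_pos (⟨hxA, hvA⟩ : x ∈ A ∧ v ∈ A), if_pos (⟨hxA, hvA⟩ : x ∈ A ∧ v ∈ A)]
          by_cases hxv : x = v
          · rw [if_pos hxv, if_pos hxv]; ring
          · rw [if_neg hxv, if_neg hxv]; ring
        · have h9 : ¬ (x ∈ A ∧ v ∈ A) := fun h => hvA h.2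
          have h10 : x ≠ v := fun h => hvA (h ▸ hxA)
          rw [if_neg h9, if_neg h9, if_neg h10]; ring
      · have h9 : ¬ (x ∈ A ∧ v ∈ A) := fun h => hxA h.1
        rw [if_neg h9, if_neg h9, hfA x hxA]
        by_cases hxv : x = v
        · rw [if_pos hxv]; ring
        · rw [if_neg hxv]; ring
    rw [sum_congr rfl fun x _ => h1 x, sum_add_distrib]
    simp only [sum_ite_eq', mem_univ, if_true]
    rw [← sum_div]
  -- the norm of g
  have hgn : ∑ v, g v ^ 2 ≤ ∑ v, f v ^ 2 := by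
    have h1 : ∀ v, g v ^ 2 ≤ ∑ x, f x ^ 2 * rst P A x v := by
      intro v
      have h2 := sum_mul_sq_le_sq_mul_sq univ (fun x => f x * √(rst P A x v))
        (fun x => √(rst P A x v))
      have h3 : ∀ x, f x * √(rst P A x v) * √(rst P A x v) = f x * rst P A x v := by
        intro x
        rw [mul_assoc, Real.mul_self_sqrt (rst_nonneg P hP A x v)]
      have h4 : ∀ x, (f x * √(rst P A x v)) ^ 2 = f x ^ 2 * rst P A x v := by
        intro x
        rw [mul_pow, Real.sq_sqrt (rst_nonneg P hP A x v)]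
      have h5 : ∀ x, √(rst P A x v) ^ 2 = rst P A x v := fun x =>
        Real.sq_sqrt (rst_nonneg P hP A x v)
      simp only [h3, h4, h5] at h2
      refine h2.trans ?_
      have h6 : ∑ x, rst P A x v ≤ 1 := by
        rw [sum_congr rfl fun x _ => rst_symm P hsym A x v]
        exact rst_row P hP hrow A v
      have h7 : 0 ≤ ∑ x, f x ^ 2 * rst P A x v :=
        sum_nonneg fun x _ => mul_nonneg (sq_nonneg _) (rst_nonneg P hP A x v)
      nlinarith
    refine (sum_le_sum fun v _ => h1 v).trans ?_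
    rw [sum_comm]
    refine sum_le_sum fun x _ => ?_
    rw [← mul_sum]
    have h8 := rst_row P hP hrow A x
    nlinarith [sq_nonneg (f x)]
  -- the quadratic form
  have hfg : ∑ v, f v * g v = ∑ x, ∑ v, P x v * (f x * f v) := by
    have h1 : ∀ v, f v * g v = ∑ x, P x v * (f x * f v) := by
      intro v
      simp only [hg, mul_sum]
      refine sum_congr rfl fun x _ => ?_
      rw [rst_apply]
      by_cases hxA : x ∈ A
      · by_cases hvA : v ∈ A
        · rw [if_pos ⟨hxA, hvA⟩]; ring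
        · rw [hfA v hvA]; ring
      · rw [hfA x hxA]; ring
    rw [sum_congr rfl fun v _ => h1 v, sum_comm]
  have hquad := trunc2 P hP hsym hrow A s1 (1 - φ ^ 2 / 2) (by nlinarith) hs1
    (fun f h0 h1 h2 => ray2 P hP hsym hrow A s1 φ hφ hφ1 hA f h0 h1 h2) f hf0 hfA
  have h1 : rsq (lz P) A (t + 1) u = ∑ v, (f v / 2 + g v / 2) ^ 2 := by
    unfold rsq
    exact sum_congr rfl fun v _ => by rw [hstep v]
  have h2 : rsq (lz P) A t u = ∑ v, f v ^ 2 := rfl
  have h3 : ∑ v, (f v / 2 + g v / 2) ^ 2 =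
      (∑ v, f v ^ 2 + ∑ v, g v ^ 2 + 2 * ∑ v, f v * g v) / 4 := by
    rw [mul_sum, ← sum_add_distrib, ← sum_add_distrib, sum_div]
    exact sum_congr rfl fun v _ => by ring
  have h4 : 2 * (∑ v, f v) ^ 2 / s1 ≤ 2 / s1 := by
    refine div_le_div_of_nonneg_right ?_ hs1.le
    have : 0 ≤ ∑ v, f v := sum_nonneg fun v _ => hf0 v
    nlinarith
  rw [h1, h2, h3, hfg]
  have h5 : (2 : ℝ) / s1 = 2 * (1 / s1) := by ring
  rw [h5] at h4
  linarith

include hP hsym hrow in
/-- decay of the rows -/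
theorem lz_decay (s1 φ : ℝ) (hφ : 0 < φ) (hφ1 : φ ≤ 1) (hs1 : 0 < s1)
    (hA : ∀ S : Finset V, S ⊆ A → S.Nonempty → (S.card : ℝ) ≤ s1 → ins P S ≤ (1 - φ) * S.card)
    (t : ℕ) (u : V) (hu : u ∈ A) :
    rsq (lz P) A t u ≤ (1 - φ ^ 2 / 4) ^ t + 4 / (φ ^ 2 * s1) := by
  have h0 : 0 ≤ 4 / (φ ^ 2 * s1) := by positivity
  induction t with
  | zero =>
    have h1 : rsq (lz P) A 0 u = 1 := by
      unfold rsq
      simp [Matrix.one_apply]
    rw [h1, pow_zero]
    linarith
  | succ t ih =>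
    have h1 := lz_step P hP hsym hrow A s1 φ hφ.le hφ1 hs1 hA t u hu
    have h2 : 0 ≤ 1 - φ ^ 2 / 4 := by nlinarith
    have h3 := mul_le_mul_of_nonneg_left ih h2
    have h4 : (1 - φ ^ 2 / 4) * (4 / (φ ^ 2 * s1)) + 1 / s1 = 4 / (φ ^ 2 * s1) := by
      field_simp
      ring
    calc rsq (lz P) A (t + 1) u ≤ (1 - φ ^ 2 / 4) * rsq (lz P) A t u + 1 / s1 := h1
      _ ≤ (1 - φ ^ 2 / 4) * ((1 - φ ^ 2 / 4) ^ t + 4 / (φ ^ 2 * s1)) + 1 / s1 := by linarith
      _ = (1 - φ ^ 2 / 4) ^ (t + 1) + ((1 - φ ^ 2 / 4) * (4 / (φ ^ 2 * s1)) + 1 / s1) := by ring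
      _ = _ := by rw [h4]

end

end

end Run7.h881.SE
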