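import Pool.Agent.Run7.h881.SE.Tr
import Pool.Agent.Run7.h881.SA.Samp
import Pool.Agent.Run7.h881.SA.Seq

/-!
Correlations along the killed walk of a kernel which is positive semidefinite on samples.
-/

set_option autoImplicit false
set_option linter.unusedSectionVars false

namespace Run7.h881.SE

open Finset Run7.h881.SA

section
variable {V : Type} [Fintype V] [DecidableEq V]

/-- the correlation after `t` steps -/
noncomputable def cor (P : V → V → ℝ) (A : Finset V) (G : V → V → ℝ) (t : ℕ) : ℝ :=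
  ∑ u ∈ A, ∑ v ∈ A, (rst P A ^ t) u v * G u v

/-- the trace on `A` -/
def trA (A : Finset V) (G : V → V → ℝ) : ℝ := ∑ u ∈ A, G u u

variable (P : V → V → ℝ) (hP : ∀ u v, 0 ≤ P u v) (hsym : ∀ u v, P u v = P v u)
    (hrow : ∀ u, ∑ v, P u v ≤ 1) (A : Finset V) (G : V → V → ℝ)

theorem cor_zero : cor P A G 0 = trA A G := by
  unfold cor trA
  refine sum_congr rfl fun u hu => ?_
  rw [sum_eq_single u]
  · rw [pow_zero, Matrix.one_apply_eq, one_mul]
  · intro v _ hv
    rw [pow_zero, Matrix.one_apply_ne hv.symm, zero_mul]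
  · intro h; exact absurd hu h

theorem cor_one : cor P A G 1 = ∑ u ∈ A, ∑ v ∈ A, P u v * G u v := by
  unfold cor
  refine sum_congr rfl fun u hu => sum_congr rfl fun v hv => ?_
  rw [pow_one, rst_apply, if_pos ⟨hu, hv⟩]

include hsym in
theorem pw_add (i j : ℕ) (u v : V) (hu : u ∈ A) :
    (rst P A ^ (i + j)) u v = ∑ x ∈ A, (rst P A ^ i) x u * (rst P A ^ j) x v := by
  rw [pow_add, Matrix.mul_apply, ← sum_subset (subset_univ A)]
  · exact sum_congr rfl fun x _ => by rw [pw_symm P hsym A i u x]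
  · intro x _ hx
    rw [pw_zero P A i u x hu hx, zero_mul]

include hsym in
/-- correlations with two rows from a common starting point -/
theorem cor_add (i j : ℕ) :
    cor P A G (i + j) = ∑ x ∈ A, ∑ u ∈ A, ∑ v ∈ A,
      (rst P A ^ i) x u * (rst P A ^ j) x v * G u v := by
  unfold cor
  have h2 : ∀ u ∈ A, ∀ v ∈ A, (rst P A ^ (i + j)) u v * G u v =
      ∑ x ∈ A, (rst P A ^ i) x u * (rst P A ^ j) x v * G u v := by
    intro u hu v _
    rw [pw_add P hsym A i j u v hu, sum_mul]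
  rw [sum_congr rfl fun u hu => sum_congr rfl fun v hv => h2 u hu v hv]
  calc ∑ u ∈ A, ∑ v ∈ A, ∑ x ∈ A, (rst P A ^ i) x u * (rst P A ^ j) x v * G u v
      = ∑ u ∈ A, ∑ x ∈ A, ∑ v ∈ A, (rst P A ^ i) x u * (rst P A ^ j) x v * G u v :=
        sum_congr rfl fun u _ => sum_comm
    _ = _ := sum_comm

include hP hsym hrow in
/-- **approximate convexity** -/
theorem conv (M : ℕ) (hM : 2 ≤ M) (hG : PsdM M G) (hG0 : ∀ u, 0 ≤ G u u)
    (hGs : ∀ u v, G u v = G v u) (i j : ℕ) (α β : ℝ)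
    (hα : 0 ≤ α) (hβ : 0 ≤ β) :
    0 ≤ α ^ 2 * (cor P A G (i + i) + 2 * (trA A G / (M - 1)))
      - 2 * α * β * cor P A G (i + j)
      + β ^ 2 * (cor P A G (j + j) + 2 * (trA A G / (M - 1))) := by
  have hM1 : (0 : ℝ) < (M : ℝ) - 1 := by
    have : (2 : ℝ) ≤ M := by exact_mod_cast hM
    linarith
  set F : V → V → ℝ := fun x u =>
    if u ∈ A then α * (rst P A ^ i) x u - β * (rst P A ^ j) x u else 0 with hF
  have hFabs : ∀ x u, |F x u| ≤ if u ∈ A then α * (rst P A ^ i) x u + β * (rst P A ^ j) x u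
      else 0 := by
    intro x u
    simp only [hF]
    split_ifs
    · have h1 : 0 ≤ α * (rst P A ^ i) x u := mul_nonneg hα (pw_nonneg P hP A i x u)
      have h2 : 0 ≤ β * (rst P A ^ j) x u := mul_nonneg hβ (pw_nonneg P hP A j x u)
      rw [abs_le]
      constructor <;> linarith
    · simp
  -- the L1 norm
  have hL1 : ∀ x, ∑ u, |F x u| ≤ α + β := by
    intro x
    refine (sum_le_sum fun u _ => hFabs x u).trans ?_
    rw [← sum_filter]
    calc ∑ u ∈ univ.filter (fun u => u ∈ A), (α * (rst P A ^ i) x u + β * (rst P A ^ j) x u)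
        ≤ ∑ u, (α * (rst P A ^ i) x u + β * (rst P A ^ j) x u) :=
          sum_le_sum_of_subset_of_nonneg (subset_univ _) fun u _ _ =>
            add_nonneg (mul_nonneg hα (pw_nonneg P hP A i x u))
              (mul_nonneg hβ (pw_nonneg P hP A j x u))
      _ = α * ∑ u, (rst P A ^ i) x u + β * ∑ u, (rst P A ^ j) x u := by
          rw [mul_sum, mul_sum, ← sum_add_distrib]
      _ ≤ α * 1 + β * 1 := add_le_add (mul_le_mul_of_nonneg_left (pw_row P hP hrow A i x) hα)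
          (mul_le_mul_of_nonneg_left (pw_row P hP hrow A j x) hβ)
      _ = α + β := by ring
  have hs := fun x => samp G M hM hG (F x)
  have hD0 : ∀ x, 0 ≤ ∑ u, |F x u| * G u u := fun x =>
    sum_nonneg fun u _ => mul_nonneg (abs_nonneg _) (hG0 u)
  -- sum over the starting points
  have h1 : 0 ≤ ∑ x ∈ A, (((M : ℝ) - 1) * (∑ u, ∑ v, F x u * F x v * G u v)
      + (α + β) * ∑ u, |F x u| * G u u) := by
    refine sum_nonneg fun x _ => ?_
    refine (hs x).trans (add_le_add le_rfl ?_)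
    exact mul_le_mul_of_nonneg_right (hL1 x) (hD0 x)
  have h2 : ∑ x ∈ A, (∑ u, ∑ v, F x u * F x v * G u v) =
      α ^ 2 * cor P A G (i + i) - 2 * α * β * cor P A G (i + j)
      + β ^ 2 * cor P A G (j + j) := by
    have h3 : ∀ x, ∑ u, ∑ v, F x u * F x v * G u v =
        ∑ u ∈ A, ∑ v ∈ A, (α * (rst P A ^ i) x u - β * (rst P A ^ j) x u) *
          (α * (rst P A ^ i) x v - β * (rst P A ^ j) x v) * G u v := by
      intro x
      symm
      rw [← sum_subset (subset_univ A)]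
      · refine sum_congr rfl fun u hu => ?_
        rw [← sum_subset (subset_univ A)]
        · refine sum_congr rfl fun v hv => ?_
          simp only [hF]
          rw [if_pos hu, if_pos hv]
        · intro v _ hv
          simp only [hF]
          rw [if_neg hv]; ring
      · intro u _ hu
        refine sum_eq_zero fun v _ => ?_
        simp only [hF]
        rw [if_neg hu]; ring
    have h4 : ∀ x, ∑ u, ∑ v, F x u * F x v * G u v =
        α ^ 2 * (∑ u ∈ A, ∑ v ∈ A, (rst P A ^ i) x u * (rst P A ^ i) x v * G u v)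
        - 2 * α * β * (∑ u ∈ A, ∑ v ∈ A, (rst P A ^ i) x u * (rst P A ^ j) x v * G u v)
        + β ^ 2 * (∑ u ∈ A, ∑ v ∈ A, (rst P A ^ j) x u * (rst P A ^ j) x v * G u v) := by
      intro x
      have h5 : ∑ u ∈ A, ∑ v ∈ A, (rst P A ^ j) x u * (rst P A ^ i) x v * G u v =
          ∑ u ∈ A, ∑ v ∈ A, (rst P A ^ i) x u * (rst P A ^ j) x v * G u v := by
        rw [sum_comm]
        refine sum_congr rfl fun u _ => sum_congr rfl fun v _ => ?_
        rw [hGs v u]; ring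
      have h6 : ∑ u ∈ A, ∑ v ∈ A, (α * (rst P A ^ i) x u - β * (rst P A ^ j) x u) *
          (α * (rst P A ^ i) x v - β * (rst P A ^ j) x v) * G u v =
          α ^ 2 * (∑ u ∈ A, ∑ v ∈ A, (rst P A ^ i) x u * (rst P A ^ i) x v * G u v)
          - α * β * (∑ u ∈ A, ∑ v ∈ A, (rst P A ^ i) x u * (rst P A ^ j) x v * G u v)
          - α * β * (∑ u ∈ A, ∑ v ∈ A, (rst P A ^ j) x u * (rst P A ^ i) x v * G u v)
          + β ^ 2 * (∑ u ∈ A, ∑ v ∈ A, (rst P A ^ j) x u * (rst P A ^ j) x v * G u v) := by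
        simp only [mul_sum]
        simp only [← sum_sub_distrib, ← sum_add_distrib]
        exact sum_congr rfl fun u _ => sum_congr rfl fun v _ => by ring
      rw [h3 x, h6, h5]
      ring
    rw [cor_add P hsym A G i i, cor_add P hsym A G i j, cor_add P hsym A G j j]
    simp only [h4]
    rw [mul_sum, mul_sum, mul_sum, ← sum_sub_distrib, ← sum_add_distrib]
  have h3 : ∑ x ∈ A, ∑ u, |F x u| * G u u ≤ (α + β) * trA A G := by
    have h4 : ∀ x ∈ A, ∑ u, |F x u| * G u u ≤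
        ∑ u ∈ A, G u u * (α * (rst P A ^ i) x u + β * (rst P A ^ j) x u) := by
      intro x _
      rw [← sum_subset (subset_univ A)]
      · refine sum_le_sum fun u hu => ?_
        have h5 := hFabs x u
        rw [if_pos hu] at h5
        have h6 := mul_le_mul_of_nonneg_right h5 (hG0 u)
        refine h6.trans (le_of_eq (by ring))
      · intro u _ hu
        simp only [hF]
        rw [if_neg hu]; simp
    refine (sum_le_sum h4).trans ?_
    rw [sum_comm]
    unfold trA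
    rw [mul_sum]
    refine sum_le_sum fun u hu => ?_
    rw [← mul_sum, sum_add_distrib, ← mul_sum, ← mul_sum]
    have hr : ∀ t : ℕ, ∑ x ∈ A, (rst P A ^ t) x u ≤ 1 := by
      intro t
      rw [sum_congr rfl fun x _ => pw_symm P hsym A t x u]
      refine le_trans ?_ (pw_row P hP hrow A t u)
      exact sum_le_sum_of_subset_of_nonneg (subset_univ A) fun x _ _ => pw_nonneg P hP A t u x
    have h5 := hr i
    have h6 := hr j
    have h7 := hG0 u
    have h8 : α * ∑ x ∈ A, (rst P A ^ i) x u + β * ∑ x ∈ A, (rst P A ^ j) x u ≤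
        α + β := by nlinarith
    calc G u u * (α * ∑ x ∈ A, (rst P A ^ i) x u + β * ∑ x ∈ A, (rst P A ^ j) x u)
        ≤ G u u * (α + β) := mul_le_mul_of_nonneg_left h8 h7
      _ = _ := by ring
  have h4 : ∑ x ∈ A, (((M : ℝ) - 1) * (∑ u, ∑ v, F x u * F x v * G u v)
      + (α + β) * ∑ u, |F x u| * G u u) =
      ((M : ℝ) - 1) * (∑ x ∈ A, (∑ u, ∑ v, F x u * F x v * G u v)) +
      (α + β) * ∑ x ∈ A, ∑ u, |F x u| * G u u := by
    rw [mul_sum, mul_sum, ← sum_add_distrib]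
  rw [h4, h2] at h1
  have h5 : 0 ≤ α + β := by linarith
  have h6 := mul_le_mul_of_nonneg_left h3 h5
  have htr : 0 ≤ trA A G := sum_nonneg fun u _ => hG0 u
  have h7 : (α + β) * ((α + β) * trA A G) ≤ (2 * α ^ 2 + 2 * β ^ 2) * trA A G := by
    have : (α + β) * (α + β) ≤ 2 * α ^ 2 + 2 * β ^ 2 := by nlinarith [sq_nonneg (α - β)]
    rw [← mul_assoc]
    exact mul_le_mul_of_nonneg_right this htr
  have h8 : 0 ≤ ((M : ℝ) - 1) * (α ^ 2 * cor P A G (i + i) - 2 * α * β * cor P A G (i + j)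
      + β ^ 2 * cor P A G (j + j)) + (2 * α ^ 2 + 2 * β ^ 2) * trA A G := by linarith
  have h9 : ((M : ℝ) - 1) * (α ^ 2 * (cor P A G (i + i) + 2 * (trA A G / (M - 1)))
      - 2 * α * β * cor P A G (i + j)
      + β ^ 2 * (cor P A G (j + j) + 2 * (trA A G / (M - 1)))) =
      ((M : ℝ) - 1) * (α ^ 2 * cor P A G (i + i) - 2 * α * β * cor P A G (i + j)
      + β ^ 2 * cor P A G (j + j)) + (2 * α ^ 2 + 2 * β ^ 2) * trA A G := by
    field_simp
    ring
  rw [← h9] at h8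
  exact nonneg_of_mul_nonneg_right h8 hM1

include hP hsym hrow in
/-- **global correlation** -/
theorem glob (s1 lam : ℝ) (hlam : 0 < lam) (hlam1 : lam ≤ 1 / 4) (hs1 : 0 < s1)
    (hA : ∀ S : Finset V, S ⊆ A → S.Nonempty → (S.card : ℝ) ≤ s1 →
      ins P S ≤ lam ^ 2 / 2 * S.card)
    (M : ℕ) (hM : 2 ≤ M) (hG : PsdM M G) (hG0 : ∀ u, 0 ≤ G u u)
    (hGs : ∀ u v, G u v = G v u) (b : ℝ) (hb0 : 0 ≤ b) (hb1 : b < 1)
    (h1 : (1 - b) * trA A G ≤ ∑ u ∈ A, ∑ v ∈ A, P u v * G u v)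
    (T : ℕ) (hT : 1 ≤ T) (hMT : 32 * (T : ℝ) ^ 2 ≤ (M - 1) * (1 - b) ^ (2 * T)) :
    trA A G ^ 2 * (1 - b) ^ (4 * T) / 64 ≤
      (A.card * ((2 * lam) ^ (2 * T) + 8 / s1)) * ∑ u ∈ A, ∑ v ∈ A, G u v ^ 2 := by
  have htr : 0 ≤ trA A G := sum_nonneg fun u _ => hG0 u
  have hfr := frob P hP hsym hrow A s1 lam hlam hlam1 hs1 hA (T + T)
  rw [← two_mul] at hfr
  rcases htr.eq_or_lt with h0 | h0
  · rw [← h0]
    have h2 : 0 ≤ (A.card * ((2 * lam) ^ (2 * T) + 8 / s1)) * ∑ u ∈ A, ∑ v ∈ A, G u v ^ 2 := by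
      refine mul_nonneg (by positivity) (sum_nonneg fun u _ => sum_nonneg fun v _ => sq_nonneg _)
    simpa using h2
  · have hM1 : (0 : ℝ) < (M : ℝ) - 1 := by
      have : (2 : ℝ) ≤ M := by exact_mod_cast hM
      linarith
    have h2 := seq_lower (cor P A G) (trA A G) b ((M : ℝ) - 1) T h0 hb0 hb1 hM1 (cor_zero P A G)
      (by rw [cor_one]; exact h1)
      (fun i j α β hα hβ => conv P hP hsym hrow A G M hM hG hG0 hGs i j α β hα hβ) hT hMT
    have h3 : cor P A G (T + T) ^ 2 ≤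
        (∑ u ∈ A, ∑ v ∈ A, (rst P A ^ (T + T)) u v ^ 2) * ∑ u ∈ A, ∑ v ∈ A, G u v ^ 2 := by
      unfold cor
      rw [← sum_product', ← sum_product', ← sum_product']
      exact sum_mul_sq_le_sq_mul_sq _ _ _
    rw [← two_mul] at h2 h3
    have h4 : 0 ≤ trA A G * (1 - b) ^ (2 * T) / 8 := by
      have : 0 < 1 - b := by linarith
      positivity
    have h5 := pow_le_pow_left₀ h4 h2 2
    have h6 : (trA A G * (1 - b) ^ (2 * T) / 8) ^ 2 = trA A G ^ 2 * (1 - b) ^ (4 * T) / 64 := by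
      rw [div_pow, mul_pow, ← pow_mul, show 2 * T * 2 = 4 * T by ring,
        show (8 : ℝ) ^ 2 = 64 by norm_num]
    rw [h6] at h5
    refine h5.trans (h3.trans ?_)
    exact mul_le_mul_of_nonneg_right hfr (sum_nonneg fun u _ => sum_nonneg fun v _ => sq_nonneg _)

include hP hsym hrow in
/-- **global correlation**, weighted: the bound depends only on the total weight -/
theorem globw (s1 lam : ℝ) (hlam : 0 < lam) (hlam1 : lam ≤ 1 / 4) (hs1 : 0 < s1)
    (hA : ∀ S : Finset V, S ⊆ A → S.Nonempty → (S.card : ℝ) ≤ s1 →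
      ins P S ≤ lam ^ 2 / 2 * S.card)
    (M : ℕ) (hM : 2 ≤ M) (hG : PsdM M G) (hG0 : ∀ u, 0 ≤ G u u)
    (hGs : ∀ u v, G u v = G v u) (b : ℝ) (hb0 : 0 ≤ b) (hb1 : b < 1)
    (h1 : (1 - b) * trA A G ≤ ∑ u ∈ A, ∑ v ∈ A, P u v * G u v)
    (T : ℕ) (hT : 1 ≤ T) (hMT : 32 * (T : ℝ) ^ 2 ≤ (M - 1) * (1 - b) ^ (2 * T))
    (m : V → ℝ) (hm0 : ∀ u, 0 ≤ m u) (hmz : ∀ u v, m u = 0 → G u v = 0) :
    trA A G ^ 2 * (1 - b) ^ (4 * T) / 64 ≤
      ((∑ u ∈ A, m u) * ((2 * lam) ^ (2 * T) + 8 / s1)) * ∑ u ∈ A, ∑ v ∈ A, G u v ^ 2 / m u := by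
  have htr : 0 ≤ trA A G := sum_nonneg fun u _ => hG0 u
  have hY0 : 0 ≤ ∑ u ∈ A, ∑ v ∈ A, G u v ^ 2 / m u :=
    sum_nonneg fun u _ => sum_nonneg fun v _ => div_nonneg (sq_nonneg _) (hm0 u)
  have hfr : ∑ u ∈ A, ∑ v ∈ A, ((rst P A ^ (T + T)) u v * √(m u)) ^ 2 ≤
      (∑ u ∈ A, m u) * ((2 * lam) ^ (T + T) + 8 / s1) := by
    rw [sum_mul]
    refine sum_le_sum fun u hu => ?_
    have h2 : ∀ v, ((rst P A ^ (T + T)) u v * √(m u)) ^ 2 = m u * (rst P A ^ (T + T)) u v ^ 2 := by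
      intro v
      rw [mul_pow, Real.sq_sqrt (hm0 u)]; ring
    simp only [h2]
    rw [← mul_sum]
    refine mul_le_mul_of_nonneg_left ?_ (hm0 u)
    refine le_trans ?_ (rsq_decay P hP hsym hrow A s1 lam hlam hlam1 hs1 hA (T + T) u hu)
    exact sum_le_sum_of_subset_of_nonneg (subset_univ A) fun v _ _ => sq_nonneg _
  rw [← two_mul] at hfr
  rcases htr.eq_or_lt with h0 | h0
  · rw [← h0]
    have h2 : 0 ≤ ((∑ u ∈ A, m u) * ((2 * lam) ^ (2 * T) + 8 / s1)) *
        ∑ u ∈ A, ∑ v ∈ A, G u v ^ 2 / m u := by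
      refine mul_nonneg (mul_nonneg (sum_nonneg fun u _ => hm0 u) (by positivity)) hY0
    simpa using h2
  · have hM1 : (0 : ℝ) < (M : ℝ) - 1 := by
      have : (2 : ℝ) ≤ M := by exact_mod_cast hM
      linarith
    have h2 := seq_lower (cor P A G) (trA A G) b ((M : ℝ) - 1) T h0 hb0 hb1 hM1 (cor_zero P A G)
      (by rw [cor_one]; exact h1)
      (fun i j α β hα hβ => conv P hP hsym hrow A G M hM hG hG0 hGs i j α β hα hβ) hT hMT
    have h3 : cor P A G (T + T) ^ 2 ≤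
        (∑ u ∈ A, ∑ v ∈ A, ((rst P A ^ (T + T)) u v * √(m u)) ^ 2) *
          ∑ u ∈ A, ∑ v ∈ A, (G u v / √(m u)) ^ 2 := by
      have h4 : cor P A G (T + T) = ∑ u ∈ A, ∑ v ∈ A,
          ((rst P A ^ (T + T)) u v * √(m u)) * (G u v / √(m u)) := by
        unfold cor
        refine sum_congr rfl fun u _ => sum_congr rfl fun v _ => ?_
        rcases (hm0 u).eq_or_lt with h | h
        · rw [hmz u v h.symm]; simp
        · have h5 : √(m u) ≠ 0 := (Real.sqrt_pos.2 h).ne'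
          field_simp
      rw [h4, ← sum_product', ← sum_product', ← sum_product']
      exact sum_mul_sq_le_sq_mul_sq _ _ _
    have h3' : ∑ u ∈ A, ∑ v ∈ A, (G u v / √(m u)) ^ 2 = ∑ u ∈ A, ∑ v ∈ A, G u v ^ 2 / m u := by
      refine sum_congr rfl fun u _ => sum_congr rfl fun v _ => ?_
      rw [div_pow, Real.sq_sqrt (hm0 u)]
    rw [h3'] at h3
    rw [← two_mul] at h2 h3
    have h4 : 0 ≤ trA A G * (1 - b) ^ (2 * T) / 8 := by
      have : 0 < 1 - b := by linarith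
      positivity
    have h5 := pow_le_pow_left₀ h4 h2 2
    have h6 : (trA A G * (1 - b) ^ (2 * T) / 8) ^ 2 = trA A G ^ 2 * (1 - b) ^ (4 * T) / 64 := by
      rw [div_pow, mul_pow, ← pow_mul, show 2 * T * 2 = 4 * T by ring,
        show (8 : ℝ) ^ 2 = 64 by norm_num]
    rw [h6] at h5
    refine h5.trans (h3.trans ?_)
    exact mul_le_mul_of_nonneg_right hfr hY0

end

end Run7.h881.SE
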