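import Pool.Agent.Run7.h881.SE.Rnd

/-!
The dichotomy for sets of small density: a relaxation of inner density `κ`, where `κ` may be small.
-/

set_option autoImplicit false
set_option linter.unusedSectionVars false

namespace Run7.h881.SE

open Finset Run7.h881.SA

section
variable {V : Type} [Fintype V] [DecidableEq V]

/-- **descent** with a constant ratio of the two parts of the potential -/
theorem ldescend (P : V → V → ℝ) (hP : ∀ u v, 0 ≤ P u v) (A : Finset V) (s y c E : ℝ) (K : ℕ)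
    (hK : 3 ≤ K) (hs0 : 0 < s) (hy : 0 < y) (hc : 0 < c)
    (good : ((Finset V → ℝ) →ₗ[ℝ] ℝ) → Prop)
    (hstep : ∀ L : (Finset V → ℝ) →ₗ[ℝ] ℝ, IsSheraliAdams K L → HasSize K s L →
      ¬ good L → L (bd P) ≤ E → y * s ≤ ∑ u, ∑ v ∈ A, cv L u v ^ 2 / mu L u) :
    ∀ (j : ℕ) (L : (Finset V → ℝ) →ₗ[ℝ] ℝ), IsSheraliAdams (K + j) L → HasSize (K + j) s L →
      L (bd P) + c * trA A (cv L) ≤ E → L (bd P) + c * trA A (cv L) < (j + 1) * (c * y) →
      ∃ L' : (Finset V → ℝ) →ₗ[ℝ] ℝ, IsSheraliAdams K L' ∧ HasSize K s L' ∧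
        good L' ∧ L' (bd P) ≤ E := by
  intro j
  induction j with
  | zero =>
    intro L hL hs h h'
    have hL2 : IsSheraliAdams 2 L := sa_mono (by omega) hL
    have h1 := bd_nonneg P hP hL2
    have h2 := trA_nonneg hL2 A
    have h3 : 0 ≤ c * trA A (cv L) := mul_nonneg hc.le h2
    by_cases hg : good L
    · exact ⟨L, hL, hs, hg, by linarith⟩
    · exfalso
      have hsum : ∑ u, mu L u = s := by
        have h := sum_mu (k := K + 0) (by omega) hL.one hs
        exact h
      obtain ⟨u, hu0, hu⟩ := wstep P hP hL (by omega) hs0 hs hsum A y (c * y) 1 hy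
        (mul_pos hc hy) zero_le_one (hstep L hL hs hg (by linarith))
      have hS1 : IsSheraliAdams 2 (cd L (xi u)) :=
        cd_sa (k := 2) (sa_mono (by omega) hL) u _ (dep_xi u) (xi_nonneg u) hu0
      have h4 := bd_nonneg P hP hS1
      have h5 := trA_nonneg hS1 A
      have hcy : 0 < c * y := mul_pos hc hy
      have h6 := mul_le_mul_of_nonneg_left hu hcy.le
      have e1 : c * y * (trA A (cv (cd L (xi u))) / y + 1 * (cd L (xi u) (bd P) / (c * y))) =
          c * trA A (cv (cd L (xi u))) + cd L (xi u) (bd P) := by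
        field_simp
      have e2 : c * y * (trA A (cv L) / y - 1 + 1 * (L (bd P) / (c * y))) =
          c * trA A (cv L) - c * y + L (bd P) := by
        field_simp
      rw [e1, e2] at h6
      have h7 : 0 ≤ c * trA A (cv (cd L (xi u))) := mul_nonneg hc.le h5
      push_cast at h'
      linarith
  | succ j ih =>
    intro L hL hs h h'
    have hL2 : IsSheraliAdams 2 L := sa_mono (by omega) hL
    have hLK : IsSheraliAdams K L := sa_mono (by omega) hL
    have hsK : HasSize K s L := size_mono (by omega) hs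
    have h1 := bd_nonneg P hP hL2
    have h2 := trA_nonneg hL2 A
    have h3 : 0 ≤ c * trA A (cv L) := mul_nonneg hc.le h2
    by_cases hg : good L
    · exact ⟨L, hLK, hsK, hg, by linarith⟩
    · have hsum : ∑ u, mu L u = s := sum_mu (k := K) (by omega) hL.one hsK
      obtain ⟨u, hu0, hu⟩ := wstep P hP hLK (by omega) hs0 hsK hsum A y (c * y) 1 hy
        (mul_pos hc hy) zero_le_one (hstep L hLK hsK hg (by linarith))
      have hS1 : IsSheraliAdams (K + j) (cd L (xi u)) :=
        cd_sa (k := K + j) hL u _ (dep_xi u) (xi_nonneg u) hu0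
      have hz1 : HasSize (K + j) s (cd L (xi u)) := cd_size (k := K + j) hs u _ (dep_xi u)
      have hcy : 0 < c * y := mul_pos hc hy
      have h6 := mul_le_mul_of_nonneg_left hu hcy.le
      have e1 : c * y * (trA A (cv (cd L (xi u))) / y + 1 * (cd L (xi u) (bd P) / (c * y))) =
          c * trA A (cv (cd L (xi u))) + cd L (xi u) (bd P) := by
        field_simp
      have e2 : c * y * (trA A (cv L) / y - 1 + 1 * (L (bd P) / (c * y))) =
          c * trA A (cv L) - c * y + L (bd P) := by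
        field_simp
      rw [e1, e2] at h6
      push_cast at h'
      refine ih _ hS1 hz1 (by linarith) (by linarith)

section
variable (P : V → V → ℝ) (hP : ∀ u v, 0 ≤ P u v) (hsym : ∀ u v, P u v = P v u)
    (hrow : ∀ u, ∑ v, P u v = 1) {L : (Finset V → ℝ) →ₗ[ℝ] ℝ} (hL : IsSheraliAdams 2 L)

include hL in
theorem cv_avg (u v : V) : 2 * cv L u v ≤ cv L u u + cv L v v := by
  have h := cv_psd hL (le_refl 2) ![u, v] ![1, -1]
  simp only [Fin.sum_univ_two, Matrix.cons_val_zero, Matrix.cons_val_one] at h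
  have h2 := cv_symm L u v
  nlinarith

include hP hsym hrow hL in
/-- the quadratic form is at most the trace -/
theorem form_le (A : Finset V) : ∑ u ∈ A, ∑ v ∈ A, P u v * cv L u v ≤ trA A (cv L) := by
  have h1 : ∀ u v, P u v * cv L u v ≤ P u v * (cv L u u / 2) + P u v * (cv L v v / 2) := by
    intro u v
    have := mul_le_mul_of_nonneg_left (cv_avg hL u v) (hP u v)
    linarith
  have h2 : ∑ u ∈ A, ∑ v ∈ A, P u v * (cv L u u / 2) ≤ trA A (cv L) / 2 := by
    unfold trA
    rw [sum_div]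
    refine sum_le_sum fun u _ => ?_
    rw [← sum_mul]
    have h3 : ∑ v ∈ A, P u v ≤ 1 := by
      rw [← hrow u]
      exact sum_le_sum_of_subset_of_nonneg (subset_univ A) fun v _ _ => hP u v
    have h4 := cv_self_nonneg hL u
    nlinarith
  have h3 : ∑ u ∈ A, ∑ v ∈ A, P u v * (cv L v v / 2) =
      ∑ u ∈ A, ∑ v ∈ A, P u v * (cv L u u / 2) := by
    rw [sum_comm]
    exact sum_congr rfl fun u _ => sum_congr rfl fun v _ => by rw [hsym]
  calc ∑ u ∈ A, ∑ v ∈ A, P u v * cv L u v
      ≤ ∑ u ∈ A, ∑ v ∈ A, (P u v * (cv L u u / 2) + P u v * (cv L v v / 2)) :=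
        sum_le_sum fun u _ => sum_le_sum fun v _ => h1 u v
    _ = ∑ u ∈ A, ∑ v ∈ A, P u v * (cv L u u / 2) + ∑ u ∈ A, ∑ v ∈ A, P u v * (cv L v v / 2) := by
        simp only [sum_add_distrib]
    _ ≤ trA A (cv L) := by rw [h3]; linarith

include hrow hL in
theorem bd_mm (s : ℝ) (hmu : ∑ u, mu L u = s) :
    L (bd P) = s - ∑ u, ∑ v, P u v * mm L u v := by
  rw [bd_val P hL, ← hmu, ← sum_sub_distrib]
  refine sum_congr rfl fun u _ => ?_
  have h : mu L u = ∑ v, P u v * mu L u := by rw [← sum_mul, hrow u, one_mul]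
  conv_rhs => rw [h]
  rw [← sum_sub_distrib]
  exact sum_congr rfl fun v _ => by ring

include hP hsym hrow hL in
/-- the energy inequality for small densities -/
theorem energy3 (B : Finset V) :
    (∑ u, ∑ v, P u v * mm L u v) - 2 * B.card - ∑ u, ∑ v, P u v * (mu L u * mu L v) ≤
      ∑ u ∈ Bᶜ, ∑ v ∈ Bᶜ, P u v * cv L u v := by
  have hm1 : ∀ u v, P u v * mm L u v ≤ P u v := fun u v => by
    have h1 := (mm_le hL u v).trans (mu_le_one hL u)
    have := mul_le_mul_of_nonneg_left h1 (hP u v)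
    linarith
  have hrs : ∀ u, ∑ v, P u v * mm L u v ≤ 1 := fun u => by
    rw [← hrow u]; exact sum_le_sum fun v _ => hm1 u v
  have hp0 : ∀ u v, 0 ≤ P u v * mm L u v := fun u v => mul_nonneg (hP u v) (mm_nonneg hL u v)
  have h1 : ∑ u ∈ Bᶜ, ∑ v ∈ Bᶜ, P u v * cv L u v = ∑ u ∈ Bᶜ, ∑ v ∈ Bᶜ, P u v * mm L u v -
      ∑ u ∈ Bᶜ, ∑ v ∈ Bᶜ, P u v * (mu L u * mu L v) := by
    simp only [← sum_sub_distrib]
    exact sum_congr rfl fun u _ => sum_congr rfl fun v _ => by unfold cv; ring
  have h2 : ∑ u ∈ Bᶜ, ∑ v ∈ Bᶜ, P u v * (mu L u * mu L v) ≤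
      ∑ u, ∑ v, P u v * (mu L u * mu L v) := by
    have h0 : ∀ u v, 0 ≤ P u v * (mu L u * mu L v) := fun u v =>
      mul_nonneg (hP u v) (mul_nonneg (mu_nonneg hL u) (mu_nonneg hL v))
    refine (sum_le_sum fun u _ => sum_le_sum_of_subset_of_nonneg (subset_univ Bᶜ)
      fun v _ _ => h0 u v).trans ?_
    exact sum_le_sum_of_subset_of_nonneg (subset_univ Bᶜ) fun u _ _ => sum_nonneg fun v _ => h0 u v
  have h3 : ∑ u, ∑ v, P u v * mm L u v ≤
      ∑ u ∈ Bᶜ, ∑ v ∈ Bᶜ, P u v * mm L u v + 2 * B.card := by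
    have h4 := sum_add_sum_compl B (fun u => ∑ v, P u v * mm L u v)
    have h5 : ∑ u ∈ B, ∑ v, P u v * mm L u v ≤ B.card := by
      calc _ ≤ ∑ u ∈ B, (1 : ℝ) := sum_le_sum fun u _ => hrs u
        _ = B.card := by simp
    have h6 : ∀ u, ∑ v, P u v * mm L u v = ∑ v ∈ B, P u v * mm L u v +
        ∑ v ∈ Bᶜ, P u v * mm L u v := fun u => (sum_add_sum_compl B _).symm
    have h7 : ∑ u ∈ Bᶜ, ∑ v, P u v * mm L u v = ∑ u ∈ Bᶜ, ∑ v ∈ B, P u v * mm L u v +
        ∑ u ∈ Bᶜ, ∑ v ∈ Bᶜ, P u v * mm L u v := by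
      rw [← sum_add_distrib]
      exact sum_congr rfl fun u _ => h6 u
    have h8 : ∑ u ∈ Bᶜ, ∑ v ∈ B, P u v * mm L u v ≤ B.card := by
      rw [sum_comm]
      calc _ ≤ ∑ v ∈ B, (1 : ℝ) := by
            refine sum_le_sum fun v _ => ?_
            refine le_trans ?_ (hrs v)
            calc ∑ u ∈ Bᶜ, P u v * mm L u v ≤ ∑ u, P u v * mm L u v :=
                  sum_le_sum_of_subset_of_nonneg (subset_univ _) fun u _ _ => hp0 u v
              _ = ∑ u, P v u * mm L v u := sum_congr rfl fun u _ => by rw [hsym, mm_symm]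
        _ = B.card := by simp
    linarith
  linarith

end

section
variable (P : V → V → ℝ) (hP : ∀ u v, 0 ≤ P u v) (hsym : ∀ u v, P u v = P v u)
    (hrow : ∀ u, ∑ v, P u v = 1)

include hP hsym in
/-- averaging: removing an element -/
theorem avg_erase (R : Finset V) (hR : R.Nonempty) :
    ∃ w ∈ R, ins P R * (R.card - 2) ≤ ins P (R.erase w) * R.card := by
  by_contra hcon
  push Not at hcon
  have h1 : ∑ w ∈ R, ins P (R.erase w) * R.card < ∑ w ∈ R, ins P R * ((R.card : ℝ) - 2) :=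
    sum_lt_sum_of_nonempty hR hcon
  have h2 : ∀ w ∈ R, ins P R - 2 * ∑ v ∈ R, P w v ≤ ins P (R.erase w) := by
    intro w hw
    unfold ins
    rw [← add_sum_erase R _ hw]
    have h3 : ∀ u, ∑ v ∈ R, P u v = P w u + ∑ v ∈ R.erase w, P u v := fun u => by
      rw [← add_sum_erase R _ hw, hsym u w]
    have h4 : ∑ x ∈ R.erase w, ∑ v ∈ R, P x v =
        ∑ x ∈ R.erase w, P w x + ∑ x ∈ R.erase w, ∑ v ∈ R.erase w, P x v := by
      rw [← sum_add_distrib]
      exact sum_congr rfl fun u _ => h3 u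
    have h5 : ∑ x ∈ R.erase w, P w x ≤ ∑ v ∈ R, P w v :=
      sum_le_sum_of_subset_of_nonneg (erase_subset _ _) fun v _ _ => hP w v
    rw [h4]
    linarith
  have h3 : ∑ w ∈ R, (ins P R - 2 * ∑ v ∈ R, P w v) = ins P R * (R.card - 2) := by
    rw [sum_sub_distrib, sum_const, nsmul_eq_mul, ← mul_sum]
    change _ - 2 * ins P R = _
    ring
  have h4 : ∑ w ∈ R, (ins P R - 2 * ∑ v ∈ R, P w v) ≤ ∑ w ∈ R, ins P (R.erase w) :=
    sum_le_sum h2
  rw [h3] at h4
  rw [← sum_mul, sum_const, nsmul_eq_mul] at h1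
  have h5 := mul_le_mul_of_nonneg_right h4 (Nat.cast_nonneg R.card : (0 : ℝ) ≤ R.card)
  linarith

include hP hsym in
/-- averaging: subsets of given size -/
theorem avgtrim (s : ℕ) (hs : 2 ≤ s) : ∀ (m : ℕ) (R : Finset V), R.card = s + m →
    ∃ S : Finset V, S ⊆ R ∧ S.card = s ∧
      ins P R * (s * (s - 1)) ≤ ins P S * (R.card * (R.card - 1)) := by
  intro m
  induction m with
  | zero =>
    intro R hR
    refine ⟨R, subset_rfl, by simpa using hR, ?_⟩
    rw [hR]; simp
  | succ m ih =>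
    intro R hR
    have hne : R.Nonempty := by rw [← card_pos]; omega
    obtain ⟨w, hw, h1⟩ := avg_erase P hP hsym R hne
    obtain ⟨S, hSR, hS, h2⟩ := ih (R.erase w) (by rw [card_erase_of_mem hw]; omega)
    refine ⟨S, hSR.trans (erase_subset _ _), hS, ?_⟩
    have hc : ((R.erase w).card : ℝ) = R.card - 1 := by
      rw [card_erase_of_mem hw, Nat.cast_sub (by omega)]; simp
    rw [hc] at h2
    have hn : (3 : ℝ) ≤ R.card := by
      have : 3 ≤ R.card := by omega
      exact_mod_cast this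
    have hs2 : (2 : ℝ) ≤ s := by exact_mod_cast hs
    have hss : 0 ≤ (s : ℝ) * (s - 1) := by nlinarith
    have h3 := mul_le_mul_of_nonneg_right h1 hss
    have h4 := mul_le_mul_of_nonneg_right h2 (by linarith : (0 : ℝ) ≤ R.card)
    have h5 : (ins P R * (s * (s - 1))) * ((R.card : ℝ) - 2) ≤
        (ins P S * (R.card * (R.card - 1))) * ((R.card : ℝ) - 2) := by nlinarith
    exact le_of_mul_le_mul_right h5 (by linarith)

include hP hsym hrow in
/-- **rounding** the marginals: a set of exactly `s` vertices -/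
theorem rounding3 (s : ℕ) (hs2 : 2 ≤ s) (hs : s ≤ Fintype.card V) (x : V → ℝ)
    (hx0 : ∀ u, 0 ≤ x u) (hx1 : ∀ u, x u ≤ 1) (hx : ∑ u, x u = s) (κ : ℝ) (hκ : 0 < κ)
    (hκ1 : κ ≤ 1) (h : κ * s / 8 ≤ ∑ u, ∑ v, P u v * (x u * x v)) :
    ∃ S : Finset V, S.card = s ∧ κ ^ 3 / 32768 * s ≤ ins P S := by
  have hs0 : (2 : ℝ) ≤ s := by exact_mod_cast hs2
  set R := univ.filter fun u => κ / 32 < x u with hR
  have hcard : κ / 32 * R.card ≤ s := by
    rw [← hx]
    calc κ / 32 * R.card = ∑ u ∈ R, κ / 32 := by rw [sum_const, nsmul_eq_mul]; ring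
      _ ≤ ∑ u ∈ R, x u := sum_le_sum fun u hu => by
          rw [hR, mem_filter] at hu; exact hu.2.le
      _ ≤ ∑ u, x u := sum_le_sum_of_subset_of_nonneg (subset_univ _) fun u _ _ => hx0 u
  have hin : κ * s / 16 ≤ ins P R := by
    have h1 : ∀ u v, P u v * (x u * x v) ≤ P u v * (if u ∈ R ∧ v ∈ R then 1 else 0) +
        (P u v * (κ / 32 * x u) + P u v * (κ / 32 * x v)) := by
      intro u v
      rw [← mul_add, ← mul_add]
      refine mul_le_mul_of_nonneg_left ?_ (hP u v)
      have h2 := hx0 u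
      have h3 := hx0 v
      have h4 := hx1 u
      have h5 := hx1 v
      split_ifs with h6
      · have h7 : x u * x v ≤ 1 := by nlinarith
        have h8 : 0 ≤ κ / 32 * x u := by positivity
        have h9 : 0 ≤ κ / 32 * x v := by positivity
        linarith
      · have h7 : x u ≤ κ / 32 ∨ x v ≤ κ / 32 := by
          by_contra hcon
          push Not at hcon
          exact h6 ⟨by rw [hR, mem_filter]; exact ⟨mem_univ u, hcon.1⟩,
            by rw [hR, mem_filter]; exact ⟨mem_univ v, hcon.2⟩⟩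
        have h8 : 0 ≤ κ / 32 * x u := by positivity
        have h9 : 0 ≤ κ / 32 * x v := by positivity
        rcases h7 with h7 | h7
        · have := mul_le_mul_of_nonneg_right h7 h3
          linarith
        · have := mul_le_mul_of_nonneg_right h7 h2
          linarith
    have h2 : ∑ u, ∑ v, P u v * (x u * x v) ≤ ∑ u, ∑ v, (P u v * (if u ∈ R ∧ v ∈ R then 1 else 0) +
        (P u v * (κ / 32 * x u) + P u v * (κ / 32 * x v))) :=
      sum_le_sum fun u _ => sum_le_sum fun v _ => h1 u v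
    have h3 : ∑ u, ∑ v, P u v * (κ / 32 * x u) = κ / 32 * s := by
      rw [← hx, mul_sum]
      refine sum_congr rfl fun u _ => ?_
      rw [← sum_mul, hrow u, one_mul]
    have h4 : ∑ u, ∑ v, P u v * (κ / 32 * x v) = κ / 32 * s := by
      rw [← h3, sum_comm]
      exact sum_congr rfl fun u _ => sum_congr rfl fun v _ => by rw [hsym]
    have h5 : ∑ u, ∑ v, P u v * (if u ∈ R ∧ v ∈ R then (1 : ℝ) else 0) = ins P R := by
      unfold ins
      rw [← sum_subset (subset_univ R)]
      · refine sum_congr rfl fun u hu => ?_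
        rw [← sum_subset (subset_univ R)]
        · exact sum_congr rfl fun v hv => by rw [if_pos ⟨hu, hv⟩, mul_one]
        · intro v _ hv
          rw [if_neg (fun h => hv h.2), mul_zero]
      · intro u _ hu
        refine sum_eq_zero fun v _ => ?_
        rw [if_neg (fun h => hu h.1), mul_zero]
    have h6 : ∑ u, ∑ v, (P u v * (if u ∈ R ∧ v ∈ R then (1 : ℝ) else 0) +
        (P u v * (κ / 32 * x u) + P u v * (κ / 32 * x v))) =
        ins P R + (κ / 32 * s + κ / 32 * s) := by
      simp only [sum_add_distrib]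
      rw [h5, h3, h4]
    linarith
  have hκ3 : κ ^ 3 ≤ κ := by
    have : κ ^ 2 ≤ 1 := pow_le_one₀ hκ.le hκ1
    nlinarith
  rcases le_or_gt R.card s with hle | hgt
  · obtain ⟨S, h1, h2⟩ := extend P hP s hs R hle
    refine ⟨S, h1, ?_⟩
    have : κ ^ 3 * s ≤ κ * s := mul_le_mul_of_nonneg_right hκ3 (by linarith)
    have h0 : 0 ≤ κ * (s : ℝ) := by positivity
    linarith
  · obtain ⟨m', hm'⟩ := Nat.exists_eq_add_of_lt hgt
    obtain ⟨S, -, h1, h2⟩ := avgtrim P hP hsym s hs2 (m' + 1) R (by omega)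
    refine ⟨S, h1, ?_⟩
    have hRs : (s : ℝ) + 1 ≤ R.card := by exact_mod_cast hgt
    have hb : (0 : ℝ) < R.card * (R.card - 1) := by nlinarith
    -- `ins R * s (s-1) / (R (R-1))` is large
    have h3 : κ ^ 3 / 32768 * s * (R.card * (R.card - 1)) ≤ ins P R * (s * (s - 1)) := by
      have h4 : κ * s / 16 * (s * (s - 1)) ≤ ins P R * (s * (s - 1)) :=
        mul_le_mul_of_nonneg_right hin (by nlinarith)
      refine le_trans ?_ h4
      have h5 : (κ * R.card) ≤ 32 * s := by linarith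
      have h6 : (κ * (R.card - 1 : ℝ)) ≤ 64 * (s - 1) := by nlinarith
      have h7 : (κ * R.card) * (κ * (R.card - 1 : ℝ)) ≤ (32 * s) * (64 * (s - 1)) :=
        mul_le_mul h5 h6 (by nlinarith) (by linarith)
      have h8 : 0 ≤ κ * s := by positivity
      calc κ ^ 3 / 32768 * s * (R.card * (R.card - 1))
          = κ * s / 32768 * ((κ * R.card) * (κ * (R.card - 1 : ℝ))) := by ring
        _ ≤ κ * s / 32768 * ((32 * s) * (64 * (s - 1))) :=
            mul_le_mul_of_nonneg_left h7 (by positivity)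
        _ = κ * s / 16 * (s * (s - 1)) := by ring
    exact le_of_mul_le_mul_right (h3.trans h2) hb

end

end

end Run7.h881.SE
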