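import Pool.Agent.Run7.h881.SE.Den
import Pool.Agent.Run7.h881.SE.Gr

/-!
The dichotomy for sets of small density, and the choice of the parameters.
-/

set_option autoImplicit false
set_option linter.unusedSectionVars false

namespace Run7.h881.SE

open Finset Run7.h881.SA

section
variable {V : Type} [Fintype V] [DecidableEq V]

set_option maxHeartbeats 2000000 in
/-- **the dichotomy** for small densities -/
theorem dicho3 (P : V → V → ℝ) (hP : ∀ u v, 0 ≤ P u v) (hsym : ∀ u v, P u v = P v u)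
    (hrow : ∀ u, ∑ v, P u v = 1) (s : ℕ) (hs2 : 2 ≤ s) (hs : s ≤ Fintype.card V)
    (κ q : ℝ) (hκ : 0 < κ) (hκ1 : κ ≤ 1) (hq : 0 < q) (hq1 : q ≤ 1 / 2)
    (T : ℕ) (hT : 1 ≤ T) (hTs : q ^ (2 * T) * s ≤ 1)
    (M : ℕ) (hM : 3 ≤ M) (hMT : 32 * (T : ℝ) ^ 2 ≤ (M - 1) * (κ / 4) ^ (2 * T))
    (j : ℕ) (hj : 1300 / (κ * (κ / 4) ^ (4 * T + 2)) < (j : ℝ) + 1)
    (L : (Finset V → ℝ) →ₗ[ℝ] ℝ) (hL : IsSheraliAdams (M + j) L) (hLs : HasSize (M + j) s L)
    (he : L (bd P) ≤ (1 - κ) * s) :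
    ∃ S : Finset V, S.card = s ∧ κ ^ 3 * q ^ 2 / 32768 * s ≤ ins P S := by
  have hs2' : (2 : ℝ) ≤ s := by exact_mod_cast hs2
  have hs0 : (0 : ℝ) < s := by linarith
  have hκ4 : 0 < κ / 4 := by linarith
  set D := (κ / 4) ^ (4 * T) with hD
  have hD0 : 0 < D := pow_pos hκ4 _
  have hκ2 : κ ^ 2 ≤ 1 := pow_le_one₀ hκ.le hκ1
  have hκ3 : κ ^ 3 ≤ κ := by nlinarith
  obtain ⟨B, hBs, hBi, hBmax⟩ := greedy P hP (q ^ 2 / 8) s
  rcases le_or_gt (κ / 64 * s) B.card with hcase | hcase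
  · obtain ⟨S, h1, h2⟩ := extend P hP s hs B hBs
    refine ⟨S, h1, ?_⟩
    have h3 : 0 ≤ q ^ 2 / 8 := by positivity
    have h4 := mul_le_mul_of_nonneg_left hcase h3
    have h5 : 0 ≤ q ^ 2 * s := by positivity
    have h6 := mul_le_mul_of_nonneg_right hκ3 h5
    have h7 : 0 ≤ κ * (q ^ 2 * s) := by positivity
    calc κ ^ 3 * q ^ 2 / 32768 * s = κ ^ 3 * (q ^ 2 * s) / 32768 := by ring
      _ ≤ κ * (q ^ 2 * s) / 512 := by linarith
      _ = q ^ 2 / 8 * (κ / 64 * s) := by ring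
      _ ≤ q ^ 2 / 8 * B.card := h4
      _ ≤ ins P B := hBi
      _ ≤ ins P S := h2
  · -- small sets outside B keep little mass
    have hA : ∀ S : Finset V, S ⊆ Bᶜ → S.Nonempty → (S.card : ℝ) ≤ 7 * s / 8 →
        ins P S ≤ (q / 2) ^ 2 / 2 * S.card := by
      intro S hS hne hcS
      have h1 : B.card + S.card ≤ s := by
        have h2 : (B.card : ℝ) + S.card ≤ s := by nlinarith
        exact_mod_cast h2
      have h3 := hBmax S (disjoint_left.2 fun x hxB hxS => by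
        have := hS hxS
        rw [mem_compl] at this
        exact this hxB) hne h1
      refine h3.trans (le_of_eq (by ring))
    set y := D * (κ / 4) ^ 2 * s / 650 with hy
    have hy0 : 0 < y := by positivity
    have hstep : ∀ L : (Finset V → ℝ) →ₗ[ℝ] ℝ, IsSheraliAdams M L → HasSize M s L →
        ¬ (κ * s / 8 ≤ ∑ u, ∑ v, P u v * (mu L u * mu L v)) → L (bd P) ≤ (1 - κ / 2) * s →
        y * s ≤ ∑ u, ∑ v ∈ Bᶜ, cv L u v ^ 2 / mu L u := by
      intro L hL hLs h1 h2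
      push Not at h1
      have hL2 : IsSheraliAdams 2 L := sa_mono (by omega) hL
      have hmu : ∑ u, mu L u = s := sum_mu (k := M) (by omega) hL.one hLs
      have htr := trA_nonneg hL2 Bᶜ
      have htr1 : trA Bᶜ (cv L) ≤ s := (trA_le hL2 Bᶜ).trans hmu.le
      have hen := energy3 P hP hsym hrow hL2 B
      have hfl := form_le P hP hsym hrow hL2 Bᶜ
      rw [bd_mm P hrow hL2 s hmu] at h2
      have h3 : κ / 4 * s ≤ ∑ u ∈ Bᶜ, ∑ v ∈ Bᶜ, P u v * cv L u v := by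
        refine le_trans ?_ hen
        have h0 : 0 ≤ κ * (s : ℝ) := by positivity
        linarith
      have h3' : (1 - (1 - κ / 4)) * trA Bᶜ (cv L) ≤
          ∑ u ∈ Bᶜ, ∑ v ∈ Bᶜ, P u v * cv L u v := by
        have h4 : κ / 4 * trA Bᶜ (cv L) ≤ κ / 4 * s := mul_le_mul_of_nonneg_left htr1 hκ4.le
        have h5 : (1 - (1 - κ / 4)) * trA Bᶜ (cv L) = κ / 4 * trA Bᶜ (cv L) := by ring
        rw [h5]
        linarith
      have e1 : (1 - (1 - κ / 4)) = κ / 4 := by ring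
      have hg := globw P hP hsym (fun u => (hrow u).le) Bᶜ (cv L) (7 * s / 8) (q / 2)
        (by linarith) (by linarith) (by linarith) hA M (by omega) (cv_psd hL le_rfl)
        (fun u => cv_self_nonneg hL2 u) (fun u v => cv_symm L u v) (1 - κ / 4) (by linarith)
        (by linarith) h3' T hT (by rw [e1]; exact hMT) (mu L) (mu_nonneg hL2)
        (fun u v h => cv_zero hL2 u v (by rw [cv_self, h, zero_mul]))
      rw [e1] at hg
      set Y := ∑ u ∈ Bᶜ, ∑ v ∈ Bᶜ, cv L u v ^ 2 / mu L u with hY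
      have hY0 : 0 ≤ Y :=
        sum_nonneg fun u _ => sum_nonneg fun v _ => div_nonneg (sq_nonneg _) (mu_nonneg hL2 u)
      have h5 : (2 * (q / 2)) ^ (2 * T) ≤ 1 / s := by
        rw [mul_div_cancel₀ _ (two_ne_zero), le_div_iff₀ hs0]
        exact hTs
      have h6 : ∑ u ∈ Bᶜ, mu L u ≤ s := by
        rw [← hmu]
        exact sum_le_sum_of_subset_of_nonneg (subset_univ _) fun u _ _ => mu_nonneg hL2 u
      have h7 : (2 * (q / 2)) ^ (2 * T) + 8 / (7 * s / 8) ≤ 650 / 64 / s := by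
        have h8 : 8 / (7 * (s : ℝ) / 8) = 64 / 7 / s := by
          field_simp
          norm_num
        rw [h8]
        have h9 : 1 / (s : ℝ) + 64 / 7 / s = 71 / 7 / s := by ring
        have h10 : 71 / 7 / (s : ℝ) ≤ 650 / 64 / s := div_le_div_of_nonneg_right (by norm_num) hs0.le
        linarith
      have h8 : ((∑ u ∈ Bᶜ, mu L u) * ((2 * (q / 2)) ^ (2 * T) + 8 / (7 * s / 8))) * Y ≤
          s * (650 / 64 / s) * Y := by
        refine mul_le_mul_of_nonneg_right ?_ hY0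
        refine mul_le_mul h6 h7 ?_ hs0.le
        have : 0 ≤ (2 * (q / 2)) ^ (2 * T) := pow_nonneg (by linarith) _
        positivity
      have h9 : trA Bᶜ (cv L) ^ 2 * D / 64 ≤ s * (650 / 64 / s) * Y := hg.trans h8
      have h10 : (κ / 4 * s : ℝ) ^ 2 ≤ trA Bᶜ (cv L) ^ 2 :=
        pow_le_pow_left₀ (by positivity) (h3.trans hfl) 2
      have h11 : s * (650 / 64 / s) * Y = 650 / 64 * Y := by
        field_simp
      rw [h11] at h9
      have h12 := mul_le_mul_of_nonneg_right h10 hD0.le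
      have h13 : Y ≤ ∑ u, ∑ v ∈ Bᶜ, cv L u v ^ 2 / mu L u :=
        sum_le_sum_of_subset_of_nonneg (subset_univ _) fun u _ _ =>
          sum_nonneg fun v _ => div_nonneg (sq_nonneg _) (mu_nonneg hL2 u)
      refine le_trans ?_ h13
      have h14 : y * s = (κ / 4 * s) ^ 2 * D / 650 := by rw [hy]; ring
      rw [h14]
      linarith
    have hL2 : IsSheraliAdams 2 L := sa_mono (by omega) hL
    have hmu : ∑ u, mu L u = s := sum_mu (k := M + j) (by omega) hL.one hLs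
    have htr1 : trA Bᶜ (cv L) ≤ s := (trA_le hL2 Bᶜ).trans hmu.le
    have hstart : L (bd P) + κ / 2 * trA Bᶜ (cv L) ≤ (1 - κ / 2) * s := by
      have := mul_le_mul_of_nonneg_left htr1 (by linarith : 0 ≤ κ / 2)
      linarith
    have hstart2 : L (bd P) + κ / 2 * trA Bᶜ (cv L) < (j + 1) * (κ / 2 * y) := by
      refine lt_of_le_of_lt hstart ?_
      have h1 : (κ / 4) ^ (4 * T + 2) = D * (κ / 4) ^ 2 := by rw [hD, pow_add]
      rw [h1, div_lt_iff₀ (by positivity)] at hj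
      have h2 : (j + 1) * (κ / 2 * y) = (((j : ℝ) + 1) * (κ * (D * (κ / 4) ^ 2))) * s / 1300 := by
        rw [hy]; ring
      rw [h2]
      have h3 := mul_lt_mul_of_pos_right hj hs0
      nlinarith
    obtain ⟨L', hL', hLs', hg', he'⟩ := ldescend P hP Bᶜ s y (κ / 2) ((1 - κ / 2) * s) M hM hs0
      hy0 (by linarith) (fun L => κ * s / 8 ≤ ∑ u, ∑ v, P u v * (mu L u * mu L v)) hstep j L hL
      hLs hstart hstart2
    have hL2' : IsSheraliAdams 2 L' := sa_mono (by omega) hL'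
    have hmu' : ∑ u, mu L' u = s := sum_mu (k := M) (by omega) hL'.one hLs'
    obtain ⟨S, h1, h2⟩ := rounding3 P hP hsym hrow s hs2 hs (mu L') (mu_nonneg hL2')
      (mu_le_one hL2') hmu' κ hκ hκ1 hg'
    refine ⟨S, h1, le_trans ?_ h2⟩
    refine mul_le_mul_of_nonneg_right ?_ hs0.le
    have h3 : q ^ 2 ≤ 1 := pow_le_one₀ hq.le (by linarith)
    have h4 : 0 ≤ κ ^ 3 := by positivity
    have h5 := mul_le_mul_of_nonneg_left h3 h4
    linarith

end

set_option maxHeartbeats 1000000 in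
/-- the choice of the parameters -/
theorem choice3 (s : ℕ) (hs : 2 ≤ s) (κ q : ℝ) (hκ : 0 < κ) (hκ1 : κ ≤ 1) (hq : 0 < q)
    (hq1 : q ≤ 1 / 2) (k : ℕ)
    (hk : 700 * Real.log (2 * s) ^ 2 * (4 / κ) ^ 7 *
      (s : ℝ) ^ (2 * Real.log (4 / κ) / Real.log (1 / q)) ≤ k) :
    ∃ T M j : ℕ, 1 ≤ T ∧ q ^ (2 * T) * s ≤ 1 ∧ 3 ≤ M ∧
      32 * (T : ℝ) ^ 2 ≤ (M - 1) * (κ / 4) ^ (2 * T) ∧
      1300 / (κ * (κ / 4) ^ (4 * T + 2)) < (j : ℝ) + 1 ∧ M + j ≤ k := by
  have hs2 : (2 : ℝ) ≤ s := by exact_mod_cast hs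
  have hs0 : (0 : ℝ) < s := by linarith
  have hs1 : (1 : ℝ) ≤ s := by linarith
  have hl2 := Real.log_two_gt_d9
  have hl2' := Real.log_two_lt_d9
  set l := Real.log (1 / q) with hl
  have hlq : Real.log 2 ≤ l := by
    rw [hl]
    refine Real.log_le_log (by norm_num) ?_
    rw [le_div_iff₀ hq]; linarith
  have hl0 : 0 < l := by linarith
  set a := Real.log s with ha
  have ha0 : 0 ≤ a := Real.log_nonneg hs1
  have hΛ : Real.log (2 * s) = Real.log 2 + a := by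
    rw [Real.log_mul (by norm_num) hs0.ne']
  set Λ := Real.log (2 * s) with hΛdef
  have hΛ2 : Real.log 2 ≤ Λ := by rw [hΛ]; linarith
  set T := ⌊a / (2 * l)⌋₊ + 1 with hT
  have hT1 : a / (2 * l) < T := by
    rw [hT]; push_cast; exact Nat.lt_floor_add_one _
  have hT2 : (T : ℝ) ≤ a / (2 * l) + 1 := by
    rw [hT]; push_cast
    have := Nat.floor_le (div_nonneg ha0 (by linarith : 0 ≤ 2 * l))
    linarith
  set E := 4 / κ with hE
  have hE4 : 4 ≤ E := by rw [hE, le_div_iff₀ hκ]; linarith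
  have hE0 : 0 < E := by linarith
  have hEκ : κ / 4 = E⁻¹ := by rw [hE, inv_div]
  have hEl0 : 0 ≤ Real.log E := Real.log_nonneg (by linarith)
  set X := (s : ℝ) ^ (2 * Real.log E / l) with hX
  have hXe : X = Real.exp (2 * Real.log E / l * a) := by
    rw [hX, Real.rpow_def_of_pos hs0, mul_comm]
  have hX1 : 1 ≤ X := by rw [hXe]; exact Real.one_le_exp (by positivity)
  have hX0 : 0 < X := by linarith
  have hp4 : E ^ (4 * T) ≤ E ^ 4 * X := by
    have h1 : E ^ (4 * T) = Real.exp (4 * T * Real.log E) := by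
      rw [← Real.exp_log hE0, ← Real.exp_nat_mul, Real.exp_log hE0]
      congr 1
      push_cast; ring
    have h2 : E ^ 4 = Real.exp (4 * Real.log E) := by
      rw [← Real.exp_log hE0, ← Real.exp_nat_mul, Real.exp_log hE0]
      congr 1
    rw [h1, h2, hXe, ← Real.exp_add]
    refine Real.exp_le_exp.2 ?_
    have h3 : 4 * T * Real.log E ≤ 4 * (a / (2 * l) + 1) * Real.log E := by
      refine mul_le_mul_of_nonneg_right ?_ hEl0
      linarith
    refine h3.trans (le_of_eq ?_)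
    field_simp
    ring
  have hp2 : E ^ (2 * T) ≤ E ^ 4 * X := by
    refine le_trans ?_ hp4
    exact pow_le_pow_right₀ (by linarith) (by omega)
  refine ⟨T, ⌈67 * Λ ^ 2 * (E ^ 4 * X)⌉₊ + 2, ⌈325 * (E ^ 7 * X)⌉₊, by omega, ?_, ?_, ?_, ?_, ?_⟩
  · -- q ^ (2 T) s ≤ 1
    have h1 : q = Real.exp (-l) := by
      rw [hl, Real.log_div one_ne_zero hq.ne', Real.log_one, zero_sub, neg_neg, Real.exp_log hq]
    have h2 : q ^ (2 * T) = Real.exp (-(2 * T * l)) := by
      rw [h1, ← Real.exp_nat_mul]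
      congr 1
      push_cast; ring
    have h3 : (s : ℝ) = Real.exp a := by rw [ha, Real.exp_log hs0]
    rw [h2, h3, ← Real.exp_add]
    refine Real.exp_le_one_iff.2 ?_
    rw [div_lt_iff₀ (by linarith)] at hT1
    linarith
  · have h1 : 0 < ⌈67 * Λ ^ 2 * (E ^ 4 * X)⌉₊ := by
      rw [Nat.ceil_pos]
      have : 0 < Λ := by linarith
      positivity
    omega
  · -- sampling
    have h1 : (T : ℝ) ≤ Λ / Real.log 2 := by
      refine hT2.trans ?_
      rw [le_div_iff₀ (by linarith), hΛ]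
      have h2 : a / (2 * l) * Real.log 2 ≤ a / 2 := by
        rw [div_mul_eq_mul_div, div_le_div_iff₀ (by linarith) (by norm_num)]
        nlinarith
      linarith
    have h2 : (T : ℝ) ^ 2 ≤ (Λ / Real.log 2) ^ 2 := pow_le_pow_left₀ (Nat.cast_nonneg _) h1 2
    have h3 : (Λ / Real.log 2) ^ 2 ≤ 2.0825 * Λ ^ 2 := by
      rw [div_pow, div_le_iff₀ (by positivity)]
      have h4 : 1 ≤ 2.0825 * Real.log 2 ^ 2 := by nlinarith
      nlinarith [sq_nonneg Λ]
    have h4 : 67 * Λ ^ 2 * (E ^ 4 * X) ≤ ((⌈67 * Λ ^ 2 * (E ^ 4 * X)⌉₊ + 2 : ℕ) : ℝ) - 1 := by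
      push_cast
      have := Nat.le_ceil (67 * Λ ^ 2 * (E ^ 4 * X))
      linarith
    rw [hEκ, inv_pow]
    have hEp : 0 < E ^ (2 * T) := by positivity
    rw [← div_eq_mul_inv, le_div_iff₀ hEp]
    refine le_trans ?_ h4
    have h5 : 32 * (T : ℝ) ^ 2 ≤ 67 * Λ ^ 2 := by nlinarith
    exact mul_le_mul h5 hp2 hEp.le (by positivity)
  · have h1 : 1300 / (κ * (κ / 4) ^ (4 * T + 2)) ≤ 325 * (E ^ 7 * X) := by
      have h2 : κ = 4 * E⁻¹ := by rw [← hEκ]; ring
      have h3 : κ * (κ / 4) ^ (4 * T + 2) = 4 * (E ^ (4 * T + 3))⁻¹ := by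
        rw [hEκ]
        conv_lhs => rw [h2]
        rw [inv_pow, mul_assoc, ← mul_inv]
        congr 2
        rw [← pow_succ']
      rw [h3]
      have h4 : 1300 / (4 * (E ^ (4 * T + 3))⁻¹) = 325 * (E ^ (4 * T) * E ^ 3) := by
        rw [← pow_add]
        field_simp
        norm_num
      rw [h4]
      have h5 : E ^ (4 * T) * E ^ 3 ≤ E ^ 4 * X * E ^ 3 :=
        mul_le_mul_of_nonneg_right hp4 (by positivity)
      have h6 : E ^ 4 * X * E ^ 3 = E ^ 7 * X := by ring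
      rw [h6] at h5
      linarith
    have h2 := Nat.le_ceil (325 * (E ^ 7 * X))
    linarith
  · have h1 := (Nat.ceil_lt_add_one (by positivity : (0 : ℝ) ≤ 67 * Λ ^ 2 * (E ^ 4 * X))).le
    have h2 := (Nat.ceil_lt_add_one (by positivity : (0 : ℝ) ≤ 325 * (E ^ 7 * X))).le
    have h3 : ((⌈67 * Λ ^ 2 * (E ^ 4 * X)⌉₊ + 2 + ⌈325 * (E ^ 7 * X)⌉₊ : ℕ) : ℝ) ≤ k := by
      refine le_trans ?_ hk
      push_cast
      have h4 : 0.48 ≤ Λ ^ 2 := by nlinarith
      have h5 : 64 * E ^ 4 ≤ E ^ 7 := by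
        have h6 : (64 : ℝ) ≤ E ^ 3 := by
          calc (64 : ℝ) = 4 ^ 3 := by norm_num
            _ ≤ E ^ 3 := pow_le_pow_left₀ (by norm_num) hE4 3
        calc 64 * E ^ 4 ≤ E ^ 3 * E ^ 4 := mul_le_mul_of_nonneg_right h6 (by positivity)
          _ = E ^ 7 := by ring
      have h6 : (256 : ℝ) ≤ E ^ 4 := by
        calc (256 : ℝ) = 4 ^ 4 := by norm_num
          _ ≤ E ^ 4 := pow_le_pow_left₀ (by norm_num) hE4 4
      set Z := E ^ 7 * X with hZ
      have hZ0 : 0 < Z := by positivity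
      have h7 : 64 * (E ^ 4 * X) ≤ Z := by
        rw [hZ]
        have := mul_le_mul_of_nonneg_right h5 hX0.le
        linarith
      have h8 : 16384 ≤ Z := by
        have h9 : 256 ≤ E ^ 4 * X := by
          calc (256 : ℝ) = 256 * 1 := by norm_num
            _ ≤ E ^ 4 * X := mul_le_mul h6 hX1 (by norm_num) (by positivity)
        linarith
      have h9 : 67 * Λ ^ 2 * (E ^ 4 * X) ≤ 67 / 64 * (Λ ^ 2 * Z) := by
        have := mul_le_mul_of_nonneg_left h7 (by positivity : 0 ≤ Λ ^ 2)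
        nlinarith
      have h10 : 0.48 * Z ≤ Λ ^ 2 * Z := mul_le_mul_of_nonneg_right h4 hZ0.le
      have h11 : 700 * Λ ^ 2 * E ^ 7 * X = 700 * (Λ ^ 2 * Z) := by rw [hZ]; ring
      rw [h11]
      linarith
    exact_mod_cast h3

section
variable {V : Type} [Fintype V] [DecidableEq V] (G : SimpleGraph V) [DecidableRel G.Adj] (d : ℕ)

/-- small densities in regular graphs -/
theorem main3 (hd : 1 ≤ d) (hG : G.IsRegularOfDegree d) (s : ℕ) (hs2 : 2 ≤ s)
    (hs : s ≤ Fintype.card V) (κ q : ℝ) (hκ : 0 < κ) (hκ1 : κ ≤ 1) (hq : 0 < q)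
    (hq1 : q ≤ 1 / 2) (k : ℕ)
    (hk : 700 * Real.log (2 * s) ^ 2 * (4 / κ) ^ 7 *
      (s : ℝ) ^ (2 * Real.log (4 / κ) / Real.log (1 / q)) ≤ k)
    (L : (Finset V → ℝ) →ₗ[ℝ] ℝ) (hL : IsSheraliAdams k L) (hLs : HasSize k s L)
    (he : L (fun S => (bdr G S : ℝ)) ≤ (1 - κ) * (d * s)) :
    ∃ S : Finset V, S.card = s ∧
      (bdr G S : ℝ) / (d * S.card) ≤ 1 - κ ^ 3 * q ^ 2 / 32768 := by
  obtain ⟨T, M, j, hT, hTs, hM, hMT, hj, hMj⟩ := choice3 s hs2 κ q hκ hκ1 hq hq1 k hk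
  have hd0 : (0 : ℝ) < d := by exact_mod_cast hd
  have he' : L (bd (wk G d)) ≤ (1 - κ) * s := by
    have h1 : bd (wk G d) = (1 / (d : ℝ)) • fun S : Finset V => (bdr G S : ℝ) := by
      funext S
      rw [bd_bdr, Pi.smul_apply, smul_eq_mul]; ring
    rw [h1, map_smul, smul_eq_mul, one_div, inv_mul_le_iff₀ hd0]
    linarith
  obtain ⟨S, h1, h2⟩ := dicho3 (wk G d) (wk_nonneg G d) (wk_symm G d) (wk_row G d hd hG) s hs2 hs
    κ q hκ hκ1 hq hq1 T hT hTs M hM hMT j hj L (sa_mono hMj hL) (size_mono hMj hLs) he'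
  refine ⟨S, h1, ?_⟩
  rw [ins_bdr G d hd hG, h1] at h2
  have hs0 : (0 : ℝ) < s := by
    have : 0 < s := by omega
    exact_mod_cast this
  rw [h1, div_le_iff₀ (by positivity)]
  have h3 : (bdr G S : ℝ) / d ≤ s - κ ^ 3 * q ^ 2 / 32768 * s := by linarith
  rw [div_le_iff₀ hd0] at h3
  linarith

end

end Run7.h881.SE
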