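import Mathlib

/-!
Kernels whose small sets retain little mass: bounds for quadratic forms.
-/

set_option autoImplicit false
set_option linter.unusedSectionVars false

namespace Run7.h881.SE

open Finset

section
variable {V : Type} [Fintype V] [DecidableEq V]

/-- the mass inside of `S` -/
def ins (P : V → V → ℝ) (S : Finset V) : ℝ := ∑ u ∈ S, ∑ v ∈ S, P u v

/-- the layer cake inequality -/
theorem layer (P : V → V → ℝ) (β : ℝ) :
    ∀ (N : ℕ) (g : V → ℝ), (∀ u, 0 ≤ g u) → (univ.filter fun u => 0 < g u).card = N →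
      (∀ t : ℝ, 0 ≤ t → ins P (univ.filter fun u => t < g u) ≤
        β * (univ.filter fun u => t < g u).card) →
      ∑ u, ∑ v, P u v * min (g u) (g v) ≤ β * ∑ u, g u := by
  intro N
  induction N using Nat.strong_induction_on with
  | _ N ih =>
    intro g hg hN hlev
    rcases Nat.eq_zero_or_pos N with h0 | h0
    · have hz : ∀ u, g u = 0 := by
        intro u
        rw [h0, card_eq_zero, filter_eq_empty_iff] at hN
        have := hN (mem_univ u)
        linarith [hg u, not_lt.1 this]
      simp [hz]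
    · have hne : (univ.filter fun u => 0 < g u).Nonempty := by
        rw [← card_pos, hN]; exact h0
      obtain ⟨w, hw, hmin⟩ := exists_min_image _ g hne
      rw [mem_filter] at hw
      set m := g w with hm
      have hm0 : 0 < m := hw.2
      set g' : V → ℝ := fun u => if 0 < g u then g u - m else 0 with hg'
      have hg'0 : ∀ u, 0 ≤ g' u := by
        intro u
        simp only [hg']
        split_ifs with h
        · have := hmin u (by rw [mem_filter]; exact ⟨mem_univ u, h⟩)
          linarith
        · exact le_rfl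
      have hlt : (univ.filter fun u => 0 < g' u).card < N := by
        rw [← hN]
        refine card_lt_card ⟨?_, ?_⟩
        · intro u hu
          rw [mem_filter] at hu ⊢
          refine ⟨mem_univ u, ?_⟩
          by_contra hcon
          have h1 : g' u = 0 := by simp only [hg']; rw [if_neg hcon]
          rw [h1] at hu
          exact lt_irrefl _ hu.2
        · intro hcon
          have h1 : w ∈ univ.filter fun u => 0 < g' u := hcon (by rw [mem_filter]; exact hw)
          rw [mem_filter] at h1
          have h2 : g' w = 0 := by simp only [hg']; rw [if_pos hm0]; ring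
          rw [h2] at h1
          exact lt_irrefl _ h1.2
      have hl' : ∀ t : ℝ, 0 ≤ t → (univ.filter fun u => t < g' u) =
          univ.filter fun u => t + m < g u := by
        intro t ht
        ext u
        simp only [mem_filter, mem_univ, true_and, hg']
        split_ifs with h
        · constructor <;> intro h1 <;> linarith
        · constructor
          · intro h1; linarith
          · intro h1; exact absurd (by linarith : 0 < g u) h
      have h1 := ih _ hlt g' hg'0 rfl (fun t ht => by
        rw [hl' t ht]; exact hlev (t + m) (by linarith))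
      have h2 : ∀ u v, P u v * min (g u) (g v) =
          P u v * min (g' u) (g' v) + m * (if 0 < g u then (if 0 < g v then P u v else 0) else 0) := by
        intro u v
        simp only [hg']
        by_cases hu : 0 < g u
        · by_cases hv : 0 < g v
          · simp only [if_pos hu, if_pos hv]
            rw [min_sub_sub_right]; ring
          · simp only [if_pos hu, if_neg hv]
            have hv0 : g v = 0 := le_antisymm (not_lt.1 hv) (hg v)
            have hmu := hmin u (by rw [mem_filter]; exact ⟨mem_univ u, hu⟩)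
            rw [hv0, min_eq_right hu.le, min_eq_right (by linarith)]; ring
        · simp only [if_neg hu]
          have hu0 : g u = 0 := le_antisymm (not_lt.1 hu) (hg u)
          rw [hu0, min_eq_left (hg v), min_eq_left]
          · ring
          · split_ifs with h
            · have hmv := hmin v (by rw [mem_filter]; exact ⟨mem_univ v, h⟩)
              linarith
            · exact le_rfl
      have h3 : ∑ u, ∑ v, (if 0 < g u then (if 0 < g v then P u v else 0) else 0) =
          ins P (univ.filter fun u => 0 < g u) := by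
        unfold ins
        rw [sum_filter]
        refine sum_congr rfl fun u _ => ?_
        split_ifs with h
        · rw [sum_filter]
        · simp
      have h4 : ∑ u, g u = ∑ u, g' u + m * (univ.filter fun u => 0 < g u).card := by
        rw [card_filter]
        push_cast
        rw [mul_sum, ← sum_add_distrib]
        refine sum_congr rfl fun u _ => ?_
        simp only [hg']
        split_ifs with h
        · ring
        · have : g u = 0 := le_antisymm (not_lt.1 h) (hg u)
          rw [this]; ring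
      simp only [h2, sum_add_distrib, ← mul_sum]
      rw [h3, h4]
      have h5 := hlev 0 le_rfl
      have h6 := mul_le_mul_of_nonneg_left h5 hm0.le
      linarith

/-- functions with small level sets -/
theorem ray (P : V → V → ℝ) (hP : ∀ u v, 0 ≤ P u v) (hsym : ∀ u v, P u v = P v u)
    (hrow : ∀ u, ∑ v, P u v ≤ 1) (A : Finset V) (s1 lam : ℝ) (hlam : 0 < lam)
    (hA : ∀ S : Finset V, S ⊆ A → S.Nonempty → (S.card : ℝ) ≤ s1 →
      ins P S ≤ lam ^ 2 / 2 * S.card)
    (f : V → ℝ) (hf : ∀ u, 0 ≤ f u) (hfA : ∀ u, u ∉ A → f u = 0)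
    (hcard : ((univ.filter fun u => 0 < f u).card : ℝ) ≤ s1) :
    ∑ u, ∑ v, P u v * (f u * f v) ≤ lam * ∑ u, f u ^ 2 := by
  have h1 : ∑ u, ∑ v, P u v * min (f u ^ 2) (f v ^ 2) ≤ lam ^ 2 / 2 * ∑ u, f u ^ 2 := by
    refine layer P _ _ (fun u => f u ^ 2) (fun u => sq_nonneg _) rfl ?_
    intro t ht
    rcases (univ.filter fun u => t < f u ^ 2).eq_empty_or_nonempty with h | h
    · rw [h]; simp [ins]
    · refine hA _ ?_ h ?_
      · intro u hu
        rw [mem_filter] at hu
        by_contra hcon
        rw [hfA u hcon] at hu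
        have := hu.2
        norm_num at this
        linarith
      · refine le_trans ?_ hcard
        refine Nat.cast_le.2 (card_le_card ?_)
        intro u hu
        rw [mem_filter] at hu ⊢
        refine ⟨mem_univ u, ?_⟩
        rcases (hf u).eq_or_lt with h0 | h0
        · rw [← h0] at hu
          have := hu.2
          norm_num at this
          linarith
        · exact h0
  have h2 : ∑ u, ∑ v, P u v * max (f u ^ 2) (f v ^ 2) ≤ 2 * ∑ u, f u ^ 2 := by
    calc ∑ u, ∑ v, P u v * max (f u ^ 2) (f v ^ 2)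
        ≤ ∑ u, ∑ v, (P u v * f u ^ 2 + P u v * f v ^ 2) := by
          refine sum_le_sum fun u _ => sum_le_sum fun v _ => ?_
          rw [← mul_add]
          refine mul_le_mul_of_nonneg_left (max_le ?_ ?_) (hP u v)
          · linarith [sq_nonneg (f v)]
          · linarith [sq_nonneg (f u)]
      _ = ∑ u, ∑ v, P u v * f u ^ 2 + ∑ u, ∑ v, P u v * f v ^ 2 := by
          simp only [sum_add_distrib]
      _ = ∑ u, (∑ v, P u v) * f u ^ 2 + ∑ v, (∑ u, P u v) * f v ^ 2 := by
          congr 1
          · exact sum_congr rfl fun u _ => by rw [sum_mul]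
          · rw [sum_comm]
            exact sum_congr rfl fun v _ => by rw [sum_mul]
      _ ≤ ∑ u, 1 * f u ^ 2 + ∑ v, 1 * f v ^ 2 := by
          refine add_le_add (sum_le_sum fun u _ => mul_le_mul_of_nonneg_right (hrow u)
            (sq_nonneg _)) (sum_le_sum fun v _ => mul_le_mul_of_nonneg_right ?_ (sq_nonneg _))
          rw [sum_congr rfl fun u _ => hsym u v]
          exact hrow v
      _ = 2 * ∑ u, f u ^ 2 := by simp only [one_mul]; ring
  have h3 : ∀ u v, P u v * (f u * f v) ≤ (1 / lam) * (P u v * min (f u ^ 2) (f v ^ 2))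
      + (lam / 4) * (P u v * max (f u ^ 2) (f v ^ 2)) := by
    intro u v
    have h4 : f u * f v ≤ (1 / lam) * min (f u ^ 2) (f v ^ 2)
        + (lam / 4) * max (f u ^ 2) (f v ^ 2) := by
      have key : ∀ a b : ℝ, a * b ≤ (1 / lam) * a ^ 2 + (lam / 4) * b ^ 2 := by
        intro a b
        have h5 : (1 / lam) * a ^ 2 + (lam / 4) * b ^ 2 - a * b =
            (1 / lam) * (a - lam * b / 2) ^ 2 := by
          field_simp
          ring
        have h6 : 0 ≤ (1 / lam) * (a - lam * b / 2) ^ 2 := by positivity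
        linarith
      rcases le_total (f u) (f v) with h | h
      · have h7 : f u ^ 2 ≤ f v ^ 2 := pow_le_pow_left₀ (hf u) h 2
        rw [min_eq_left h7, max_eq_right h7]
        exact key _ _
      · have h7 : f v ^ 2 ≤ f u ^ 2 := pow_le_pow_left₀ (hf v) h 2
        rw [min_eq_right h7, max_eq_left h7, mul_comm (f u)]
        exact key _ _
    have := mul_le_mul_of_nonneg_left h4 (hP u v)
    linarith
  calc ∑ u, ∑ v, P u v * (f u * f v)
      ≤ ∑ u, ∑ v, ((1 / lam) * (P u v * min (f u ^ 2) (f v ^ 2))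
      + (lam / 4) * (P u v * max (f u ^ 2) (f v ^ 2))) :=
        sum_le_sum fun u _ => sum_le_sum fun v _ => h3 u v
    _ = (1 / lam) * (∑ u, ∑ v, P u v * min (f u ^ 2) (f v ^ 2))
      + (lam / 4) * ∑ u, ∑ v, P u v * max (f u ^ 2) (f v ^ 2) := by
        simp only [sum_add_distrib, mul_sum]
    _ ≤ (1 / lam) * (lam ^ 2 / 2 * ∑ u, f u ^ 2) + (lam / 4) * (2 * ∑ u, f u ^ 2) :=
        add_le_add (mul_le_mul_of_nonneg_left h1 (by positivity))
          (mul_le_mul_of_nonneg_left h2 (by positivity))
    _ = lam * ∑ u, f u ^ 2 := by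
        field_simp
        ring

/-- all functions, with an error -/
theorem trunc (P : V → V → ℝ) (hP : ∀ u v, 0 ≤ P u v) (hsym : ∀ u v, P u v = P v u)
    (hrow : ∀ u, ∑ v, P u v ≤ 1) (A : Finset V) (s1 lam : ℝ) (hlam : 0 < lam) (hs1 : 0 < s1)
    (hA : ∀ S : Finset V, S ⊆ A → S.Nonempty → (S.card : ℝ) ≤ s1 →
      ins P S ≤ lam ^ 2 / 2 * S.card)
    (f : V → ℝ) (hf : ∀ u, 0 ≤ f u) (hfA : ∀ u, u ∉ A → f u = 0) :
    ∑ u, ∑ v, P u v * (f u * f v) ≤ lam * ∑ u, f u ^ 2 + 2 * (∑ u, f u) ^ 2 / s1 := by
  set F := ∑ u, f u with hF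
  have hF0 : 0 ≤ F := sum_nonneg fun u _ => hf u
  set τ := F / s1 with hτ
  have hτ0 : 0 ≤ τ := by positivity
  set g : V → ℝ := fun u => max (f u - τ) 0 with hg
  set h : V → ℝ := fun u => min (f u) τ with hh
  have hg0 : ∀ u, 0 ≤ g u := fun u => le_max_right _ _
  have hh0 : ∀ u, 0 ≤ h u := fun u => le_min (hf u) hτ0
  have hhτ : ∀ u, h u ≤ τ := fun u => min_le_right _ _
  have hsum : ∀ u, f u = g u + h u := by
    intro u
    simp only [hg, hh]
    rcases le_total (f u) τ with h1 | h1
    · rw [max_eq_right (by linarith), min_eq_left h1]; ring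
    · rw [max_eq_left (by linarith), min_eq_right h1]; ring
  have hgf : ∀ u, g u ≤ f u := fun u => by have := hsum u; linarith [hh0 u]
  have hgA : ∀ u, u ∉ A → g u = 0 := by
    intro u hu
    have := hgf u
    rw [hfA u hu] at this
    exact le_antisymm this (hg0 u)
  have hcard : ((univ.filter fun u => 0 < g u).card : ℝ) ≤ s1 := by
    by_contra hcon
    push Not at hcon
    have hpos : 0 < F := by
      by_contra hF1
      have hF2 : F = 0 := le_antisymm (not_lt.1 hF1) hF0
      have hz : ∀ u, f u = 0 := fun u =>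
        (sum_eq_zero_iff_of_nonneg (fun u _ => hf u)).1 hF2 u (mem_univ u)
      have hz2 : (univ.filter fun u => 0 < g u) = ∅ := by
        rw [filter_eq_empty_iff]
        intro u _
        have := hgf u
        rw [hz u] at this
        exact not_lt.2 this
      rw [hz2] at hcon
      simp at hcon
      linarith
    have hτ1 : 0 < τ := by positivity
    have h1 : τ * (univ.filter fun u => 0 < g u).card ≤ F := by
      rw [hF]
      calc τ * (univ.filter fun u => 0 < g u).card
          = ∑ u ∈ univ.filter (fun u => 0 < g u), τ := by rw [sum_const, nsmul_eq_mul]; ring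
        _ ≤ ∑ u ∈ univ.filter (fun u => 0 < g u), f u := by
            refine sum_le_sum fun u hu => ?_
            rw [mem_filter] at hu
            have := hu.2
            simp only [hg] at this
            rcases lt_max_iff.1 this with h2 | h2
            · linarith
            · exact absurd h2 (lt_irrefl _)
        _ ≤ ∑ u, f u := sum_le_sum_of_subset_of_nonneg (subset_univ _) fun u _ _ => hf u
    have h2 : τ * s1 < τ * (univ.filter fun u => 0 < g u).card :=
      mul_lt_mul_of_pos_left hcon hτ1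
    have h3 : τ * s1 = F := by rw [hτ]; field_simp
    linarith
  have h1 := ray P hP hsym hrow A s1 lam hlam hA g hg0 hgA hcard
  have h2 : ∑ u, ∑ v, P u v * (g u * h v) ≤ τ * ∑ u, g u := by
    rw [mul_sum]
    refine sum_le_sum fun u _ => ?_
    calc ∑ v, P u v * (g u * h v) ≤ ∑ v, P u v * (g u * τ) :=
          sum_le_sum fun v _ => mul_le_mul_of_nonneg_left
            (mul_le_mul_of_nonneg_left (hhτ v) (hg0 u)) (hP u v)
      _ = (∑ v, P u v) * (g u * τ) := by rw [sum_mul]
      _ ≤ 1 * (g u * τ) := mul_le_mul_of_nonneg_right (hrow u) (mul_nonneg (hg0 u) hτ0)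
      _ = τ * g u := by ring
  have h3 : ∑ u, ∑ v, P u v * (h u * g v) ≤ τ * ∑ u, g u := by
    rw [sum_comm]
    refine le_trans (le_of_eq ?_) h2
    refine sum_congr rfl fun u _ => sum_congr rfl fun v _ => ?_
    rw [hsym v u]; ring
  have h4 : ∑ u, ∑ v, P u v * (h u * h v) ≤ τ * ∑ u, h u := by
    rw [mul_sum]
    refine sum_le_sum fun u _ => ?_
    calc ∑ v, P u v * (h u * h v) ≤ ∑ v, P u v * (h u * τ) :=
          sum_le_sum fun v _ => mul_le_mul_of_nonneg_left
            (mul_le_mul_of_nonneg_left (hhτ v) (hh0 u)) (hP u v)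
      _ = (∑ v, P u v) * (h u * τ) := by rw [sum_mul]
      _ ≤ 1 * (h u * τ) := mul_le_mul_of_nonneg_right (hrow u) (mul_nonneg (hh0 u) hτ0)
      _ = τ * h u := by ring
  have h5 : ∑ u, ∑ v, P u v * (f u * f v) = ∑ u, ∑ v, P u v * (g u * g v)
      + ∑ u, ∑ v, P u v * (g u * h v) + ∑ u, ∑ v, P u v * (h u * g v)
      + ∑ u, ∑ v, P u v * (h u * h v) := by
    simp only [← sum_add_distrib]
    refine sum_congr rfl fun u _ => sum_congr rfl fun v _ => ?_
    rw [hsum u, hsum v]; ring
  have h6 : ∑ u, g u ^ 2 ≤ ∑ u, f u ^ 2 :=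
    sum_le_sum fun u _ => pow_le_pow_left₀ (hg0 u) (hgf u) 2
  have h7 : F = ∑ u, g u + ∑ u, h u := by
    rw [hF, ← sum_add_distrib]
    exact sum_congr rfl fun u _ => hsum u
  have h8 : 0 ≤ ∑ u, h u := sum_nonneg fun u _ => hh0 u
  have h9 : 2 * F ^ 2 / s1 = 2 * (τ * F) := by rw [hτ]; ring
  rw [h5, h9]
  have h10 : τ * F = τ * ∑ u, g u + τ * ∑ u, h u := by rw [h7]; ring
  have h11 := mul_le_mul_of_nonneg_left h6 hlam.le
  have h12 : 0 ≤ τ * ∑ u, h u := mul_nonneg hτ0 h8
  linarith

/-- two functions -/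
theorem bil (P : V → V → ℝ) (hP : ∀ u v, 0 ≤ P u v) (hsym : ∀ u v, P u v = P v u)
    (hrow : ∀ u, ∑ v, P u v ≤ 1) (A : Finset V) (s1 lam : ℝ) (hlam : 0 < lam) (hs1 : 0 < s1)
    (hA : ∀ S : Finset V, S ⊆ A → S.Nonempty → (S.card : ℝ) ≤ s1 →
      ins P S ≤ lam ^ 2 / 2 * S.card)
    (f g : V → ℝ) (hf : ∀ u, 0 ≤ f u) (hfA : ∀ u, u ∉ A → f u = 0) (hg : ∀ u, 0 ≤ g u)
    (hgA : ∀ u, u ∉ A → g u = 0) (hf1 : ∑ u, f u ≤ 1) (hg1 : ∑ u, g u ≤ 1) :
    ∑ u, ∑ v, P u v * (f u * g v) ≤ lam * (∑ u, f u ^ 2 + ∑ u, g u ^ 2) + 4 / s1 := by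
  have h1 := trunc P hP hsym hrow A s1 lam hlam hs1 hA (fun u => f u + g u)
    (fun u => add_nonneg (hf u) (hg u)) (fun u hu => by rw [hfA u hu, hgA u hu, add_zero])
  have h2 : ∑ u, ∑ v, P u v * ((f u + g u) * (f v + g v)) =
      ∑ u, ∑ v, P u v * (f u * f v) + 2 * ∑ u, ∑ v, P u v * (f u * g v)
        + ∑ u, ∑ v, P u v * (g u * g v) := by
    have h3 : ∑ u, ∑ v, P u v * (g u * f v) = ∑ u, ∑ v, P u v * (f u * g v) := by
      rw [sum_comm]
      refine sum_congr rfl fun u _ => sum_congr rfl fun v _ => ?_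
      rw [hsym v u]; ring
    have h4 : ∑ u, ∑ v, P u v * ((f u + g u) * (f v + g v)) =
      ∑ u, ∑ v, P u v * (f u * f v) + ∑ u, ∑ v, P u v * (f u * g v)
        + ∑ u, ∑ v, P u v * (g u * f v) + ∑ u, ∑ v, P u v * (g u * g v) := by
      simp only [← sum_add_distrib]
      exact sum_congr rfl fun u _ => sum_congr rfl fun v _ => by ring
    rw [h4, h3]; ring
  have h3 : 0 ≤ ∑ u, ∑ v, P u v * (f u * f v) := sum_nonneg fun u _ => sum_nonneg fun v _ =>
    mul_nonneg (hP u v) (mul_nonneg (hf u) (hf v))
  have h4 : 0 ≤ ∑ u, ∑ v, P u v * (g u * g v) := sum_nonneg fun u _ => sum_nonneg fun v _ =>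
    mul_nonneg (hP u v) (mul_nonneg (hg u) (hg v))
  have h5 : ∑ u, (f u + g u) ^ 2 ≤ 2 * (∑ u, f u ^ 2 + ∑ u, g u ^ 2) := by
    rw [← sum_add_distrib, mul_sum]
    refine sum_le_sum fun u _ => ?_
    nlinarith [sq_nonneg (f u - g u)]
  have h6 : (∑ u, (f u + g u)) ^ 2 ≤ 4 := by
    rw [sum_add_distrib]
    have h7 : 0 ≤ ∑ u, f u := sum_nonneg fun u _ => hf u
    have h8 : 0 ≤ ∑ u, g u := sum_nonneg fun u _ => hg u
    nlinarith
  have h7 : 2 * (∑ u, (f u + g u)) ^ 2 / s1 ≤ 8 / s1 :=
    div_le_div_of_nonneg_right (by linarith) hs1.le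
  have h8 : (8 : ℝ) / s1 = 2 * (4 / s1) := by ring
  rw [h2] at h1
  have h9 := mul_le_mul_of_nonneg_left h5 hlam.le
  nlinarith

end

end Run7.h881.SE
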