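import Pool.Agent.Run7.h881.SE.Den

/-!
The basic semidefinite program of small-set expansion: growth of the level sets of the killed walk.
-/

set_option autoImplicit false
set_option linter.unusedSectionVars false

namespace Run7.h881.SE

open Finset Run7.h881.SA

section
variable {V : Type} [Fintype V] [DecidableEq V]

/-- iterated kernel applied to a function -/
noncomputable def itr (P : V → V → ℝ) (A : Finset V) (g : V → ℝ) : ℕ → V → ℝ
  | 0 => g
  | m + 1 => fun v => ∑ w, rst P A v w * itr P A g m w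

section
variable (P : V → V → ℝ) (hP : ∀ u v, 0 ≤ P u v) (hsym : ∀ u v, P u v = P v u)
    (hrow : ∀ u, ∑ v, P u v ≤ 1) (A : Finset V) (g : V → ℝ)

theorem itr_pow (m : ℕ) (v : V) : itr P A g m v = ∑ w, (rst P A ^ m) v w * g w := by
  induction m generalizing v with
  | zero =>
    rw [pow_zero]
    simp only [itr, Matrix.one_apply]
    simp
  | succ m ih =>
    simp only [itr]
    rw [pow_succ']
    simp only [Matrix.mul_apply, ih, sum_mul, mul_sum]
    rw [sum_comm]
    exact sum_congr rfl fun x _ => sum_congr rfl fun y _ => by ring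

include hP in
theorem itr_nonneg (hg : ∀ v, 0 ≤ g v) (m : ℕ) (v : V) : 0 ≤ itr P A g m v := by
  rw [itr_pow]
  exact sum_nonneg fun w _ => mul_nonneg (pw_nonneg P hP A m v w) (hg w)

include hP hrow in
theorem itr_le_one (hg : ∀ v, g v ≤ 1) (m : ℕ) (v : V) : itr P A g m v ≤ 1 := by
  rw [itr_pow]
  calc ∑ w, (rst P A ^ m) v w * g w ≤ ∑ w, (rst P A ^ m) v w * 1 :=
        sum_le_sum fun w _ => mul_le_mul_of_nonneg_left (hg w) (pw_nonneg P hP A m v w)
    _ ≤ 1 := by simpa using pw_row P hP hrow A m v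

include hP hsym hrow in
theorem itr_sum (hg : ∀ v, 0 ≤ g v) (m : ℕ) : ∑ v, itr P A g m v ≤ ∑ v, g v := by
  simp only [itr_pow]
  rw [sum_comm]
  refine sum_le_sum fun w _ => ?_
  rw [← sum_mul]
  have h1 : ∑ v, (rst P A ^ m) v w ≤ 1 := by
    rw [sum_congr rfl fun v _ => pw_symm P hsym A m v w]
    exact pw_row P hP hrow A m w
  have := mul_le_mul_of_nonneg_right h1 (hg w)
  linarith

theorem itr_off (hg : ∀ v, v ∉ A → g v = 0) (m : ℕ) (v : V) (hv : v ∉ A) :
    itr P A g m v = 0 := by
  cases m with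
  | zero => exact hg v hv
  | succ m =>
    simp only [itr]
    refine sum_eq_zero fun w _ => ?_
    rw [rst_apply, if_neg (fun h => hv h.1), zero_mul]

end

set_option maxHeartbeats 2000000 in
/-- **growth** of the level sets -/
theorem grow (P : V → V → ℝ) (hP : ∀ u v, 0 ≤ P u v) (hsym : ∀ u v, P u v = P v u)
    (hrow : ∀ u, ∑ v, P u v ≤ 1) (A : Finset V) (X : V → V → ℝ) (hX : ∀ M, PsdM M X)
    (hX0 : ∀ u v, 0 ≤ X u v) (hXs : ∀ u v, X u v = X v u) (hXd : ∀ u v, X u v ≤ X u u)
    (s : ℝ) (hs : 0 ≤ s) (hXrow : ∀ u, ∑ v, X u v ≤ s * X u u) (r : ℝ) (hr : 0 < r) (hr1 : r ≤ 1)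
    (h1 : r * trA A X ≤ ∑ u ∈ A, ∑ v ∈ A, P u v * X u v) (htr : 0 < trA A X)
    (T : ℕ) (hT : 1 ≤ T) (N : ℕ) (hN : 2 ≤ N) (β : ℝ) (hβ : 0 ≤ β)
    (hA : ∀ S : Finset V, S ⊆ A → S.Nonempty → S.card ≤ N → ins P S ≤ β * S.card)
    (R : ℝ) (hR : 0 ≤ R) (θ : ℝ) (hθ : θ = (r / 2) ^ (2 * T) / 8)
    (hK : β * (1 + 2 * s / (θ * (N - 1))) * (R + 1) < θ) (hRt : s / θ < R ^ (2 * T)) : False := by
  have hN1 : (1 : ℝ) ≤ (N : ℝ) - 1 := by
    have : (2 : ℝ) ≤ N := by exact_mod_cast hN
    linarith
  have hθ0 : 0 < θ := by rw [hθ]; positivity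
  set K := 1 + 2 * s / (θ * (N - 1)) with hKd
  have hK1 : 1 ≤ K := by
    have : 0 ≤ 2 * s / (θ * ((N : ℝ) - 1)) := by positivity
    linarith
  -- correlation after `2 T` steps
  have hcor : trA A X * r ^ (2 * T) / 8 ≤ cor P A X (T + T) := by
    obtain ⟨M, hM⟩ := exists_nat_gt (32 * (T : ℝ) ^ 2 / r ^ (2 * T) + 2)
    have hrT : 0 < r ^ (2 * T) := by positivity
    have hq0 : 0 ≤ 32 * (T : ℝ) ^ 2 / r ^ (2 * T) := by positivity
    have hM2 : (2 : ℝ) < M := by linarith
    have hM2' : 2 ≤ M := by
      have : 2 < M := by exact_mod_cast hM2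
      omega
    have e1 : 1 - (1 - r) = r := by ring
    have h2 := seq_lower (cor P A X) (trA A X) (1 - r) ((M : ℝ) - 1) T htr (by linarith)
      (by linarith) (by linarith) (cor_zero P A X)
      (by rw [cor_one, e1]; exact h1)
      (fun i j α β hα hβ => conv P hP hsym hrow A X M hM2' (hX M) (fun u => hX0 u u) hXs i j
        α β hα hβ) hT (by
          rw [e1, ← div_le_iff₀ hrT]
          linarith)
    rw [e1] at h2
    exact h2
  -- a good starting vertex
  obtain ⟨u, huA, hu0, hu⟩ : ∃ u ∈ A, 0 < X u u ∧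
      X u u * (r ^ (2 * T) / 8) ≤ ∑ v ∈ A, (rst P A ^ (T + T)) u v * X u v := by
    by_contra hcon
    push Not at hcon
    obtain ⟨w, hwA, hw⟩ : ∃ w ∈ A, 0 < X w w := by
      by_contra h
      push Not at h
      have : trA A X ≤ 0 := sum_nonpos h
      linarith
    have h2 : cor P A X (T + T) < ∑ u ∈ A, X u u * (r ^ (2 * T) / 8) := by
      unfold cor
      refine sum_lt_sum (fun u hu => ?_) ⟨w, hwA, hcon w hwA hw⟩
      rcases (hX0 u u).eq_or_lt with h | h
      · have h3 : ∀ v, X u v = 0 := fun v => le_antisymm (by rw [h]; exact hXd u v) (hX0 u v)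
        simp [h3]
      · exact (hcon u hu h).le
    rw [← sum_mul] at h2
    change cor P A X (T + T) < trA A X * (r ^ (2 * T) / 8) at h2
    linarith
  set g : V → ℝ := fun v => if v ∈ A then X u v / X u u else 0 with hg
  have hg0 : ∀ v, 0 ≤ g v := by
    intro v
    simp only [hg]
    split_ifs
    · exact div_nonneg (hX0 u v) hu0.le
    · exact le_rfl
  have hg1 : ∀ v, g v ≤ 1 := by
    intro v
    simp only [hg]
    split_ifs
    · rw [div_le_one hu0]; exact hXd u v
    · exact zero_le_one
  have hgA : ∀ v, v ∉ A → g v = 0 := fun v hv => by simp only [hg]; rw [if_neg hv]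
  have hgs : ∑ v, g v ≤ s := by
    calc ∑ v, g v ≤ ∑ v, X u v / X u u := by
          refine sum_le_sum fun v _ => ?_
          simp only [hg]
          split_ifs
          · exact le_rfl
          · exact div_nonneg (hX0 u v) hu0.le
      _ ≤ s := by
          rw [← sum_div, div_le_iff₀ hu0]
          exact hXrow u
  set θ0 := r ^ (2 * T) / 8 with hθ0d
  have hθ00 : 0 < θ0 := by positivity
  have hθθ : θ = θ0 / 2 ^ (2 * T) := by
    rw [hθ, hθ0d, div_pow]; ring
  have hstart : θ0 ≤ itr P A g (2 * T) u := by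
    rw [itr_pow]
    have h2 : ∑ w, (rst P A ^ (2 * T)) u w * g w =
        (∑ v ∈ A, (rst P A ^ (T + T)) u v * X u v) / X u u := by
      rw [sum_div, ← sum_subset (subset_univ A)]
      · refine sum_congr rfl fun v hv => ?_
        simp only [hg]
        rw [if_pos hv, two_mul, mul_div_assoc]
      · intro v _ hv
        rw [hgA v hv, mul_zero]
    rw [h2, le_div_iff₀ hu0]
    linarith
  -- level sets
  set S : ℕ → Finset V := fun m => univ.filter fun v => θ0 / 2 ^ m ≤ itr P A g (2 * T - m) v
    with hS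
  have hSmem : ∀ m v, v ∈ S m ↔ θ0 / 2 ^ m ≤ itr P A g (2 * T - m) v := by
    intro m v
    simp only [hS, mem_filter, mem_univ, true_and]
  have hSA : ∀ m, S m ⊆ A := by
    intro m v hv
    rw [hSmem] at hv
    by_contra hcon
    rw [itr_off P A g hgA _ v hcon] at hv
    have : 0 < θ0 / 2 ^ m := by positivity
    linarith
  have hSc : ∀ m ≤ 2 * T, ((S m).card : ℝ) ≤ s / θ := by
    intro m hm
    rw [le_div_iff₀ hθ0]
    have h2 : θ ≤ θ0 / 2 ^ m := by
      rw [hθθ]
      exact div_le_div_of_nonneg_left hθ00.le (by positivity)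
        (pow_le_pow_right₀ (by norm_num) hm)
    calc ((S m).card : ℝ) * θ ≤ ∑ v ∈ S m, θ0 / 2 ^ m := by
          rw [sum_const, nsmul_eq_mul]
          exact mul_le_mul_of_nonneg_left h2 (Nat.cast_nonneg _)
      _ ≤ ∑ v ∈ S m, itr P A g (2 * T - m) v := sum_le_sum fun v hv => (hSmem m v).1 hv
      _ ≤ ∑ v, itr P A g (2 * T - m) v := sum_le_sum_of_subset_of_nonneg (subset_univ _)
          fun v _ _ => itr_nonneg P hP A g hg0 _ v
      _ ≤ ∑ v, g v := itr_sum P hP hsym hrow A g hg0 _
      _ ≤ s := hgs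
  have hmass : ∀ m < 2 * T, ∀ v ∈ S m, θ ≤ ∑ w ∈ S (m + 1), P v w := by
    intro m hm v hv
    rw [hSmem] at hv
    have e1 : 2 * T - m = (2 * T - (m + 1)) + 1 := by omega
    rw [e1] at hv
    simp only [itr] at hv
    have h2 : ∑ w, rst P A v w * itr P A g (2 * T - (m + 1)) w ≤
        ∑ w ∈ S (m + 1), P v w + θ0 / 2 ^ (m + 1) := by
      rw [← sum_add_sum_compl (S (m + 1))]
      refine add_le_add (sum_le_sum fun w _ => ?_) ?_
      · have h3 := itr_le_one P hP hrow A g hg1 (2 * T - (m + 1)) w
        have h4 := rst_le P hP A v w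
        have h5 := rst_nonneg P hP A v w
        nlinarith
      · calc ∑ w ∈ (S (m + 1))ᶜ, rst P A v w * itr P A g (2 * T - (m + 1)) w
            ≤ ∑ w ∈ (S (m + 1))ᶜ, rst P A v w * (θ0 / 2 ^ (m + 1)) := by
              refine sum_le_sum fun w hw => ?_
              rw [mem_compl, hSmem] at hw
              push Not at hw
              exact mul_le_mul_of_nonneg_left hw.le (rst_nonneg P hP A v w)
          _ ≤ ∑ w, rst P A v w * (θ0 / 2 ^ (m + 1)) :=
              sum_le_sum_of_subset_of_nonneg (subset_univ _) fun w _ _ =>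
                mul_nonneg (rst_nonneg P hP A v w) (by positivity)
          _ = (∑ w, rst P A v w) * (θ0 / 2 ^ (m + 1)) := by rw [sum_mul]
          _ ≤ 1 * (θ0 / 2 ^ (m + 1)) :=
              mul_le_mul_of_nonneg_right (rst_row P hP hrow A v) (by positivity)
          _ = _ := one_mul _
    have h3 : θ0 / 2 ^ m = θ0 / 2 ^ (m + 1) + θ0 / 2 ^ (m + 1) := by
      rw [pow_succ]; field_simp; norm_num
    have h4 : θ ≤ θ0 / 2 ^ (m + 1) := by
      rw [hθθ]
      exact div_le_div_of_nonneg_left hθ00.le (by positivity)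
        (pow_le_pow_right₀ (by norm_num) (by omega))
    linarith
  -- one step of growth
  have hgrow : ∀ m < 2 * T, (S m).Nonempty → R * (S m).card ≤ (S (m + 1)).card := by
    intro m hm hne
    by_contra hcon
    push Not at hcon
    set W := S m ∪ S (m + 1) with hW
    have hWA : W ⊆ A := union_subset (hSA m) (hSA (m + 1))
    have hWne : W.Nonempty := hne.mono subset_union_left
    have hWc : (W.card : ℝ) ≤ (S m).card + (S (m + 1)).card := by
      exact_mod_cast card_union_le _ _
    have hWc2 : (W.card : ℝ) ≤ 2 * (s / θ) := by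
      linarith [hSc m (by omega), hSc (m + 1) (by omega)]
    have hlow : θ * (S m).card ≤ ins P W := by
      unfold ins
      calc θ * (S m).card = ∑ v ∈ S m, θ := by rw [sum_const, nsmul_eq_mul]; ring
        _ ≤ ∑ v ∈ S m, ∑ w ∈ S (m + 1), P v w := sum_le_sum fun v hv => hmass m hm v hv
        _ ≤ ∑ v ∈ S m, ∑ w ∈ W, P v w := sum_le_sum fun v _ =>
            sum_le_sum_of_subset_of_nonneg subset_union_right fun w _ _ => hP v w
        _ ≤ _ := sum_le_sum_of_subset_of_nonneg subset_union_left fun v _ _ =>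
            sum_nonneg fun w _ => hP v w
    have hup : ins P W ≤ β * K * W.card := by
      rcases le_or_gt W.card N with hle | hgt
      · refine (hA W hWA hWne hle).trans ?_
        have h0 : 0 ≤ β * W.card := by positivity
        nlinarith
      · obtain ⟨m', hm'⟩ := Nat.exists_eq_add_of_lt hgt
        obtain ⟨S', hS'W, hS'c, h2⟩ := avgtrim P hP hsym N hN (m' + 1) W (by omega)
        have hS'ne : S'.Nonempty := by rw [← card_pos]; omega
        have h3 := hA S' (hS'W.trans hWA) hS'ne hS'c.le
        rw [hS'c] at h3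
        have hWN : (N : ℝ) < W.card := by exact_mod_cast hgt
        have hW1 : 0 ≤ (W.card : ℝ) * (W.card - 1) := by nlinarith
        have h4 := h2.trans (mul_le_mul_of_nonneg_right h3 hW1)
        have hN0 : (0 : ℝ) < N := by linarith
        have h5 : (ins P W * (N - 1)) * N ≤ (β * (W.card * (W.card - 1))) * N := by nlinarith
        have h6 : ins P W * (N - 1) ≤ β * (W.card * (W.card - 1)) :=
          le_of_mul_le_mul_right h5 hN0
        rw [← le_div_iff₀ (by linarith : (0 : ℝ) < (N : ℝ) - 1)] at h6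
        refine h6.trans ?_
        have h7 : (W.card : ℝ) / (N - 1) ≤ 2 * s / (θ * (N - 1)) := by
          rw [div_le_div_iff₀ (by linarith) (by positivity)]
          have h8 : (W.card : ℝ) * θ ≤ 2 * s := by
            have := mul_le_mul_of_nonneg_right hWc2 hθ0.le
            have h9 : 2 * (s / θ) * θ = 2 * s := by field_simp
            linarith
          have := mul_le_mul_of_nonneg_right h8 (by linarith : (0 : ℝ) ≤ (N : ℝ) - 1)
          linarith
        calc β * (W.card * (W.card - 1)) / (N - 1)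
            = β * W.card * (((W.card : ℝ) - 1) / (N - 1)) := by ring
          _ ≤ β * W.card * K := by
              refine mul_le_mul_of_nonneg_left ?_ (by positivity)
              have h8 : ((W.card : ℝ) - 1) / (N - 1) ≤ W.card / (N - 1) :=
                div_le_div_of_nonneg_right (by linarith) (by linarith)
              linarith
          _ = β * K * W.card := by ring
    have hm0 : (0 : ℝ) < (S m).card := by exact_mod_cast card_pos.2 hne
    have hβK : 0 ≤ β * K := mul_nonneg hβ (by linarith)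
    have h2 : β * K * W.card ≤ β * K * ((R + 1) * (S m).card) := by
      refine mul_le_mul_of_nonneg_left ?_ hβK
      linarith
    have h3 : β * K * ((R + 1) * (S m).card) = (β * K * (R + 1)) * (S m).card := by ring
    have h4 := mul_lt_mul_of_pos_right hK hm0
    linarith
  have hu0S : u ∈ S 0 := by
    rw [hSmem]
    simpa using hstart
  have hind : ∀ m ≤ 2 * T, R ^ m ≤ (S m).card ∧ (S m).Nonempty := by
    intro m
    induction m with
    | zero =>
      intro _
      have h2 : (S 0).Nonempty := ⟨u, hu0S⟩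
      refine ⟨?_, h2⟩
      rw [pow_zero]
      exact_mod_cast card_pos.2 h2
    | succ m ih =>
      intro hm
      obtain ⟨h2, h3⟩ := ih (by omega)
      have h4 := hgrow m (by omega) h3
      refine ⟨?_, ?_⟩
      · calc R ^ (m + 1) = R * R ^ m := by ring
          _ ≤ R * (S m).card := mul_le_mul_of_nonneg_left h2 hR
          _ ≤ _ := h4
      · obtain ⟨v, hv⟩ := h3
        have h5 := hmass m (by omega) v hv
        by_contra hcon
        rw [not_nonempty_iff_eq_empty] at hcon
        rw [hcon, sum_empty] at h5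
        linarith
  have h2 := (hind (2 * T) le_rfl).1
  have h3 := hSc (2 * T) le_rfl
  linarith

end

end Run7.h881.SE
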