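import Pool.Agent.Run7.h881.SE.Rel

/-!
One step of conditioning decreases the total variance.
-/

set_option autoImplicit false
set_option linter.unusedSectionVars false

namespace Run7.h881.SE

open Finset Run7.h881.SA

section
variable {V : Type} [Fintype V] [DecidableEq V]

/-- the mass which leaves the set -/
def bd (P : V → V → ℝ) (S : Finset V) : ℝ := ∑ u, ∑ v, P u v * (xi u S * (1 - xi v S))

theorem bd_val (P : V → V → ℝ) {L : (Finset V → ℝ) →ₗ[ℝ] ℝ} (hL : IsSheraliAdams 2 L) :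
    L (bd P) = ∑ u, ∑ v, P u v * (mu L u - mm L u v) := by
  have h : bd P = ∑ u, ∑ v, P u v • (fun S => xi u S * (1 - xi v S)) := by
    funext S
    simp only [bd, Finset.sum_apply, Pi.smul_apply, smul_eq_mul]
  rw [h, map_sum]
  refine sum_congr rfl fun u _ => ?_
  rw [map_sum]
  refine sum_congr rfl fun v _ => ?_
  rw [map_smul, smul_eq_mul, one_of hL]

section
variable (P : V → V → ℝ) (hP : ∀ u v, 0 ≤ P u v) (hsym : ∀ u v, P u v = P v u)
    (hrow : ∀ u, ∑ v, P u v = 1) {L : (Finset V → ℝ) →ₗ[ℝ] ℝ} (hL : IsSheraliAdams 2 L)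

include hP hL in
theorem bd_nonneg : 0 ≤ L (bd P) := by
  rw [bd_val P hL]
  exact sum_nonneg fun u _ => sum_nonneg fun v _ =>
    mul_nonneg (hP u v) (by linarith [mm_le hL u v])

include hP hsym hrow hL in
/-- the energy inequality -/
theorem energy (B : Finset V) :
    trA Bᶜ (cv L) - B.card / 4 - L (bd P) ≤ ∑ u ∈ Bᶜ, ∑ v ∈ Bᶜ, P u v * cv L u v := by
  have key : ∀ u v, cv L u u + cv L v v - (mu L u + mu L v - 2 * mm L u v) ≤ 2 * cv L u v := by
    intro u v
    rw [cv_self, cv_self]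
    unfold cv
    nlinarith [sq_nonneg (mu L u - mu L v)]
  have h1 : ∑ u ∈ Bᶜ, ∑ v ∈ Bᶜ, P u v * (cv L u u + cv L v v - (mu L u + mu L v - 2 * mm L u v)) ≤
      ∑ u ∈ Bᶜ, ∑ v ∈ Bᶜ, P u v * (2 * cv L u v) :=
    sum_le_sum fun u _ => sum_le_sum fun v _ => mul_le_mul_of_nonneg_left (key u v) (hP u v)
  have h2 : ∑ u ∈ Bᶜ, ∑ v ∈ Bᶜ, P u v * (2 * cv L u v) =
      2 * ∑ u ∈ Bᶜ, ∑ v ∈ Bᶜ, P u v * cv L u v := by
    simp only [mul_sum]
    exact sum_congr rfl fun u _ => sum_congr rfl fun v _ => by ring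
  have h3 : ∑ u ∈ Bᶜ, ∑ v ∈ Bᶜ, P u v * (cv L u u + cv L v v - (mu L u + mu L v - 2 * mm L u v)) =
      (∑ u ∈ Bᶜ, ∑ v ∈ Bᶜ, P u v * cv L u u) + (∑ u ∈ Bᶜ, ∑ v ∈ Bᶜ, P u v * cv L v v)
      - ∑ u ∈ Bᶜ, ∑ v ∈ Bᶜ, P u v * (mu L u + mu L v - 2 * mm L u v) := by
    simp only [← sum_sub_distrib, ← sum_add_distrib]
    exact sum_congr rfl fun u _ => sum_congr rfl fun v _ => by ring
  have h4 : ∑ u ∈ Bᶜ, ∑ v ∈ Bᶜ, P u v * cv L v v = ∑ u ∈ Bᶜ, ∑ v ∈ Bᶜ, P u v * cv L u u := by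
    rw [sum_comm]
    exact sum_congr rfl fun u _ => sum_congr rfl fun v _ => by rw [hsym]
  have h5 : ∑ u ∈ Bᶜ, ∑ v ∈ Bᶜ, P u v * (mu L u + mu L v - 2 * mm L u v) ≤
      ∑ u, ∑ v, P u v * (mu L u + mu L v - 2 * mm L u v) := by
    have h6 : ∀ u v, 0 ≤ P u v * (mu L u + mu L v - 2 * mm L u v) := by
      intro u v
      refine mul_nonneg (hP u v) ?_
      have h7 := mm_le hL u v
      have h8 := mm_le hL v u
      rw [mm_symm] at h8
      linarith
    refine (sum_le_sum fun u _ => sum_le_sum_of_subset_of_nonneg (subset_univ Bᶜ)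
      fun v _ _ => h6 u v).trans ?_
    exact sum_le_sum_of_subset_of_nonneg (subset_univ Bᶜ) fun u _ _ => sum_nonneg fun v _ => h6 u v
  have h6 : ∑ u, ∑ v, P u v * (mu L u + mu L v - 2 * mm L u v) = 2 * L (bd P) := by
    rw [bd_val P hL]
    have h7 : ∑ u, ∑ v, P u v * (mu L u + mu L v - 2 * mm L u v) =
        (∑ u, ∑ v, P u v * (mu L u - mm L u v)) + ∑ u, ∑ v, P u v * (mu L v - mm L u v) := by
      simp only [← sum_add_distrib]
      exact sum_congr rfl fun u _ => sum_congr rfl fun v _ => by ring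
    have h8 : ∑ u, ∑ v, P u v * (mu L v - mm L u v) = ∑ u, ∑ v, P u v * (mu L u - mm L u v) := by
      rw [sum_comm]
      exact sum_congr rfl fun u _ => sum_congr rfl fun v _ => by rw [hsym, mm_symm]
    rw [h7, h8]; ring
  have h7 : trA Bᶜ (cv L) - B.card / 4 ≤ ∑ u ∈ Bᶜ, ∑ v ∈ Bᶜ, P u v * cv L u u := by
    have h8 : ∀ u, ∑ v ∈ Bᶜ, P u v * cv L u u = cv L u u - ∑ v ∈ B, P u v * cv L u u := by
      intro u
      have h9 := sum_add_sum_compl B (fun v => P u v * cv L u u)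
      rw [← sum_mul univ, hrow u, one_mul] at h9
      linarith
    have h9 : ∑ u ∈ Bᶜ, ∑ v ∈ Bᶜ, P u v * cv L u u =
        trA Bᶜ (cv L) - ∑ u ∈ Bᶜ, ∑ v ∈ B, P u v * cv L u u := by
      unfold trA
      rw [← sum_sub_distrib]
      exact sum_congr rfl fun u _ => h8 u
    have h10 : ∑ u ∈ Bᶜ, ∑ v ∈ B, P u v * cv L u u ≤ (B.card : ℝ) / 4 := by
      calc ∑ u ∈ Bᶜ, ∑ v ∈ B, P u v * cv L u u ≤ ∑ u, ∑ v ∈ B, P u v * (1 / 4) := by
            refine (sum_le_sum_of_subset_of_nonneg (subset_univ Bᶜ) fun u _ _ =>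
              sum_nonneg fun v _ => mul_nonneg (hP u v) (cv_self_nonneg hL u)).trans ?_
            exact sum_le_sum fun u _ => sum_le_sum fun v _ =>
              mul_le_mul_of_nonneg_left (cv_self_le hL u) (hP u v)
        _ = ∑ v ∈ B, ∑ u, P v u * (1 / 4) := by
            rw [sum_comm]
            exact sum_congr rfl fun v _ => sum_congr rfl fun u _ => by rw [hsym]
        _ = ∑ v ∈ B, (1 / 4 : ℝ) := by
            refine sum_congr rfl fun v _ => ?_
            rw [← sum_mul, hrow v, one_mul]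
        _ = (B.card : ℝ) / 4 := by rw [sum_const, nsmul_eq_mul]; ring
    rw [h9]; linarith
  linarith

end

theorem trA_le {L : (Finset V → ℝ) →ₗ[ℝ] ℝ} (hL : IsSheraliAdams 2 L) (A : Finset V) :
    trA A (cv L) ≤ ∑ u, mu L u := by
  unfold trA
  refine (sum_le_sum fun u _ => cv_self_le_mu hL u).trans ?_
  exact sum_le_sum_of_subset_of_nonneg (subset_univ A) fun u _ _ => mu_nonneg hL u

theorem trA_nonneg {L : (Finset V → ℝ) →ₗ[ℝ] ℝ} (hL : IsSheraliAdams 2 L) (A : Finset V) :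
    0 ≤ trA A (cv L) := sum_nonneg fun u _ => cv_self_nonneg hL u

/-- there is a vertex whose conditioning decreases the total variance -/
theorem pigeon {L : (Finset V → ℝ) →ₗ[ℝ] ℝ} (hL : IsSheraliAdams 2 L) (A : Finset V)
    (h0 : 0 < trA A (cv L)) :
    ∃ u : V, 0 < mu L u ∧ mu L u < 1 ∧
      mu L u * trA A (cv (cd L (xi u))) + (1 - mu L u) * trA A (cv (cd L (fun S => 1 - xi u S))) ≤
        trA A (cv L) - (∑ u ∈ A, ∑ v ∈ A, cv L u v ^ 2) / trA A (cv L) := by
  set X := ∑ u ∈ A, ∑ v ∈ A, cv L u v ^ 2 with hX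
  set Γ := trA A (cv L) with hΓ
  obtain ⟨u, huA, hu0, hu⟩ : ∃ u ∈ A, 0 < cv L u u ∧
      X / Γ * cv L u u ≤ ∑ v ∈ A, cv L u v ^ 2 := by
    by_contra hcon
    push Not at hcon
    have hex : ∃ u ∈ A, 0 < cv L u u := by
      by_contra h
      push Not at h
      have : Γ ≤ 0 := sum_nonpos h
      linarith
    obtain ⟨w, hwA, hw0⟩ := hex
    have h1 : ∑ u ∈ A, ∑ v ∈ A, cv L u v ^ 2 < ∑ u ∈ A, X / Γ * cv L u u := by
      refine sum_lt_sum (fun u hu => ?_) ⟨w, hwA, hcon w hwA hw0⟩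
      rcases (cv_self_nonneg hL u).eq_or_lt with h | h
      · have h2 : ∀ v, cv L u v = 0 := fun v => cv_zero hL u v h.symm
        simp only [h2]
        simp
      · exact (hcon u hu h).le
    rw [← mul_sum] at h1
    have h2 : X / Γ * ∑ u ∈ A, cv L u u = X := div_mul_cancel₀ X h0.ne'
    rw [h2] at h1
    exact lt_irrefl _ h1
  have hm0 : 0 < mu L u := by
    rcases (mu_nonneg hL u).eq_or_lt with h | h
    · rw [cv_self, ← h] at hu0; simp at hu0
    · exact h
  have hm1 : mu L u < 1 := by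
    rcases (mu_le_one hL u).eq_or_lt with h | h
    · rw [cv_self, h] at hu0; simp at hu0
    · exact h
  refine ⟨u, hm0, hm1, ?_⟩
  have h3 : mu L u * trA A (cv (cd L (xi u))) +
      (1 - mu L u) * trA A (cv (cd L (fun S => 1 - xi u S))) =
      Γ - (∑ v ∈ A, cv L u v ^ 2) / cv L u u := by
    rw [hΓ]
    unfold trA
    rw [mul_sum, mul_sum, ← sum_add_distrib, sum_div, ← sum_sub_distrib]
    exact sum_congr rfl fun v _ => var_dec hL.one u v hm0 hm1
  rw [h3]
  have h4 : X / Γ ≤ (∑ v ∈ A, cv L u v ^ 2) / cv L u u := by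
    rw [le_div_iff₀ hu0]; exact hu
  linarith

theorem size_mono {k k' : ℕ} {s : ℝ} (h : k' ≤ k) {L : (Finset V → ℝ) →ₗ[ℝ] ℝ}
    (hL : HasSize k s L) : HasSize k' s L := fun W hW f hf => hL W (lt_of_lt_of_le hW h) f hf

/-- **descent** -/
theorem descend (P : V → V → ℝ) (hP : ∀ u v, 0 ≤ P u v) (A : Finset V) (s κ E c : ℝ) (K : ℕ)
    (hK : 2 ≤ K) (hκ : 0 < κ) (hκc : κ ≤ c) (hE : 0 < E)
    (hstep : ∀ L : (Finset V → ℝ) →ₗ[ℝ] ℝ, IsSheraliAdams K L → c ≤ trA A (cv L) →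
      L (bd P) ≤ E → κ * trA A (cv L) ≤ ∑ u ∈ A, ∑ v ∈ A, cv L u v ^ 2) :
    ∀ (j : ℕ) (L : (Finset V → ℝ) →ₗ[ℝ] ℝ), IsSheraliAdams (K + j) L → HasSize (K + j) s L →
      trA A (cv L) / κ + (j + 1) * (L (bd P) / E) < j + 1 →
      ∃ L' : (Finset V → ℝ) →ₗ[ℝ] ℝ, IsSheraliAdams K L' ∧ HasSize K s L' ∧
        trA A (cv L') < c ∧ L' (bd P) ≤ E := by
  intro j
  induction j with
  | zero =>
    intro L hL hs h
    have hL2 : IsSheraliAdams 2 L := sa_mono (by omega) hL
    have h1 := bd_nonneg P hP hL2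
    have h2 := trA_nonneg hL2 A
    have h3 : 0 ≤ L (bd P) / E := div_nonneg h1 hE.le
    have h4 : 0 ≤ trA A (cv L) / κ := div_nonneg h2 hκ.le
    push_cast at h
    have h5 : L (bd P) / E < 1 := by linarith
    have h6 : trA A (cv L) / κ < 1 := by linarith
    rw [div_lt_one hE] at h5
    rw [div_lt_one hκ] at h6
    exact ⟨L, hL, hs, by linarith, h5.le⟩
  | succ j ih =>
    intro L hL hs h
    have hL2 : IsSheraliAdams 2 L := sa_mono (by omega) hL
    have hLK : IsSheraliAdams K L := sa_mono (by omega) hL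
    have h1 := bd_nonneg P hP hL2
    have h2 := trA_nonneg hL2 A
    have h3 : 0 ≤ L (bd P) / E := div_nonneg h1 hE.le
    have h4 : 0 ≤ trA A (cv L) / κ := div_nonneg h2 hκ.le
    push_cast at h
    have hj : (0 : ℝ) ≤ j := Nat.cast_nonneg j
    have h5 : L (bd P) ≤ E := by
      by_contra hcon
      push Not at hcon
      have h6 : 1 < L (bd P) / E := by rw [lt_div_iff₀ hE]; linarith
      nlinarith
    rcases lt_or_ge (trA A (cv L)) c with hc | hc
    · exact ⟨L, hLK, size_mono (by omega) hs, hc, h5⟩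
    · have htr : 0 < trA A (cv L) := lt_of_lt_of_le (lt_of_lt_of_le hκ hκc) hc
      obtain ⟨u, hu0, hu1, hu⟩ := pigeon hL2 A htr
      have h6 := hstep L hLK hc h5
      have h7 : κ ≤ (∑ u ∈ A, ∑ v ∈ A, cv L u v ^ 2) / trA A (cv L) := by
        rw [le_div_iff₀ htr]; exact h6
      have h8 := total hL2.one u hu0 hu1 (bd P)
      set L1 := cd L (xi u) with hL1
      set L0 := cd L (fun S => 1 - xi u S) with hL0
      have hg0 : 0 < L (fun S => 1 - xi u S) := by
        have h9 : (fun S => 1 - xi u S) = (fun _ => (1 : ℝ)) - xi u := rfl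
        rw [h9, map_sub, hL.one]
        change 0 < 1 - mu L u
        linarith
      have hd0 : DependsOn {u} (fun S => 1 - xi u S) := dep_sub (dep_const _ 1) (dep_xi u)
      have hS1 : IsSheraliAdams (K + j) L1 :=
        cd_sa (k := K + j) hL u _ (dep_xi u) (xi_nonneg u) hu0
      have hS0 : IsSheraliAdams (K + j) L0 :=
        cd_sa (k := K + j) hL u _ hd0 (fun S => by linarith [xi_le_one u S]) hg0
      have hz1 : HasSize (K + j) s L1 := cd_size (k := K + j) hs u _ (dep_xi u)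
      have hz0 : HasSize (K + j) s L0 := cd_size (k := K + j) hs u _ hd0
      have hdich : trA A (cv L1) / κ + (j + 1) * (L1 (bd P) / E) < j + 1 ∨
          trA A (cv L0) / κ + (j + 1) * (L0 (bd P) / E) < j + 1 := by
        by_contra hcon
        push Not at hcon
        obtain ⟨c1, c0⟩ := hcon
        have c2 := mul_le_mul_of_nonneg_left c1 hu0.le
        have c3 := mul_le_mul_of_nonneg_left c0 (by linarith : 0 ≤ 1 - mu L u)
        have c4 : (mu L u * trA A (cv L1) + (1 - mu L u) * trA A (cv L0)) / κ +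
            (j + 1) * ((mu L u * L1 (bd P) + (1 - mu L u) * L0 (bd P)) / E) =
            mu L u * (trA A (cv L1) / κ + (j + 1) * (L1 (bd P) / E)) +
            (1 - mu L u) * (trA A (cv L0) / κ + (j + 1) * (L0 (bd P) / E)) := by
          ring
        rw [h8] at c4
        have c5 : (mu L u * trA A (cv L1) + (1 - mu L u) * trA A (cv L0)) / κ ≤
            trA A (cv L) / κ - 1 := by
          have c6 : (trA A (cv L) / κ - 1) * κ = trA A (cv L) - κ := by
            field_simp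
          rw [div_le_iff₀ hκ, c6]
          linarith
        nlinarith
      rcases hdich with h9 | h9
      · exact ih L1 hS1 hz1 h9
      · exact ih L0 hS0 hz0 h9

end

end Run7.h881.SE
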