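import Pool.Agent.Run7.h881.SE.Ret

/-!
The powers of a kernel restricted to a set whose small subsets retain little mass: decay of the rows.
-/

set_option autoImplicit false
set_option linter.unusedSectionVars false

namespace Run7.h881.SE

open Finset

section
variable {V : Type} [Fintype V] [DecidableEq V]

/-- the kernel restricted to `A` -/
def rst (P : V → V → ℝ) (A : Finset V) : Matrix V V ℝ :=
  Matrix.of fun u v => if u ∈ A ∧ v ∈ A then P u v else 0

theorem rst_apply (P : V → V → ℝ) (A : Finset V) (u v : V) :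
    rst P A u v = if u ∈ A ∧ v ∈ A then P u v else 0 := rfl

variable (P : V → V → ℝ) (hP : ∀ u v, 0 ≤ P u v) (hsym : ∀ u v, P u v = P v u)
    (hrow : ∀ u, ∑ v, P u v ≤ 1) (A : Finset V)

include hP in
theorem rst_nonneg (u v : V) : 0 ≤ rst P A u v := by
  rw [rst_apply]; split_ifs
  · exact hP u v
  · exact le_rfl

include hP in
theorem rst_le (u v : V) : rst P A u v ≤ P u v := by
  rw [rst_apply]; split_ifs
  · exact le_rfl
  · exact hP u v

include hsym in
theorem rst_symm (u v : V) : rst P A u v = rst P A v u := by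
  rw [rst_apply, rst_apply, hsym u v]
  simp only [and_comm]

include hP hrow in
theorem rst_row (u : V) : ∑ v, rst P A u v ≤ 1 :=
  (sum_le_sum fun v _ => rst_le P hP A u v).trans (hrow u)

include hP in
theorem pw_nonneg (t : ℕ) (u v : V) : 0 ≤ (rst P A ^ t) u v := by
  induction t generalizing u v with
  | zero =>
    rw [pow_zero, Matrix.one_apply]
    split_ifs <;> norm_num
  | succ t ih =>
    rw [pow_succ, Matrix.mul_apply]
    exact sum_nonneg fun x _ => mul_nonneg (ih u x) (rst_nonneg P hP A x v)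

include hsym in
theorem pw_symm (t : ℕ) (u v : V) : (rst P A ^ t) u v = (rst P A ^ t) v u := by
  have h : (rst P A).transpose = rst P A := by
    ext i j
    rw [Matrix.transpose_apply]
    exact rst_symm P hsym A j i
  have h2 : (rst P A ^ t).transpose = rst P A ^ t := by
    rw [Matrix.transpose_pow, h]
  calc (rst P A ^ t) u v = (rst P A ^ t).transpose v u := rfl
    _ = _ := by rw [h2]

include hP hrow in
theorem pw_row (t : ℕ) (u : V) : ∑ v, (rst P A ^ t) u v ≤ 1 := by
  induction t with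
  | zero =>
    rw [pow_zero]
    simp [Matrix.one_apply]
  | succ t ih =>
    rw [pow_succ]
    simp only [Matrix.mul_apply]
    rw [sum_comm]
    calc ∑ x, ∑ v, (rst P A ^ t) u x * rst P A x v = ∑ x, (rst P A ^ t) u x * ∑ v, rst P A x v :=
          sum_congr rfl fun x _ => by rw [mul_sum]
      _ ≤ ∑ x, (rst P A ^ t) u x * 1 := sum_le_sum fun x _ =>
          mul_le_mul_of_nonneg_left (rst_row P hP hrow A x) (pw_nonneg P hP A t u x)
      _ ≤ 1 := by simpa using ih

/-- vanishing outside of `A` -/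
theorem pw_zero (t : ℕ) (u v : V) (hu : u ∈ A) (hv : v ∉ A) : (rst P A ^ t) u v = 0 := by
  cases t with
  | zero =>
    rw [pow_zero, Matrix.one_apply, if_neg]
    rintro rfl
    exact hv hu
  | succ t =>
    rw [pow_succ, Matrix.mul_apply]
    refine sum_eq_zero fun x _ => ?_
    rw [rst_apply, if_neg (fun h => hv h.2), mul_zero]

theorem pw_succ (t : ℕ) (u v : V) :
    (rst P A ^ (t + 1)) u v = ∑ x, (rst P A ^ t) u x * rst P A x v := by
  rw [pow_succ, Matrix.mul_apply]

/-- square norm of a row -/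
noncomputable def rsq (t : ℕ) (u : V) : ℝ := ∑ v, (rst P A ^ t) u v ^ 2

include hP hsym hrow in
theorem rsq_anti (t : ℕ) (u : V) : rsq P A (t + 1) u ≤ rsq P A t u := by
  unfold rsq
  have h1 : ∀ v, (rst P A ^ (t + 1)) u v ^ 2 ≤ ∑ x, (rst P A ^ t) u x ^ 2 * rst P A x v := by
    intro v
    rw [pw_succ]
    have h2 := sum_mul_sq_le_sq_mul_sq univ (fun x => (rst P A ^ t) u x * √(rst P A x v))
      (fun x => √(rst P A x v))
    have h3 : ∀ x, (rst P A ^ t) u x * √(rst P A x v) * √(rst P A x v) =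
        (rst P A ^ t) u x * rst P A x v := by
      intro x
      rw [mul_assoc, Real.mul_self_sqrt (rst_nonneg P hP A x v)]
    have h4 : ∀ x, ((rst P A ^ t) u x * √(rst P A x v)) ^ 2 =
        (rst P A ^ t) u x ^ 2 * rst P A x v := by
      intro x
      rw [mul_pow, Real.sq_sqrt (rst_nonneg P hP A x v)]
    have h5 : ∀ x, √(rst P A x v) ^ 2 = rst P A x v := fun x =>
      Real.sq_sqrt (rst_nonneg P hP A x v)
    simp only [h3, h4, h5] at h2
    refine h2.trans ?_
    have h6 : ∑ x, rst P A x v ≤ 1 := by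
      rw [sum_congr rfl fun x _ => rst_symm P hsym A x v]
      exact rst_row P hP hrow A v
    have h7 : 0 ≤ ∑ x, (rst P A ^ t) u x ^ 2 * rst P A x v := sum_nonneg fun x _ =>
      mul_nonneg (sq_nonneg _) (rst_nonneg P hP A x v)
    nlinarith
  refine (sum_le_sum fun v _ => h1 v).trans ?_
  rw [sum_comm]
  refine sum_le_sum fun x _ => ?_
  rw [← mul_sum]
  have := mul_le_mul_of_nonneg_left (rst_row P hP hrow A x) (sq_nonneg ((rst P A ^ t) u x))
  linarith

include hP hsym hrow in
/-- one step -/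
theorem rsq_step (s1 lam : ℝ) (hlam : 0 < lam) (hs1 : 0 < s1)
    (hA : ∀ S : Finset V, S ⊆ A → S.Nonempty → (S.card : ℝ) ≤ s1 →
      ins P S ≤ lam ^ 2 / 2 * S.card) (t : ℕ) (u : V) (hu : u ∈ A) :
    rsq P A (t + 1) u ≤ 2 * lam * rsq P A t u + 4 / s1 := by
  have h1 := bil P hP hsym hrow A s1 lam hlam hs1 hA (fun v => (rst P A ^ t) u v)
    (fun v => (rst P A ^ (t + 1)) u v) (fun v => pw_nonneg P hP A t u v)
    (fun v hv => pw_zero P A t u v hu hv) (fun v => pw_nonneg P hP A (t + 1) u v)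
    (fun v hv => pw_zero P A (t + 1) u v hu hv) (pw_row P hP hrow A t u)
    (pw_row P hP hrow A (t + 1) u)
  have h2 : rsq P A (t + 1) u ≤ ∑ x, ∑ v, P x v * ((rst P A ^ t) u x * (rst P A ^ (t + 1)) u v) := by
    unfold rsq
    rw [sum_comm]
    refine sum_le_sum fun v _ => ?_
    have h3 := pw_succ P A t u v
    calc (rst P A ^ (t + 1)) u v ^ 2
        = (∑ x, (rst P A ^ t) u x * rst P A x v) * (rst P A ^ (t + 1)) u v := by
          rw [← h3]; ring
      _ = ∑ x, (rst P A ^ t) u x * rst P A x v * (rst P A ^ (t + 1)) u v := by rw [sum_mul]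
      _ ≤ _ := by
          refine sum_le_sum fun x _ => ?_
          have h4 := rst_le P hP A x v
          have h5 : 0 ≤ (rst P A ^ t) u x * (rst P A ^ (t + 1)) u v :=
            mul_nonneg (pw_nonneg P hP A t u x) (pw_nonneg P hP A (t + 1) u v)
          nlinarith
  have h3 := rsq_anti P hP hsym hrow A t u
  unfold rsq at h2 h3 ⊢
  nlinarith

include hP hsym hrow in
/-- decay of the rows -/
theorem rsq_decay (s1 lam : ℝ) (hlam : 0 < lam) (hlam1 : lam ≤ 1 / 4) (hs1 : 0 < s1)
    (hA : ∀ S : Finset V, S ⊆ A → S.Nonempty → (S.card : ℝ) ≤ s1 →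
      ins P S ≤ lam ^ 2 / 2 * S.card) (t : ℕ) (u : V) (hu : u ∈ A) :
    rsq P A t u ≤ (2 * lam) ^ t + 8 / s1 := by
  induction t with
  | zero =>
    have h1 : rsq P A 0 u = 1 := by
      unfold rsq
      simp [Matrix.one_apply]
    rw [h1, pow_zero]
    have : 0 < 8 / s1 := by positivity
    linarith
  | succ t ih =>
    have h1 := rsq_step P hP hsym hrow A s1 lam hlam hs1 hA t u hu
    have h2 := mul_le_mul_of_nonneg_left ih (by linarith : 0 ≤ 2 * lam)
    have h3 : 2 * lam * (8 / s1) ≤ 1 / 2 * (8 / s1) :=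
      mul_le_mul_of_nonneg_right (by linarith) (by positivity)
    have h4 : 2 * lam * ((2 * lam) ^ t + 8 / s1) = (2 * lam) ^ (t + 1) + 2 * lam * (8 / s1) := by
      ring
    have h5 : (8 : ℝ) / s1 = 4 / s1 + 1 / 2 * (8 / s1) := by ring
    linarith

include hP hsym hrow in
/-- the square norm of the power -/
theorem frob (s1 lam : ℝ) (hlam : 0 < lam) (hlam1 : lam ≤ 1 / 4) (hs1 : 0 < s1)
    (hA : ∀ S : Finset V, S ⊆ A → S.Nonempty → (S.card : ℝ) ≤ s1 →
      ins P S ≤ lam ^ 2 / 2 * S.card) (t : ℕ) :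
    ∑ u ∈ A, ∑ v ∈ A, (rst P A ^ t) u v ^ 2 ≤ A.card * ((2 * lam) ^ t + 8 / s1) := by
  calc ∑ u ∈ A, ∑ v ∈ A, (rst P A ^ t) u v ^ 2 ≤ ∑ u ∈ A, ((2 * lam) ^ t + 8 / s1) := by
        refine sum_le_sum fun u hu => ?_
        refine le_trans ?_ (rsq_decay P hP hsym hrow A s1 lam hlam hlam1 hs1 hA t u hu)
        exact sum_le_sum_of_subset_of_nonneg (subset_univ A) fun v _ _ => sq_nonneg _
    _ = _ := by rw [sum_const, nsmul_eq_mul]

end

end Run7.h881.SE
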