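import Pool.Agent.Run7.h881.SE.Stp

/-!
Conditioning on the event that a random element of the set is `u`: the step of the descent.
-/

set_option autoImplicit false
set_option linter.unusedSectionVars false

namespace Run7.h881.SE

open Finset Run7.h881.SA

section
variable {V : Type} [Fintype V] [DecidableEq V]

theorem card_xi (S : Finset V) : (S.card : ℝ) = ∑ u, xi u S := by
  unfold xi
  rw [sum_boole]
  congr 2
  ext u; simp

section
variable {L : (Finset V → ℝ) →ₗ[ℝ] ℝ} {k : ℕ} {s : ℝ}

theorem sum_mm (hk : 2 ≤ k) (hs : HasSize k s L) (v : V) : ∑ u, mm L u v = s * mu L v := by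
  have h := hs {v} (by rw [card_singleton]; omega) (xi v) (dep_xi v)
  have h2 : (fun S : Finset V => (S.card : ℝ) * xi v S) = ∑ u, fun S => xi u S * xi v S := by
    funext S
    rw [Finset.sum_apply, card_xi, sum_mul]
  rw [h2, map_sum] at h
  exact h

theorem sum_bd (hk : 3 ≤ k) (hs : HasSize k s L) (P : V → V → ℝ) :
    ∑ w, L (fun S => xi w S * bd P S) = s * L (bd P) := by
  have h1 : ∀ f : Finset V → ℝ, ∑ w, L (fun S => xi w S * f S) =
      L (fun S => (S.card : ℝ) * f S) := by
    intro f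
    rw [← map_sum]
    congr 1
    funext S
    rw [Finset.sum_apply, card_xi, sum_mul]
  rw [h1]
  have h2 : (fun S : Finset V => (S.card : ℝ) * bd P S) =
      ∑ u, ∑ v, P u v • (fun S : Finset V => (S.card : ℝ) * (xi u S * (1 - xi v S))) := by
    funext S
    simp only [bd, Finset.sum_apply, Pi.smul_apply, smul_eq_mul, mul_sum]
    exact sum_congr rfl fun u _ => sum_congr rfl fun v _ => by ring
  have h3 : bd P = ∑ u, ∑ v, P u v • (fun S => xi u S * (1 - xi v S)) := by
    funext S
    simp only [bd, Finset.sum_apply, Pi.smul_apply, smul_eq_mul]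
  rw [h2, h3, map_sum, map_sum, mul_sum]
  refine sum_congr rfl fun u _ => ?_
  rw [map_sum, map_sum, mul_sum]
  refine sum_congr rfl fun v _ => ?_
  rw [map_smul, map_smul, smul_eq_mul, smul_eq_mul,
    hs {u, v} (lt_of_le_of_lt card_le_two (by omega)) _
      (dep_mul (dep_mono (by simp) (dep_xi u)) (dep_sub (dep_const _ 1)
        (dep_mono (by simp) (dep_xi v))))]
  ring

/-- the variances after conditioning -/
theorem avg_var (hL : IsSheraliAdams 2 L) (hk : 2 ≤ k) (hs : HasSize k s L)
    (h1 : ∑ u, mu L u = s) (A : Finset V) :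
    ∑ u, mu L u * trA A (cv (cd L (xi u))) =
      s * trA A (cv L) - ∑ u, ∑ v ∈ A, cv L u v ^ 2 / mu L u := by
  have key : ∀ u v, mu L u * cv (cd L (xi u)) v v =
      mm L u v - 2 * cv L u v * mu L v - mu L u * mu L v ^ 2 - cv L u v ^ 2 / mu L u := by
    intro u v
    rcases (mu_nonneg hL u).eq_or_lt with h | h
    · have h2 := mm_nonneg hL u v
      have h3 := mm_le hL u v
      rw [← h] at h3 ⊢
      have h4 : mm L u v = 0 := le_antisymm h3 h2
      have h5 : cv L u v = 0 := by
        unfold cv; rw [h4, ← h]; ring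
      rw [h4, h5]; simp
    · have h4 : mu (cd L (xi u)) v = mm L u v / mu L u := rfl
      rw [cv_self, h4]
      unfold cv
      field_simp
      ring
  have h2 : ∀ u, mu L u * trA A (cv (cd L (xi u))) =
      ∑ v ∈ A, (mm L u v - 2 * cv L u v * mu L v - mu L u * mu L v ^ 2 - cv L u v ^ 2 / mu L u) := by
    intro u
    unfold trA
    rw [mul_sum]
    exact sum_congr rfl fun v _ => key u v
  rw [sum_congr rfl fun u _ => h2 u, sum_comm]
  have h3 : ∀ v, ∑ u, (mm L u v - 2 * cv L u v * mu L v - mu L u * mu L v ^ 2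
      - cv L u v ^ 2 / mu L u) = s * cv L v v - ∑ u, cv L u v ^ 2 / mu L u := by
    intro v
    have h4 := sum_mm hk hs v
    have h5 : ∑ u, cv L u v = 0 := by
      unfold cv
      rw [sum_sub_distrib, h4, ← sum_mul, h1, sub_self]
    rw [sum_sub_distrib, sum_sub_distrib, sum_sub_distrib, h4, ← sum_mul, ← sum_mul, h1,
      ← mul_sum, h5, cv_self]
    ring
  rw [sum_congr rfl fun v _ => h3 v, sum_sub_distrib, ← mul_sum, sum_comm (s := A)]
  rfl

/-- **weighted step**: some conditioning on `u ∈ S` decreases the potential -/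
theorem wstep (P : V → V → ℝ) (hP : ∀ u v, 0 ≤ P u v) (hL : IsSheraliAdams k L) (hk : 3 ≤ k)
    (hs0 : 0 < s) (hs : HasSize k s L) (h1 : ∑ u, mu L u = s) (A : Finset V) (κ E y : ℝ)
    (hκ : 0 < κ) (hE : 0 < E) (hy : 0 ≤ y)
    (hY : κ * s ≤ ∑ u, ∑ v ∈ A, cv L u v ^ 2 / mu L u) :
    ∃ u, 0 < mu L u ∧ trA A (cv (cd L (xi u))) / κ + y * (cd L (xi u) (bd P) / E) ≤
      trA A (cv L) / κ - 1 + y * (L (bd P) / E) := by
  have hL2 : IsSheraliAdams 2 L := sa_mono (by omega) hL
  by_contra hcon
  push Not at hcon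
  set X := fun u => trA A (cv (cd L (xi u))) / κ + y * (cd L (xi u) (bd P) / E) with hX
  set Z := trA A (cv L) / κ - 1 + y * (L (bd P) / E) with hZ
  have h2 : ∑ u, mu L u * X u ≤ s * Z := by
    have h3 : ∑ u, mu L u * X u = (∑ u, mu L u * trA A (cv (cd L (xi u)))) / κ +
        y * ((∑ u, mu L u * cd L (xi u) (bd P)) / E) := by
      rw [sum_div, sum_div, mul_sum, ← sum_add_distrib]
      refine sum_congr rfl fun u _ => ?_
      simp only [hX]
      ring
    have h4 : ∑ u, mu L u * cd L (xi u) (bd P) ≤ s * L (bd P) := by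
      rw [← sum_bd hk hs P]
      refine sum_le_sum fun u _ => ?_
      rcases (mu_nonneg hL2 u).eq_or_lt with h | h
      · rw [← h, zero_mul]
        have h5 : (fun S => xi u S * bd P S) =
            ∑ a, ∑ b, P a b • (fun S => xi u S * (xi a S * (1 - xi b S))) := by
          funext S
          simp only [bd, Finset.sum_apply, Pi.smul_apply, smul_eq_mul, mul_sum]
          exact sum_congr rfl fun u _ => sum_congr rfl fun v _ => by ring
        rw [h5, map_sum]
        refine sum_nonneg fun a _ => ?_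
        rw [map_sum]
        refine sum_nonneg fun b _ => ?_
        rw [map_smul, smul_eq_mul]
        refine mul_nonneg (hP a b) (hL.nonneg {u, a, b} (card_le_three.trans hk) _ ?_ ?_)
        · refine dep_mul (dep_mono ?_ (dep_xi u)) (dep_mul (dep_mono ?_ (dep_xi a))
            (dep_sub (dep_const _ 1) (dep_mono ?_ (dep_xi b)))) <;>
          · intro x hx
            rw [mem_singleton] at hx
            subst hx
            simp
        · intro S
          exact mul_nonneg (xi_nonneg u S) (mul_nonneg (xi_nonneg a S)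
            (by linarith [xi_le_one b S]))
      · rw [cd_apply]
        change mu L u * (_ / mu L u) ≤ _
        rw [mul_div_cancel₀ _ h.ne']
    rw [h3, avg_var hL2 (by omega) hs h1 A]
    have h5 : (s * trA A (cv L) - ∑ u, ∑ v ∈ A, cv L u v ^ 2 / mu L u) / κ ≤
        s * (trA A (cv L) / κ - 1) := by
      rw [div_le_iff₀ hκ]
      have h6 : s * (trA A (cv L) / κ - 1) * κ = s * trA A (cv L) - κ * s := by
        field_simp
      rw [h6]
      linarith
    have h6 : y * ((∑ u, mu L u * cd L (xi u) (bd P)) / E) ≤ s * (y * (L (bd P) / E)) := by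
      have h7 := mul_le_mul_of_nonneg_left (div_le_div_of_nonneg_right h4 hE.le) hy
      refine h7.trans (le_of_eq (by ring))
    calc _ ≤ s * (trA A (cv L) / κ - 1) + s * (y * (L (bd P) / E)) := add_le_add h5 h6
      _ = s * Z := by rw [hZ]; ring
  have h3 : s * Z < ∑ u, mu L u * X u := by
    rw [← h1, sum_mul]
    have hex : ∃ u, 0 < mu L u := by
      by_contra h
      push Not at h
      have : ∑ u, mu L u ≤ 0 := sum_nonpos fun u _ => h u
      linarith
    obtain ⟨w, hw⟩ := hex
    refine sum_lt_sum (fun u _ => ?_) ⟨w, mem_univ w, mul_lt_mul_of_pos_left (hcon w hw) hw⟩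
    rcases (mu_nonneg hL2 u).eq_or_lt with h | h
    · rw [← h]; simp
    · exact (mul_lt_mul_of_pos_left (hcon u h) h).le
  exact absurd h2 (not_le.2 h3)

end

/-- **descent**, weighted -/
theorem wdescend (P : V → V → ℝ) (hP : ∀ u v, 0 ≤ P u v) (A : Finset V) (s κ E c : ℝ) (K : ℕ)
    (hK : 3 ≤ K) (hs0 : 0 < s) (hκ : 0 < κ) (hκc : κ ≤ c) (hE : 0 < E)
    (hstep : ∀ L : (Finset V → ℝ) →ₗ[ℝ] ℝ, IsSheraliAdams K L → HasSize K s L →
      c ≤ trA A (cv L) → L (bd P) ≤ E → κ * s ≤ ∑ u, ∑ v ∈ A, cv L u v ^ 2 / mu L u) :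
    ∀ (j : ℕ) (L : (Finset V → ℝ) →ₗ[ℝ] ℝ), IsSheraliAdams (K + j) L → HasSize (K + j) s L →
      trA A (cv L) / κ + (j + 1) * (L (bd P) / E) < j + 1 →
      ∃ L' : (Finset V → ℝ) →ₗ[ℝ] ℝ, IsSheraliAdams K L' ∧ HasSize K s L' ∧
        trA A (cv L') < c ∧ L' (bd P) ≤ E := by
  intro j
  induction j with
  | zero =>
    intro L hL hs h
    have hL2 : IsSheraliAdams 2 L := sa_mono (by omega) hL
    have h1 := bd_nonneg P hP hL2
    have h2 := trA_nonneg hL2 A
    have h3 : 0 ≤ L (bd P) / E := div_nonneg h1 hE.le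
    have h4 : 0 ≤ trA A (cv L) / κ := div_nonneg h2 hκ.le
    push_cast at h
    have h5 : L (bd P) / E < 1 := by linarith
    have h6 : trA A (cv L) / κ < 1 := by linarith
    rw [div_lt_one hE] at h5
    rw [div_lt_one hκ] at h6
    exact ⟨L, hL, hs, by linarith, h5.le⟩
  | succ j ih =>
    intro L hL hs h
    have hL2 : IsSheraliAdams 2 L := sa_mono (by omega) hL
    have hLK : IsSheraliAdams K L := sa_mono (by omega) hL
    have hsK : HasSize K s L := size_mono (by omega) hs
    have h1 := bd_nonneg P hP hL2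
    have h2 := trA_nonneg hL2 A
    have h3 : 0 ≤ L (bd P) / E := div_nonneg h1 hE.le
    have h4 : 0 ≤ trA A (cv L) / κ := div_nonneg h2 hκ.le
    push_cast at h
    have hj : (0 : ℝ) ≤ j := Nat.cast_nonneg j
    have h5 : L (bd P) ≤ E := by
      by_contra hcon
      push Not at hcon
      have h6 : 1 < L (bd P) / E := by rw [lt_div_iff₀ hE]; linarith
      nlinarith
    have hsum : ∑ u, mu L u = s := by
      have h := hsK ∅ (by rw [card_empty]; omega) (fun _ => 1) (dep_const _ 1)
      rw [hL.one, mul_one] at h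
      rw [← h]
      have h2 : (fun S : Finset V => (S.card : ℝ) * 1) = ∑ u, xi u := by
        funext S
        rw [Finset.sum_apply, mul_one, card_xi]
      rw [h2, map_sum]
      rfl
    rcases lt_or_ge (trA A (cv L)) c with hc | hc
    · exact ⟨L, hLK, hsK, hc, h5⟩
    · obtain ⟨u, hu0, hu⟩ := wstep P hP hLK hK hs0 hsK hsum A κ E (j + 1) hκ hE (by linarith)
        (hstep L hLK hsK hc h5)
      have hS1 : IsSheraliAdams (K + j) (cd L (xi u)) :=
        cd_sa (k := K + j) hL u _ (dep_xi u) (xi_nonneg u) hu0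
      have hz1 : HasSize (K + j) s (cd L (xi u)) := cd_size (k := K + j) hs u _ (dep_xi u)
      refine ih _ hS1 hz1 (lt_of_le_of_lt hu ?_)
      nlinarith

end

end Run7.h881.SE
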